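import Mathlib

-- part Pool.Agent.Lib.MP_2842de_pr.Chain
section

/-! Random-map chains: one step averages a function over finitely many maps. -/

namespace Pool.Agent.Lib.MP_2842de_pr

open Finset

section Chain
variable {S S' M M' : Type*} [Fintype M] [Fintype M']

/-- One step of the chain that applies the map `act m` with probability `w m`. -/
def step (w : M → ℝ) (act : M → S → S) (f : S → ℝ) : S → ℝ :=
  fun s => ∑ m, w m * f (act m s)

/-- `n` steps of the chain. -/
def iter (w : M → ℝ) (act : M → S → S) (n : ℕ) (f : S → ℝ) : S → ℝ :=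
  (step w act)^[n] f

variable {w : M → ℝ} {act : M → S → S}

@[simp] lemma iter_zero (f : S → ℝ) : iter w act 0 f = f := rfl

lemma iter_succ (n : ℕ) (f : S → ℝ) : iter w act (n + 1) f = step w act (iter w act n f) := by
  unfold iter; rw [Function.iterate_succ_apply']

lemma iter_succ' (n : ℕ) (f : S → ℝ) : iter w act (n + 1) f = iter w act n (step w act f) := by
  unfold iter; rw [Function.iterate_succ_apply]

lemma iter_add_steps (n k : ℕ) (f : S → ℝ) :
    iter w act (n + k) f = iter w act n (iter w act k f) := by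
  unfold iter; rw [Function.iterate_add_apply]

lemma step_mono_on (hw : ∀ m, 0 ≤ w m) (P : S → Prop) (hP : ∀ m s, P s → P (act m s))
    {f g : S → ℝ} (h : ∀ s, P s → f s ≤ g s) (s : S) (hs : P s) :
    step w act f s ≤ step w act g s :=
  Finset.sum_le_sum fun m _ => mul_le_mul_of_nonneg_left (h _ (hP m s hs)) (hw m)

lemma iter_mono_on (hw : ∀ m, 0 ≤ w m) (P : S → Prop) (hP : ∀ m s, P s → P (act m s))
    {f g : S → ℝ} (h : ∀ s, P s → f s ≤ g s) (n : ℕ) :
    ∀ s, P s → iter w act n f s ≤ iter w act n g s := by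
  induction n with
  | zero => simpa using h
  | succ n ih =>
    intro s hs
    rw [iter_succ, iter_succ]
    exact step_mono_on hw P hP ih s hs

lemma iter_mono (hw : ∀ m, 0 ≤ w m) {f g : S → ℝ} (h : ∀ s, f s ≤ g s) (n : ℕ) (s : S) :
    iter w act n f s ≤ iter w act n g s :=
  iter_mono_on hw (fun _ => True) (fun _ _ _ => trivial) (fun s _ => h s) n s trivial

lemma iter_const (h1 : ∑ m, w m = 1) (c : ℝ) (n : ℕ) (s : S) :
    iter w act n (fun _ => c) s = c := by
  induction n generalizing s with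
  | zero => rfl
  | succ n ih =>
    rw [iter_succ]
    unfold step
    simp only [ih]
    rw [← Finset.sum_mul, h1, one_mul]

lemma iter_add (f g : S → ℝ) (n : ℕ) (s : S) :
    iter w act n (fun s => f s + g s) s = iter w act n f s + iter w act n g s := by
  induction n generalizing s with
  | zero => rfl
  | succ n ih =>
    simp only [iter_succ, step, ih, mul_add, Finset.sum_add_distrib]

lemma iter_mul (c : ℝ) (f : S → ℝ) (n : ℕ) (s : S) :
    iter w act n (fun s => c * f s) s = c * iter w act n f s := by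
  induction n generalizing s with
  | zero => rfl
  | succ n ih =>
    simp only [iter_succ, step, ih, Finset.mul_sum]
    refine Finset.sum_congr rfl fun m _ => by ring

lemma iter_sub (f g : S → ℝ) (n : ℕ) (s : S) :
    iter w act n (fun s => f s - g s) s = iter w act n f s - iter w act n g s := by
  have h1 := iter_add (w := w) (act := act) f (fun s => (-1) * g s) n s
  have h2 := iter_mul (w := w) (act := act) (-1) g n s
  have h3 : (fun s => f s - g s) = fun s => f s + (-1) * g s := by funext s; ring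
  rw [h3, h1, h2]; ring

lemma iter_nonneg (hw : ∀ m, 0 ≤ w m) {f : S → ℝ} (hf : ∀ s, 0 ≤ f s) (n : ℕ) (s : S) :
    0 ≤ iter w act n f s := by
  induction n generalizing s with
  | zero => exact hf s
  | succ n ih =>
    rw [iter_succ]
    exact Finset.sum_nonneg fun m _ => mul_nonneg (hw m) (ih _)

lemma iter_le_const (hw : ∀ m, 0 ≤ w m) (h1 : ∑ m, w m = 1) {f : S → ℝ} {c : ℝ}
    (hf : ∀ s, f s ≤ c) (n : ℕ) (s : S) : iter w act n f s ≤ c := by
  have := iter_mono (act := act) hw (f := f) (g := fun _ => c) hf n s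
  rwa [iter_const h1] at this

lemma const_le_iter (hw : ∀ m, 0 ≤ w m) (h1 : ∑ m, w m = 1) {f : S → ℝ} {c : ℝ}
    (hf : ∀ s, c ≤ f s) (n : ℕ) (s : S) : c ≤ iter w act n f s := by
  have := iter_mono (act := act) hw (f := fun _ => c) (g := f) hf n s
  rwa [iter_const h1] at this

/-- A relation kept by every map is respected by all iterates. -/
lemma iter_rel (hw : ∀ m, 0 ≤ w m) (R : S → S → Prop)
    (hR : ∀ m s s', R s s' → R (act m s) (act m s'))
    {f : S → ℝ} (h : ∀ s s', R s s' → f s ≤ f s') (n : ℕ) :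
    ∀ s s', R s s' → iter w act n f s ≤ iter w act n f s' := by
  induction n with
  | zero => simpa using h
  | succ n ih =>
    intro s s' hs
    rw [iter_succ]
    exact Finset.sum_le_sum fun m _ => mul_le_mul_of_nonneg_left (ih _ _ (hR m s s' hs)) (hw m)

lemma iter_proj_of_step {w' : M' → ℝ} {act' : M' → S' → S'} (π : S → S')
    (h : ∀ (f : S' → ℝ) s, step w act (fun s => f (π s)) s = step w' act' f (π s))
    (f : S' → ℝ) (n : ℕ) (s : S) :
    iter w act n (fun s => f (π s)) s = iter w' act' n f (π s) := by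
  induction n generalizing s with
  | zero => rfl
  | succ n ih =>
    rw [iter_succ, iter_succ, ← h]
    congr 1
    funext s
    exact ih s

lemma iter_proj {act' : M → S' → S'} (π : S → S')
    (h : ∀ m s, π (act m s) = act' m (π s)) (f : S' → ℝ) (n : ℕ) (s : S) :
    iter w act n (fun s => f (π s)) s = iter w act' n f (π s) := by
  refine iter_proj_of_step π (fun f s => ?_) f n s
  unfold step
  simp only [h]

/-- Change of the weights, paid for by Cauchy-Schwarz. -/
lemma iter_tilt (hw : ∀ m, 0 ≤ w m) (l : M → ℝ) (g : S → ℝ)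
    (n : ℕ) (s : S) :
    (iter (fun m => w m * l m) act n g s) ^ 2
      ≤ (∑ m, w m * l m ^ 2) ^ n * iter w act n (fun s => g s ^ 2) s := by
  induction n generalizing s with
  | zero => simp
  | succ n ih =>
    have hχ : 0 ≤ ∑ m, w m * l m ^ 2 := Finset.sum_nonneg fun m _ => mul_nonneg (hw m) (sq_nonneg _)
    rw [iter_succ, iter_succ]
    unfold step
    have h1 : (∑ m, w m * l m * iter (fun m => w m * l m) act n g (act m s)) ^ 2 ≤
        (∑ m, w m * l m ^ 2) *
          ∑ m, w m * (iter (fun m => w m * l m) act n g (act m s)) ^ 2 := by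
      apply Finset.sum_sq_le_sum_mul_sum_of_sq_le_mul
      · intro m _; exact mul_nonneg (hw m) (sq_nonneg _)
      · intro m _; exact mul_nonneg (hw m) (sq_nonneg _)
      · intro m _; exact le_of_eq (by ring)
    refine h1.trans ?_
    rw [pow_succ, mul_comm ((∑ m, w m * l m ^ 2) ^ n), mul_assoc]
    refine mul_le_mul_of_nonneg_left ?_ hχ
    rw [Finset.mul_sum]
    refine Finset.sum_le_sum fun m _ => ?_
    have := mul_le_mul_of_nonneg_left (ih (act m s)) (hw m)
    linarith

/-- Generator form of a step whose weights are rates divided by the total rate. -/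
lemma step_eq_gen (r : M → ℝ) (Λ : ℝ) (hΛ : Λ ≠ 0) (hr : ∑ m, r m = Λ) (f : S → ℝ) (s : S) :
    step (fun m => r m / Λ) act f s = f s + (∑ m, r m * (f (act m s) - f s)) / Λ := by
  unfold step
  simp only [mul_sub, Finset.sum_sub_distrib, ← Finset.sum_mul, hr]
  have : ∑ m, r m / Λ * f (act m s) = (∑ m, r m * f (act m s)) / Λ := by
    rw [Finset.sum_div]; exact Finset.sum_congr rfl fun m _ => by ring
  rw [this]; field_simp; ring

end Chain

end Pool.Agent.Lib.MP_2842de_pr
end

-- part Pool.Agent.Lib.MP_2842de_pr.Prod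
section

/-! Expectations under inhomogeneous Bernoulli product weights. -/

namespace Pool.Agent.Lib.MP_2842de_pr

open Finset

section Prod
variable {ι : Type*} [Fintype ι] [DecidableEq ι]

/-- Bernoulli weight of one site. -/
def bern (p : ℝ) (b : Bool) : ℝ := if b then p else 1 - p

/-- Expectation under the product of Bernoulli laws with densities `r i`. -/
def Ex (r : ι → ℝ) (g : (ι → Bool) → ℝ) : ℝ := ∑ η : ι → Bool, (∏ i, bern (r i) (η i)) * g η

lemma bern_nonneg {p : ℝ} (h0 : 0 ≤ p) (h1 : p ≤ 1) (b : Bool) : 0 ≤ bern p b := by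
  unfold bern; split_ifs <;> linarith

lemma Ex_add (r : ι → ℝ) (f g : (ι → Bool) → ℝ) :
    Ex r (fun η => f η + g η) = Ex r f + Ex r g := by
  simp only [Ex, mul_add, Finset.sum_add_distrib]

lemma Ex_sub (r : ι → ℝ) (f g : (ι → Bool) → ℝ) :
    Ex r (fun η => f η - g η) = Ex r f - Ex r g := by
  simp only [Ex, mul_sub, Finset.sum_sub_distrib]

lemma Ex_mul (r : ι → ℝ) (c : ℝ) (f : (ι → Bool) → ℝ) :
    Ex r (fun η => c * f η) = c * Ex r f := by
  simp only [Ex, Finset.mul_sum]
  exact Finset.sum_congr rfl fun η _ => by ring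

lemma Ex_div (r : ι → ℝ) (c : ℝ) (f : (ι → Bool) → ℝ) :
    Ex r (fun η => f η / c) = Ex r f / c := by
  simp only [Ex, Finset.sum_div]
  exact Finset.sum_congr rfl fun η _ => by ring

lemma Ex_sum {κ : Type*} (s : Finset κ) (r : ι → ℝ) (f : κ → (ι → Bool) → ℝ) :
    Ex r (fun η => ∑ k ∈ s, f k η) = ∑ k ∈ s, Ex r (f k) := by
  simp only [Ex, Finset.mul_sum]
  rw [Finset.sum_comm]

lemma Ex_const (r : ι → ℝ) (c : ℝ) : Ex r (fun _ => c) = c := by
  unfold Ex
  rw [← Finset.sum_mul]
  have : ∑ η : ι → Bool, ∏ i, bern (r i) (η i) = ∏ i, ∑ b : Bool, bern (r i) b := by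
    rw [Finset.prod_univ_sum, Fintype.piFinset_univ]
  rw [this]
  simp [bern]

lemma Ex_mono {r : ι → ℝ} (hr : ∀ i, 0 ≤ r i ∧ r i ≤ 1) {f g : (ι → Bool) → ℝ}
    (h : ∀ η, f η ≤ g η) : Ex r f ≤ Ex r g :=
  Finset.sum_le_sum fun η _ => mul_le_mul_of_nonneg_left (h η)
    (Finset.prod_nonneg fun i _ => bern_nonneg (hr i).1 (hr i).2 _)

lemma Ex_nonneg {r : ι → ℝ} (hr : ∀ i, 0 ≤ r i ∧ r i ≤ 1) {f : (ι → Bool) → ℝ}
    (h : ∀ η, 0 ≤ f η) : 0 ≤ Ex r f := by
  have := Ex_mono hr (f := fun _ => 0) (g := f) h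
  rwa [Ex_const] at this

/-- The expectation with site `i` frozen to the value `a`. -/
def Fz (r : ι → ℝ) (i : ι) (g : (ι → Bool) → ℝ) (a : Bool) : ℝ :=
  ∑ η : ι → Bool, if η i = false then
    (∏ j ∈ univ.erase i, bern (r j) (η j)) * g (Function.update η i a) else 0

lemma Ex_eq_Fz (r : ι → ℝ) (i : ι) (g : (ι → Bool) → ℝ) :
    Ex r g = r i * Fz r i g true + (1 - r i) * Fz r i g false := by
  unfold Ex Fz
  have hsplit : ∀ η : ι → Bool, (∏ j, bern (r j) (η j)) * g η =
      (if η i = true then r i * ((∏ j ∈ univ.erase i, bern (r j) (η j)) * g η) else 0) +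
      (if η i = false then (1 - r i) * ((∏ j ∈ univ.erase i, bern (r j) (η j)) * g η) else 0) := by
    intro η
    rw [← Finset.mul_prod_erase univ (fun j => bern (r j) (η j)) (Finset.mem_univ i)]
    cases h : η i <;> simp [bern] <;> ring
  simp only [hsplit, Finset.sum_add_distrib, Finset.mul_sum]
  congr 1
  · let fl : (ι → Bool) → (ι → Bool) := fun η => Function.update η i (!η i)
    have hfl : Function.Involutive fl := by
      intro η; funext j
      by_cases hj : j = i
      · subst hj; simp [fl]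
      · simp [fl, hj]
    rw [← Equiv.sum_comp hfl.toPerm]
    refine Finset.sum_congr rfl fun η _ => ?_
    have hp : ∏ j ∈ univ.erase i, bern (r j) (fl η j) = ∏ j ∈ univ.erase i, bern (r j) (η j) := by
      refine Finset.prod_congr rfl fun j hj => ?_
      have : j ≠ i := Finset.ne_of_mem_erase hj
      simp [fl, this]
    simp only [Function.Involutive.coe_toPerm, hp]
    cases h : η i <;> simp [fl, h]
  · refine Finset.sum_congr rfl fun η _ => ?_
    cases h : η i
    · have : Function.update η i false = η := by rw [← h]; simp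
      simp [this]
    · simp

lemma Fz_update (r : ι → ℝ) (i : ι) (t : ℝ) (g : (ι → Bool) → ℝ) (a : Bool) :
    Fz (Function.update r i t) i g a = Fz r i g a := by
  unfold Fz
  refine Finset.sum_congr rfl fun η _ => ?_
  have hp : ∏ j ∈ univ.erase i, bern (Function.update r i t j) (η j)
      = ∏ j ∈ univ.erase i, bern (r j) (η j) := by
    refine Finset.prod_congr rfl fun j hj => ?_
    have : j ≠ i := Finset.ne_of_mem_erase hj
    simp [this]
  rw [hp]

lemma Ex_upd (r : ι → ℝ) (i : ι) (g : (ι → Bool) → ℝ) (a : Bool) :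
    Ex r (fun η => g (Function.update η i a)) = Fz r i g a := by
  rw [Ex_eq_Fz r i]
  have : ∀ b, Fz r i (fun η => g (Function.update η i a)) b = Fz r i g a := by
    intro b; unfold Fz; simp
  rw [this, this]; ring

/-- Conditional expectation given site `i`. -/
def G1 (r : ι → ℝ) (i : ι) (g : (ι → Bool) → ℝ) (a : Bool) : ℝ :=
  Ex r (fun η => g (Function.update η i a))

lemma Ex_split (r : ι → ℝ) (i : ι) (g : (ι → Bool) → ℝ) :
    Ex r g = r i * G1 r i g true + (1 - r i) * G1 r i g false := by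
  unfold G1; rw [Ex_upd, Ex_upd, Ex_eq_Fz r i]

lemma G1_update (r : ι → ℝ) (i : ι) (t : ℝ) (g : (ι → Bool) → ℝ) (a : Bool) :
    G1 (Function.update r i t) i g a = G1 r i g a := by
  unfold G1; rw [Ex_upd, Ex_upd, Fz_update]

/-- Derivative of the expectation in the density of site `i`. -/
def D1 (r : ι → ℝ) (i : ι) (g : (ι → Bool) → ℝ) : ℝ := G1 r i g true - G1 r i g false

lemma Ex_update (r : ι → ℝ) (i : ι) (t : ℝ) (g : (ι → Bool) → ℝ) :
    Ex (Function.update r i t) g = Ex r g + (t - r i) * D1 r i g := by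
  rw [Ex_split (Function.update r i t) i, Ex_split r i, G1_update, G1_update]
  simp [D1]; ring

lemma G1_congr {r r' : ι → ℝ} {i : ι} (h : ∀ j, j ≠ i → r' j = r j) (g : (ι → Bool) → ℝ)
    (a : Bool) : G1 r' i g a = G1 r i g a := by
  have : r' = Function.update r i (r' i) := by
    funext j
    by_cases hj : j = i
    · subst hj; simp
    · simp [hj, h j hj]
  rw [this, G1_update]

/-- Conditional expectation given two sites. -/
def G2 (r : ι → ℝ) (i j : ι) (g : (ι → Bool) → ℝ) (a b : Bool) : ℝ :=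
  Ex r (fun η => g (Function.update (Function.update η i a) j b))

lemma G1_split_left (r : ι → ℝ) {i j : ι} (hij : i ≠ j) (g : (ι → Bool) → ℝ) (a : Bool) :
    G1 r i g a = r j * G2 r i j g a true + (1 - r j) * G2 r i j g a false := by
  unfold G1 G2
  rw [Ex_split r j]
  unfold G1
  simp only [Function.update_comm hij]

lemma G1_split_right (r : ι → ℝ) (i j : ι) (g : (ι → Bool) → ℝ) (b : Bool) :
    G1 r j g b = r i * G2 r i j g true b + (1 - r i) * G2 r i j g false b := by
  unfold G1 G2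
  rw [Ex_split r i]
  rfl

lemma Ex_split2 (r : ι → ℝ) (i j : ι) (g : (ι → Bool) → ℝ) :
    Ex r g = r i * r j * G2 r i j g true true + r i * (1 - r j) * G2 r i j g true false
      + (1 - r i) * r j * G2 r i j g false true
      + (1 - r i) * (1 - r j) * G2 r i j g false false := by
  rw [Ex_split r j, G1_split_right r i j, G1_split_right r i j]; ring

lemma G2_congr {r r' : ι → ℝ} {i j : ι} (hij : i ≠ j) (h : ∀ k, k ≠ i → k ≠ j → r' k = r k)
    (g : (ι → Bool) → ℝ) (a b : Bool) : G2 r' i j g a b = G2 r i j g a b := by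
  have h1 : G2 r' i j g a b = G2 (Function.update r j (r' j)) i j g a b := by
    have := G1_congr (r := Function.update r j (r' j)) (r' := r') (i := i)
      (fun k hk => by
        by_cases hkj : k = j
        · subst hkj; simp
        · simp [hkj, h k hk hkj]) (fun η => g (Function.update η j b)) a
    exact this
  rw [h1]
  have h2 := G1_update r j (r' j) (fun η => g (Function.update η i a)) b
  unfold G1 at h2
  unfold G2
  simp only [Function.update_comm hij]
  exact h2

lemma Ex_site (r : ι → ℝ) (i : ι) : Ex r (fun η => if η i then (1 : ℝ) else 0) = r i := by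
  rw [Ex_split r i]
  unfold G1
  simp [Ex_const]

lemma Ex_site' (r : ι → ℝ) (i : ι) : Ex r (fun η => if η i then (0 : ℝ) else 1) = 1 - r i := by
  rw [Ex_split r i]
  unfold G1
  simp [Ex_const]

end Prod

end Pool.Agent.Lib.MP_2842de_pr
end

-- part Pool.Agent.Lib.MP_2842de_pr.Model
section

/-! The open exclusion process on `n + 1` sites as a random-map chain, and its height function. -/

namespace Pool.Agent.Lib.MP_2842de_pr

open Finset Function

/-- Configurations on `n + 1` sites. -/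
abbrev Cfg (n : ℕ) := Fin (n + 1) → Bool

/-- Moves: an idle move, or a bond (bulk, left or right) with a direction. -/
abbrev Mv (n : ℕ) := Option ((Fin n ⊕ Bool) × Bool)

/-- Configurations with a counter of the net flow through the left end. -/
abbrev St (n : ℕ) := ℤ × Cfg n

variable {n : ℕ}

/-- Sorting of the two sites of a bulk bond. -/
def bulk (i : Fin n) (u : Bool) (η : Cfg n) : Cfg n :=
  update (update η i.castSucc (if u then η i.castSucc && η i.succ else η i.castSucc || η i.succ))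
    i.succ (if u then η i.castSucc || η i.succ else η i.castSucc && η i.succ)

/-- Action of a move on configurations. -/
def actC : Mv n → Cfg n → Cfg n
  | none, η => η
  | some (Sum.inl i, u), η => bulk i u η
  | some (Sum.inr false, u), η => update η 0 u
  | some (Sum.inr true, u), η => update η (Fin.last n) (!u)

/-- Integer value of a site. -/
def b2z (b : Bool) : ℤ := if b then 1 else 0

/-- Change of the left counter. -/
def dL : Mv n → Cfg n → ℤ
  | some (Sum.inr false, u), η => b2z u - b2z (η 0)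
  | _, _ => 0

/-- Action of a move on states. -/
def actS (m : Mv n) (s : St n) : St n := (s.1 + dL m s.2, actC m s.2)

/-- Rates of the moves. -/
def rate (x q α β γ δ : ℝ) : Mv n → ℝ
  | none => x
  | some (Sum.inl _, true) => 1
  | some (Sum.inl _, false) => q
  | some (Sum.inr false, true) => α
  | some (Sum.inr false, false) => γ
  | some (Sum.inr true, true) => β
  | some (Sum.inr true, false) => δ

lemma sum_Mv (F : Mv n → ℝ) : ∑ m, F m = F none
    + ∑ i : Fin n, (F (some (Sum.inl i, true)) + F (some (Sum.inl i, false)))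
    + (F (some (Sum.inr false, true)) + F (some (Sum.inr false, false)))
    + (F (some (Sum.inr true, true)) + F (some (Sum.inr true, false))) := by
  rw [Fintype.sum_option, Fintype.sum_prod_type, Fintype.sum_sum_type]
  simp only [Fintype.sum_bool]
  ring

lemma rate_nonneg {x q α β γ δ : ℝ} (hx : 0 ≤ x) (hq : 0 ≤ q) (hα : 0 ≤ α) (hβ : 0 ≤ β)
    (hγ : 0 ≤ γ) (hδ : 0 ≤ δ) (m : Mv n) : 0 ≤ rate x q α β γ δ m := by
  rcases m with _ | ⟨i | b, u⟩
  · exact hx
  · cases u <;> simp [rate, hq]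
  · cases u <;> cases b <;> simp [rate, hα, hβ, hγ, hδ]

lemma sum_rate (x q α β γ δ : ℝ) :
    ∑ m : Mv n, rate x q α β γ δ m = x + n * (1 + q) + (α + γ) + (β + δ) := by
  rw [sum_Mv]; simp [rate]; ring

lemma castSucc_ne_succ (i : Fin n) : i.castSucc ≠ i.succ := (Fin.castSucc_lt_succ (i := i)).ne

lemma bulk_castSucc (i : Fin n) (u : Bool) (η : Cfg n) :
    bulk i u η i.castSucc = (if u then η i.castSucc && η i.succ else η i.castSucc || η i.succ) := by
  simp [bulk, castSucc_ne_succ]

lemma bulk_succ (i : Fin n) (u : Bool) (η : Cfg n) :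
    bulk i u η i.succ = (if u then η i.castSucc || η i.succ else η i.castSucc && η i.succ) := by
  simp [bulk]

lemma bulk_other (i : Fin n) (u : Bool) (η : Cfg n) {j : Fin (n + 1)} (h1 : j ≠ i.castSucc)
    (h2 : j ≠ i.succ) : bulk i u η j = η j := by
  simp [bulk, h1, h2]

lemma bulk_update2 (i : Fin n) (u : Bool) (η : Cfg n) (a b : Bool) :
    bulk i u (update (update η i.castSucc a) i.succ b)
      = update (update η i.castSucc (if u then a && b else a || b)) i.succ
          (if u then a || b else a && b) := by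
  funext j
  by_cases h2 : j = i.succ
  · subst h2; simp [bulk_succ, castSucc_ne_succ]
  · by_cases h1 : j = i.castSucc
    · subst h1; simp [bulk_castSucc, castSucc_ne_succ]
    · simp [bulk_other i u _ h1 h2, h1, h2]

lemma bool_mono1 : ∀ u a b a' b' : Bool, a ≤ a' → b ≤ b' →
    (if u then a || b else a && b) ≤ (if u then a' || b' else a' && b') := by decide

lemma bool_mono2 : ∀ u a b a' b' : Bool, a ≤ a' → b ≤ b' →
    (if u then a && b else a || b) ≤ (if u then a' && b' else a' || b') := by decide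

lemma actC_mono (m : Mv n) {η η' : Cfg n} (h : η ≤ η') : actC m η ≤ actC m η' := by
  rcases m with _ | ⟨i | b, u⟩
  · exact h
  · intro j
    change bulk i u η j ≤ bulk i u η' j
    have ha := h i.castSucc
    have hb := h i.succ
    by_cases h2 : j = i.succ
    · subst h2
      rw [bulk_succ, bulk_succ]
      exact bool_mono1 _ _ _ _ _ ha hb
    · by_cases h1 : j = i.castSucc
      · subst h1
        rw [bulk_castSucc, bulk_castSucc]
        exact bool_mono2 _ _ _ _ _ ha hb
      · rw [bulk_other i u _ h1 h2, bulk_other i u _ h1 h2]; exact h j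
  · cases b
    · intro j
      change update η 0 u j ≤ update η' 0 u j
      by_cases hj : j = 0
      · subst hj; simp
      · simp only [ne_eq, hj, not_false_eq_true, update_of_ne]; exact h j
    · intro j
      change update η (Fin.last n) (!u) j ≤ update η' (Fin.last n) (!u) j
      by_cases hj : j = Fin.last n
      · subst hj; simp
      · simp only [ne_eq, hj, not_false_eq_true, update_of_ne]; exact h j

/-- Height function: net flow through the bond to the left of site `x`. -/
def ht (s : St n) (x : ℕ) : ℤ := s.1 - ∑ i : Fin (n + 1), if i.val < x then b2z (s.2 i) else 0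

lemma ht_zero (s : St n) : ht s 0 = s.1 := by simp [ht]

lemma ht_succ (s : St n) (i : Fin (n + 1)) : ht s (i.val + 1) = ht s i.val - b2z (s.2 i) := by
  unfold ht
  have : ∀ j : Fin (n + 1), (if j.val < i.val + 1 then b2z (s.2 j) else 0)
      = (if j.val < i.val then b2z (s.2 j) else 0) + (if j = i then b2z (s.2 i) else 0) := by
    intro j
    by_cases h : j = i
    · subst h; simp
    · have : j.val ≠ i.val := fun e => h (Fin.ext e)
      by_cases h2 : j.val < i.val
      · simp [h, h2, Nat.lt_succ_of_lt h2]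
      · have : ¬ j.val < i.val + 1 := by omega
        simp [h, h2, this]
  simp only [this, Finset.sum_add_distrib, Finset.sum_ite_eq', Finset.mem_univ, if_true]
  ring

lemma ht_large (s : St n) {x : ℕ} (hx : n + 1 ≤ x) : ht s x = ht s (n + 1) := by
  unfold ht
  congr 1
  refine Finset.sum_congr rfl fun i _ => ?_
  have h1 : i.val < x := by have := i.isLt; omega
  simp [h1, i.isLt]

lemma ht_update (h : ℤ) (η : Cfg n) (i : Fin (n + 1)) (a : Bool) (x : ℕ) :
    ht (h, update η i a) x = ht (h, η) x - (if i.val < x then b2z a - b2z (η i) else 0) := by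
  unfold ht
  have : ∀ j : Fin (n + 1), (if j.val < x then b2z (update η i a j) else 0)
      = (if j.val < x then b2z (η j) else 0)
        + (if j = i then (if i.val < x then b2z a - b2z (η i) else 0) else 0) := by
    intro j
    by_cases hj : j = i
    · subst hj; by_cases h2 : j.val < x <;> simp [h2]
    · simp [hj]
  simp only [this, Finset.sum_add_distrib, Finset.sum_ite_eq', Finset.mem_univ, if_true]
  ring

lemma ht_shift (h c : ℤ) (η : Cfg n) (x : ℕ) : ht (h + c, η) x = ht (h, η) x + c := by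
  unfold ht; ring

lemma ht_bulk (i : Fin n) (u : Bool) (s : St n) (x : ℕ) :
    ht (actS (some (Sum.inl i, u)) s) x = if x = i.val + 1 then
      ht s i.val - b2z (if u then s.2 i.castSucc && s.2 i.succ else s.2 i.castSucc || s.2 i.succ)
      else ht s x := by
  obtain ⟨h, η⟩ := s
  have e1 := ht_succ (h, η) i.castSucc
  simp only [Fin.val_castSucc] at e1
  simp only [actS, dL, actC, bulk, add_zero, ht_update, Fin.val_succ, Fin.val_castSucc]
  rw [update_of_ne (castSucc_ne_succ i).symm]
  by_cases hx : x = i.val + 1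
  · subst hx
    simp only [lt_self_iff_false, if_false, Nat.lt_add_one, if_true, e1]
    ring
  · by_cases h1 : i.val + 1 < x
    · have h2 : i.val < x := by omega
      simp only [h1, h2, hx, if_true, if_false]
      cases u <;> cases η i.castSucc <;> cases η i.succ <;> simp [b2z]
    · have h2 : ¬ i.val < x := by omega
      simp [h1, h2, hx]

lemma ht_left (u : Bool) (s : St n) (x : ℕ) :
    ht (actS (some (Sum.inr false, u)) s) x = if x = 0 then ht s 1 + b2z u else ht s x := by
  obtain ⟨h, η⟩ := s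
  have e1 := ht_succ (h, η) 0
  simp only [Fin.val_zero, zero_add] at e1
  simp only [actS, dL, actC, ht_update, ht_shift, Fin.val_zero]
  by_cases hx : x = 0
  · subst hx; simp [e1]; ring
  · have : 0 < x := Nat.pos_of_ne_zero hx
    simp [hx, this]

lemma ht_right (u : Bool) (s : St n) (x : ℕ) :
    ht (actS (some (Sum.inr true, u)) s) x = if n < x then ht s n - b2z (!u) else ht s x := by
  obtain ⟨h, η⟩ := s
  have e1 := ht_succ (h, η) (Fin.last n)
  simp only [Fin.val_last] at e1
  simp only [actS, dL, actC, add_zero, ht_update, Fin.val_last]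
  by_cases hx : n < x
  · simp only [hx, if_true]
    rw [ht_large (h, η) (by omega : n + 1 ≤ x), e1]; ring
  · simp [hx]

/-- Order of height functions. -/
def hle (s s' : St n) : Prop := ∀ x, ht s x ≤ ht s' x

lemma actS_mono (m : Mv n) (s s' : St n) (h : hle s s') : hle (actS m s) (actS m s') := by
  rcases m with _ | ⟨i | b, u⟩
  · simpa [actS, dL, actC] using h
  · intro x
    rw [ht_bulk, ht_bulk]
    by_cases hx : x = i.val + 1
    · simp only [hx, if_true]
      have a1 := ht_succ s i.castSucc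
      have a2 := ht_succ s i.succ
      have b1 := ht_succ s' i.castSucc
      have b2 := ht_succ s' i.succ
      simp only [Fin.val_castSucc, Fin.val_succ] at a1 a2 b1 b2
      have c0 := h i.val
      have c2 := h (i.val + 1 + 1)
      rw [a2, a1, b2, b1] at c2
      revert c2
      cases u <;> cases s.2 i.castSucc <;> cases s.2 i.succ <;> cases s'.2 i.castSucc <;>
        cases s'.2 i.succ <;> simp [b2z] <;> omega
    · simp only [hx, if_false]; exact h x
  · cases b
    · intro x
      rw [ht_left, ht_left]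
      split_ifs
      · have := h 1; omega
      · exact h x
    · intro x
      rw [ht_right, ht_right]
      split_ifs
      · have := h n; omega
      · exact h x

lemma hle_add (h : ℤ) (η : Cfg n) (i : Fin (n + 1)) :
    hle (h, update η i true) (h, update η i false) := by
  intro x
  rw [ht_update, ht_update]
  split_ifs <;> simp [b2z]

lemma hle_move (h : ℤ) (η : Cfg n) (i : Fin n) :
    hle (h, update (update η i.castSucc true) i.succ false)
      (h, update (update η i.castSucc false) i.succ true) := by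
  intro x
  simp only [ht_update, Fin.val_succ, Fin.val_castSucc, update_of_ne (castSucc_ne_succ i).symm]
  by_cases h1 : i.val + 1 < x
  · have h2 : i.val < x := by omega
    simp only [h1, h2, if_true, b2z]
    simp; omega
  · by_cases h2 : i.val < x <;> simp [h1, h2, b2z]

lemma hle_enter (h : ℤ) (η : Cfg n) :
    hle (h, update η 0 false) (h + 1, update η 0 true) := by
  intro x
  rw [ht_update, ht_update, ht_shift]
  by_cases hx : (0 : Fin (n + 1)).val < x
  · simp only [hx, if_true, b2z]; simp; omega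
  · simp only [hx, if_false]; omega

lemma b2z_nonneg (b : Bool) : 0 ≤ b2z b := by cases b <;> simp [b2z]

lemma b2z_le_one (b : Bool) : b2z b ≤ 1 := by cases b <;> simp [b2z]

lemma ht_le (s : St n) (x : ℕ) : ht s x ≤ s.1 := by
  unfold ht
  have : 0 ≤ ∑ i : Fin (n + 1), if i.val < x then b2z (s.2 i) else 0 :=
    Finset.sum_nonneg fun i _ => by
      split_ifs
      · exact b2z_nonneg _
      · exact le_rfl
  omega

lemma le_ht (s : St n) (x : ℕ) : s.1 - (n + 1 : ℕ) ≤ ht s x := by
  unfold ht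
  have : ∑ i : Fin (n + 1), (if i.val < x then b2z (s.2 i) else 0) ≤ ∑ _i : Fin (n + 1), (1 : ℤ) :=
    Finset.sum_le_sum fun i _ => by
      split_ifs
      · exact b2z_le_one _
      · exact zero_le_one
  simp only [Finset.sum_const, Finset.card_univ, Fintype.card_fin, nsmul_eq_mul, mul_one] at this
  omega

lemma hle_far (h : ℤ) (η η' : Cfg n) : hle (h, η) (h + (n + 1 : ℕ), η') := by
  intro x
  have h1 := ht_le (h, η) x
  have h2 := le_ht (h + (n + 1 : ℕ), η') x
  simp only at h1 h2
  omega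

end Pool.Agent.Lib.MP_2842de_pr
end

-- part Pool.Agent.Lib.MP_2842de_pr.Gen
section

/-! The generator averaged against an inhomogeneous product law. -/

namespace Pool.Agent.Lib.MP_2842de_pr

open Finset Function

variable {n : ℕ}

/-- Mean current over a bond with densities `a`, `b`. -/
def cur (q a b : ℝ) : ℝ := a * (1 - b) - q * (1 - a) * b

/-- The generator on states. -/
def genS (x q α β γ δ : ℝ) (W : St n → ℝ) (s : St n) : ℝ :=
  ∑ m, rate x q α β γ δ m * (W (actS m s) - W s)

lemma G2_bulk (r : Fin (n + 1) → ℝ) (i : Fin n) (u : Bool) (g : Cfg n → ℝ) (a b : Bool) :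
    G2 r i.castSucc i.succ (fun η => g (bulk i u η)) a b
      = G2 r i.castSucc i.succ g (if u then a && b else a || b) (if u then a || b else a && b) := by
  unfold G2
  simp only [bulk_update2]

lemma Ex_bulk (r : Fin (n + 1) → ℝ) (q : ℝ) (i : Fin n) (g : Cfg n → ℝ) :
    (Ex r (fun η => g (bulk i true η)) - Ex r g) + q * (Ex r (fun η => g (bulk i false η)) - Ex r g)
      = cur q (r i.castSucc) (r i.succ) *
        (G2 r i.castSucc i.succ g false true - G2 r i.castSucc i.succ g true false) := by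
  rw [Ex_split2 r i.castSucc i.succ (fun η => g (bulk i true η)),
    Ex_split2 r i.castSucc i.succ (fun η => g (bulk i false η)),
    Ex_split2 r i.castSucc i.succ g]
  simp only [G2_bulk]
  simp [cur]; ring

lemma Ex_left (r : Fin (n + 1) → ℝ) (W : St n → ℝ) (h : ℤ) (u : Bool) :
    Ex r (fun η => W (actS (some (Sum.inr false, u)) (h, η)))
      = r 0 * G1 r 0 (fun η => W (h + (b2z u - 1), η)) u
        + (1 - r 0) * G1 r 0 (fun η => W (h + b2z u, η)) u := by
  rw [Ex_split r 0]
  unfold G1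
  simp [actS, dL, actC, b2z]

lemma Ex_right (r : Fin (n + 1) → ℝ) (W : St n → ℝ) (h : ℤ) (u : Bool) :
    Ex r (fun η => W (actS (some (Sum.inr true, u)) (h, η)))
      = G1 r (Fin.last n) (fun η => W (h, η)) (!u) := by
  unfold G1
  simp [actS, dL, actC]

lemma Ex_genS (x q α β γ δ : ℝ) (r : Fin (n + 1) → ℝ) (W : St n → ℝ) (h : ℤ) :
    Ex r (fun η => genS x q α β γ δ W (h, η)) =
      α * (1 - r 0) * (G1 r 0 (fun η => W (h + 1, η)) true - G1 r 0 (fun η => W (h, η)) false)
      + γ * r 0 * (G1 r 0 (fun η => W (h - 1, η)) false - G1 r 0 (fun η => W (h, η)) true)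
      + ∑ i : Fin n, cur q (r i.castSucc) (r i.succ) *
          (G2 r i.castSucc i.succ (fun η => W (h, η)) false true
            - G2 r i.castSucc i.succ (fun η => W (h, η)) true false)
      - (β * r (Fin.last n) - δ * (1 - r (Fin.last n))) * D1 r (Fin.last n) (fun η => W (h, η)) := by
  unfold genS
  rw [Ex_sum]
  simp only [Ex_mul, Ex_sub]
  rw [sum_Mv]
  simp only [rate, Ex_left, Ex_right]
  have hb : ∀ i : Fin n,
      (1 * (Ex r (fun η => W (actS (some (Sum.inl i, true)) (h, η))) - Ex r fun η => W (h, η)) +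
        q * (Ex r (fun η => W (actS (some (Sum.inl i, false)) (h, η))) - Ex r fun η => W (h, η)))
      = cur q (r i.castSucc) (r i.succ) *
          (G2 r i.castSucc i.succ (fun η => W (h, η)) false true
            - G2 r i.castSucc i.succ (fun η => W (h, η)) true false) := by
    intro i
    rw [← Ex_bulk r q i (fun η => W (h, η))]
    simp [actS, dL, actC]
  simp only [hb]
  have h0 : Ex r (fun η => W (actS none (h, η))) = Ex r fun η => W (h, η) := by
    simp [actS, dL, actC]
  rw [h0]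
  have e0 := Ex_split r 0 (fun η => W (h, η))
  have eL := Ex_split r (Fin.last n) (fun η => W (h, η))
  simp only [b2z, if_true, sub_self, add_zero, Bool.false_eq_true, if_false, zero_sub,
    Bool.not_true, Bool.not_false, D1, ← sub_eq_add_neg]
  linear_combination (-(α + γ)) * e0 - (β + δ) * eL

/-- On a flat bond the exchange term is a difference of one-site derivatives. -/
lemma G2_flat (r : Fin (n + 1) → ℝ) (i : Fin n) (g : Cfg n → ℝ) (h : r i.succ = r i.castSucc) :
    G2 r i.castSucc i.succ g false true - G2 r i.castSucc i.succ g true false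
      = D1 r i.succ g - D1 r i.castSucc g := by
  unfold D1
  rw [G1_split_left r (castSucc_ne_succ i) g true, G1_split_left r (castSucc_ne_succ i) g false,
    G1_split_right r i.castSucc i.succ g true, G1_split_right r i.castSucc i.succ g false, h]
  ring

lemma sum_telescope (F : Fin (n + 1) → ℝ) :
    ∑ i : Fin n, (F i.succ - F i.castSucc) = F (Fin.last n) - F 0 := by
  have h1 := Fin.sum_univ_succ F
  have h2 := Fin.sum_univ_castSucc F
  rw [Finset.sum_sub_distrib]; linarith

/-- The generator against a homogeneous product law. -/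
lemma Ex_genS_flat (x q α β γ δ ρ : ℝ) (W : St n → ℝ) (h : ℤ) :
    Ex (fun _ => ρ) (fun η => genS x q α β γ δ W (h, η)) =
      α * (1 - ρ) * (G1 (fun _ => ρ) 0 (fun η => W (h + 1, η)) true
          - G1 (fun _ => ρ) 0 (fun η => W (h, η)) false)
      + γ * ρ * (G1 (fun _ => ρ) 0 (fun η => W (h - 1, η)) false
          - G1 (fun _ => ρ) 0 (fun η => W (h, η)) true)
      - cur q ρ ρ * D1 (fun _ => ρ) 0 (fun η => W (h, η))
      + (cur q ρ ρ - (β * ρ - δ * (1 - ρ))) * D1 (fun _ => ρ) (Fin.last n) (fun η => W (h, η)) := by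
  rw [Ex_genS]
  simp only [G2_flat (fun _ => ρ) _ _ rfl]
  rw [← Finset.mul_sum, sum_telescope (fun i => D1 (fun _ => ρ) i (fun η => W (h, η)))]
  ring

lemma D1_nonpos {r : Fin (n + 1) → ℝ} (hr : ∀ i, 0 ≤ r i ∧ r i ≤ 1) {W : St n → ℝ}
    (hW : ∀ s s', hle s s' → W s ≤ W s') (h : ℤ) (i : Fin (n + 1)) :
    D1 r i (fun η => W (h, η)) ≤ 0 := by
  unfold D1 G1
  have := Ex_mono hr (f := fun η => W (h, update η i true)) (g := fun η => W (h, update η i false))
    (fun η => hW _ _ (hle_add h η i))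
  linarith

lemma G2_move {r : Fin (n + 1) → ℝ} (hr : ∀ i, 0 ≤ r i ∧ r i ≤ 1) {W : St n → ℝ}
    (hW : ∀ s s', hle s s' → W s ≤ W s') (h : ℤ) (i : Fin n) :
    0 ≤ G2 r i.castSucc i.succ (fun η => W (h, η)) false true
      - G2 r i.castSucc i.succ (fun η => W (h, η)) true false := by
  unfold G2
  have := Ex_mono hr (f := fun η => W (h, update (update η i.castSucc true) i.succ false))
    (g := fun η => W (h, update (update η i.castSucc false) i.succ true))
    (fun η => hW _ _ (hle_move h η i))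
  linarith

lemma G1_enter {r : Fin (n + 1) → ℝ} (hr : ∀ i, 0 ≤ r i ∧ r i ≤ 1) {W : St n → ℝ}
    (hW : ∀ s s', hle s s' → W s ≤ W s') (h : ℤ) :
    G1 r 0 (fun η => W (h, η)) false ≤ G1 r 0 (fun η => W (h + 1, η)) true := by
  unfold G1
  exact Ex_mono hr (fun η => hW _ _ (hle_enter h η))

/-- Total rate. -/
def tot (n : ℕ) (x q α β γ δ : ℝ) : ℝ := x + n * (1 + q) + (α + γ) + (β + δ)

/-- Probabilities of the moves. -/
noncomputable def wt (n : ℕ) (x q α β γ δ : ℝ) : Mv n → ℝ :=
  fun m => rate x q α β γ δ m / tot n x q α β γ δ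

lemma wt_nonneg {x q α β γ δ : ℝ} (hx : 0 ≤ x) (hq : 0 ≤ q) (hα : 0 ≤ α) (hβ : 0 ≤ β)
    (hγ : 0 ≤ γ) (hδ : 0 ≤ δ) (m : Mv n) : 0 ≤ wt n x q α β γ δ m :=
  div_nonneg (rate_nonneg hx hq hα hβ hγ hδ m) (by unfold tot; positivity)

lemma sum_wt {x q α β γ δ : ℝ} (h : tot n x q α β γ δ ≠ 0) : ∑ m, wt n x q α β γ δ m = 1 := by
  unfold wt
  rw [← Finset.sum_div, sum_rate]
  exact div_self h

lemma step_genS {x q α β γ δ : ℝ} (h : tot n x q α β γ δ ≠ 0) (W : St n → ℝ) (s : St n) :
    step (wt n x q α β γ δ) actS W s = W s + genS x q α β γ δ W s / tot n x q α β γ δ :=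
  step_eq_gen (rate x q α β γ δ) _ h (sum_rate x q α β γ δ) W s

/-- Shifting the counter commutes with the moves. -/
lemma iter_shift (w : Mv n → ℝ) (W : St n → ℝ) (c : ℤ) (k : ℕ) (s : St n) :
    iter w actS k (fun s => W (s.1 + c, s.2)) s = iter w actS k W (s.1 + c, s.2) :=
  iter_proj (act := actS) (act' := actS) (fun s : St n => ((s.1 + c, s.2) : St n))
    (fun m s => by simp only [actS, Prod.mk.injEq, and_true]; ring) W k s

end Pool.Agent.Lib.MP_2842de_pr
end

-- part Pool.Agent.Lib.MP_2842de_pr.Expo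
section

/-! Exponential moments of the flow through the left end. -/

namespace Pool.Agent.Lib.MP_2842de_pr

open Finset Function

variable {n : ℕ}

lemma expo_shift (w : Mv n → ℝ) (l : ℝ) (k : ℕ) (h c : ℤ) (η : Cfg n) :
    iter w actS k (fun s => Real.exp (l * (s.1 : ℝ))) (h + c, η)
      = Real.exp (l * (c : ℝ)) * iter w actS k (fun s => Real.exp (l * (s.1 : ℝ))) (h, η) := by
  have h1 := iter_shift w (fun s : St n => Real.exp (l * (s.1 : ℝ))) c k (h, η)
  simp only at h1
  rw [← h1, ← iter_mul]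
  congr 1
  funext s
  rw [← Real.exp_add]
  congr 1
  push_cast; ring

lemma expo_mono {w : Mv n → ℝ} (hw : ∀ m, 0 ≤ w m) {l : ℝ} (hl : 0 ≤ l) (k : ℕ) (s s' : St n)
    (h : hle s s') : iter w actS k (fun s => Real.exp (l * (s.1 : ℝ))) s
      ≤ iter w actS k (fun s => Real.exp (l * (s.1 : ℝ))) s' := by
  refine iter_rel hw hle actS_mono (fun s s' h => ?_) k s s' h
  have := h 0
  rw [ht_zero, ht_zero] at this
  have h2 : (s.1 : ℝ) ≤ s'.1 := by exact_mod_cast this
  exact Real.exp_le_exp.2 (mul_le_mul_of_nonneg_left h2 hl)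

lemma expo_anti {w : Mv n → ℝ} (hw : ∀ m, 0 ≤ w m) {l : ℝ} (hl : l ≤ 0) (k : ℕ) (s s' : St n)
    (h : hle s s') : iter w actS k (fun s => Real.exp (l * (s.1 : ℝ))) s'
      ≤ iter w actS k (fun s => Real.exp (l * (s.1 : ℝ))) s := by
  refine iter_rel hw (fun s s' => hle s' s) (fun m s s' h => actS_mono m s' s h)
    (fun s s' h => ?_) k s' s h
  have := h 0
  rw [ht_zero, ht_zero] at this
  have h2 : (s'.1 : ℝ) ≤ s.1 := by exact_mod_cast this
  exact Real.exp_le_exp.2 (mul_le_mul_of_nonpos_left h2 hl)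

lemma D1_neg (r : Fin (n + 1) → ℝ) (i : Fin (n + 1)) (g : Cfg n → ℝ) :
    D1 r i (fun η => (-1) * g η) = - D1 r i g := by
  unfold D1 G1
  rw [Ex_mul r (-1) (fun η => g (update η i true)), Ex_mul r (-1) (fun η => g (update η i false))]
  ring

/-- Exponential moment bound from a product start. -/
lemma expo_prod {x q a β γ δ r l : ℝ} (hx : 0 ≤ x) (hq : 0 ≤ q) (ha : 0 ≤ a) (hβ : 0 ≤ β)
    (hγ : 0 ≤ γ) (hδ : 0 ≤ δ) (ht : 0 < tot n x q a β γ δ) (hr0 : 0 ≤ r) (hr1 : r ≤ 1)
    (hL : a * (1 - r) - γ * r = cur q r r)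
    (hR : (0 ≤ l ∧ β * r - δ * (1 - r) ≤ cur q r r) ∨ (l ≤ 0 ∧ cur q r r ≤ β * r - δ * (1 - r)))
    (k : ℕ) :
    Ex (fun _ => r) (fun η : Cfg n =>
        iter (wt n x q a β γ δ) actS k (fun s => Real.exp (l * (s.1 : ℝ))) (0, η))
      ≤ Real.exp ((a * (1 - r) * (Real.exp l - 1) + γ * r * (Real.exp (-l) - 1)) * k
          / tot n x q a β γ δ) := by
  have hw := wt_nonneg (n := n) hx hq ha hβ hγ hδ
  have hr : ∀ _i : Fin (n + 1), 0 ≤ r ∧ r ≤ 1 := fun _ => ⟨hr0, hr1⟩
  induction k with
  | zero => simp [Ex_const]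
  | succ k ih =>
    set W := iter (wt n x q a β γ δ) actS k (fun s => Real.exp (l * (s.1 : ℝ))) with hW
    set e := a * (1 - r) * (Real.exp l - 1) + γ * r * (Real.exp (-l) - 1) with he
    have hpos : 0 ≤ Ex (fun _ => r) (fun η : Cfg n => W (0, η)) :=
      Ex_nonneg hr fun η => iter_nonneg hw (fun s => (Real.exp_pos _).le) k _
    have hup : ∀ b, G1 (fun _ => r) 0 (fun η : Cfg n => W (0 + 1, η)) b
        = Real.exp l * G1 (fun _ => r) 0 (fun η : Cfg n => W (0, η)) b := by
      intro b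
      unfold G1
      rw [← Ex_mul]
      congr 1; funext η
      beta_reduce
      rw [hW, expo_shift]; simp
    have hdn : ∀ b, G1 (fun _ => r) 0 (fun η : Cfg n => W (0 - 1, η)) b
        = Real.exp (-l) * G1 (fun _ => r) 0 (fun η : Cfg n => W (0, η)) b := by
      intro b
      unfold G1
      rw [← Ex_mul]
      congr 1; funext η
      beta_reduce
      rw [hW, sub_eq_add_neg, expo_shift]; simp
    have hgen : Ex (fun _ => r) (fun η : Cfg n => genS x q a β γ δ W (0, η))
        ≤ e * Ex (fun _ => r) (fun η : Cfg n => W (0, η)) := by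
      rw [Ex_genS_flat, hup, hdn]
      have e0 := Ex_split (fun _ => r) 0 (fun η : Cfg n => W (0, η))
      have key : (a * (1 - r) ^ 2 * (Real.exp l - 1) + γ * r ^ 2 * (1 - Real.exp (-l)))
            * D1 (fun _ => r) 0 (fun η : Cfg n => W (0, η))
          + (cur q r r - (β * r - δ * (1 - r)))
            * D1 (fun _ => r) (Fin.last n) (fun η : Cfg n => W (0, η)) ≤ 0 := by
        rcases hR with ⟨hl, hR⟩ | ⟨hl, hR⟩
        · have hm : ∀ s s', hle s s' → W s ≤ W s' := fun s s' h => expo_mono hw hl k s s' h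
          have d0 := D1_nonpos hr hm 0 0
          have dl := D1_nonpos hr hm 0 (Fin.last n)
          have e1 : 0 ≤ Real.exp l - 1 := by linarith [Real.add_one_le_exp l]
          have e2 : 0 ≤ 1 - Real.exp (-l) := by
            have := Real.exp_le_one_iff.2 (neg_nonpos.2 hl); linarith
          have c1 : 0 ≤ a * (1 - r) ^ 2 * (Real.exp l - 1) + γ * r ^ 2 * (1 - Real.exp (-l)) := by
            positivity
          have := mul_nonpos_of_nonneg_of_nonpos c1 d0
          have := mul_nonpos_of_nonneg_of_nonpos (sub_nonneg.2 hR) dl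
          linarith
        · have hm : ∀ s s', hle s s' → (-1) * W s ≤ (-1) * W s' := fun s s' h => by
            have := expo_anti hw hl k s s' h; linarith
          have d0 := D1_nonpos hr (W := fun s => (-1) * W s) hm 0 0
          have dl := D1_nonpos hr (W := fun s => (-1) * W s) hm 0 (Fin.last n)
          rw [D1_neg (fun _ => r) _ (fun η : Cfg n => W (0, η))] at d0 dl
          have e1 : 0 ≤ 1 - Real.exp l := by
            have := Real.exp_le_one_iff.2 hl; linarith
          have e2 : 0 ≤ Real.exp (-l) - 1 := by linarith [Real.add_one_le_exp (-l)]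
          have c1 : 0 ≤ a * (1 - r) ^ 2 * (1 - Real.exp l) + γ * r ^ 2 * (Real.exp (-l) - 1) := by
            positivity
          have := mul_nonpos_of_nonneg_of_nonpos c1 d0
          have := mul_nonpos_of_nonneg_of_nonpos (sub_nonneg.2 hR) dl
          linarith
      rw [e0, he, ← hL]
      rw [← hL] at key
      unfold D1 at key ⊢
      linarith
    have hstep : Ex (fun _ => r) (fun η : Cfg n =>
        iter (wt n x q a β γ δ) actS (k + 1) (fun s => Real.exp (l * (s.1 : ℝ))) (0, η))
        = Ex (fun _ => r) (fun η : Cfg n => W (0, η))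
          + Ex (fun _ => r) (fun η : Cfg n => genS x q a β γ δ W (0, η)) / tot n x q a β γ δ := by
      rw [← Ex_div, ← Ex_add]
      congr 1; funext η
      rw [iter_succ, step_genS ht.ne']
    rw [hstep]
    have h1 : Ex (fun _ => r) (fun η : Cfg n => genS x q a β γ δ W (0, η)) / tot n x q a β γ δ
        ≤ e / tot n x q a β γ δ * Ex (fun _ => r) (fun η : Cfg n => W (0, η)) := by
      rw [div_mul_eq_mul_div]
      exact div_le_div_of_nonneg_right hgen ht.le
    have h2 : 1 + e / tot n x q a β γ δ ≤ Real.exp (e / tot n x q a β γ δ) := by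
      linarith [Real.add_one_le_exp (e / tot n x q a β γ δ)]
    have h3 : e * ((k + 1 : ℕ) : ℝ) / tot n x q a β γ δ
        = e / tot n x q a β γ δ + e * k / tot n x q a β γ δ := by
      push_cast; ring
    rw [h3, Real.exp_add]
    calc _ ≤ (1 + e / tot n x q a β γ δ) * Ex (fun _ => r) (fun η : Cfg n => W (0, η)) := by
          linarith
      _ ≤ Real.exp (e / tot n x q a β γ δ) * Ex (fun _ => r) (fun η : Cfg n => W (0, η)) :=
          mul_le_mul_of_nonneg_right h2 hpos
      _ ≤ _ := mul_le_mul_of_nonneg_left ih (Real.exp_pos _).le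

/-- Exponential moment bound from an arbitrary start. -/
lemma expo_any {x q a β γ δ r l : ℝ} (hx : 0 ≤ x) (hq : 0 ≤ q) (ha : 0 ≤ a) (hβ : 0 ≤ β)
    (hγ : 0 ≤ γ) (hδ : 0 ≤ δ) (ht : 0 < tot n x q a β γ δ) (hr0 : 0 ≤ r) (hr1 : r ≤ 1)
    (hL : a * (1 - r) - γ * r = cur q r r) (hl1 : |l| ≤ 1)
    (hR : (0 ≤ l ∧ β * r - δ * (1 - r) ≤ cur q r r) ∨ (l ≤ 0 ∧ cur q r r ≤ β * r - δ * (1 - r)))
    (k : ℕ) (η₀ : Cfg n) :
    iter (wt n x q a β γ δ) actS k (fun s => Real.exp (l * (s.1 : ℝ))) (0, η₀)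
      ≤ Real.exp (|l| * (n + 1) + (cur q r r * l + (a + γ) * l ^ 2) * k / tot n x q a β γ δ) := by
  have hw := wt_nonneg (n := n) hx hq ha hβ hγ hδ
  have hr : ∀ _i : Fin (n + 1), 0 ≤ r ∧ r ≤ 1 := fun _ => ⟨hr0, hr1⟩
  have hP := expo_prod hx hq ha hβ hγ hδ ht hr0 hr1 hL hR k
  have h1 : ∀ η : Cfg n, iter (wt n x q a β γ δ) actS k (fun s => Real.exp (l * (s.1 : ℝ))) (0, η₀)
      ≤ Real.exp (|l| * (n + 1)) *
        iter (wt n x q a β γ δ) actS k (fun s => Real.exp (l * (s.1 : ℝ))) (0, η) := by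
    intro η
    rcases hR with ⟨hl, -⟩ | ⟨hl, -⟩
    · have := expo_mono hw hl k _ _ (hle_far 0 η₀ η)
      rw [expo_shift] at this
      rw [abs_of_nonneg hl]
      simpa using this
    · have h2 := hle_far (0 + (-((n + 1 : ℕ) : ℤ))) η η₀
      rw [show (0 + (-((n + 1 : ℕ) : ℤ)) + ((n + 1 : ℕ) : ℤ)) = 0 by ring] at h2
      have := expo_anti hw hl k _ _ h2
      rw [expo_shift] at this
      rw [abs_of_nonpos hl]
      have e : l * ((-((n + 1 : ℕ) : ℤ) : ℤ) : ℝ) = -l * (n + 1) := by push_cast; ring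
      rwa [e] at this
  have h2 := Ex_mono hr h1
  rw [Ex_const, Ex_mul] at h2
  refine h2.trans ?_
  rw [Real.exp_add]
  refine mul_le_mul_of_nonneg_left (hP.trans (Real.exp_le_exp.2 ?_)) (Real.exp_pos _).le
  refine div_le_div_of_nonneg_right (mul_le_mul_of_nonneg_right ?_ (Nat.cast_nonneg k)) ht.le
  have b1 : Real.exp l - 1 ≤ l + l ^ 2 := by
    have := (abs_le.1 (Real.abs_exp_sub_one_sub_id_le hl1)).2; linarith
  have b2 : Real.exp (-l) - 1 ≤ -l + l ^ 2 := by
    have := (abs_le.1 (Real.abs_exp_sub_one_sub_id_le (x := -l) (by rwa [abs_neg]))).2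
    rw [neg_sq] at this; linarith
  have c1 : 0 ≤ a * (1 - r) := mul_nonneg ha (by linarith)
  have c2 : 0 ≤ γ * r := mul_nonneg hγ hr0
  have d1 := mul_le_mul_of_nonneg_left b1 c1
  have d2 := mul_le_mul_of_nonneg_left b2 c2
  have d3 : a * (1 - r) * l ^ 2 ≤ a * l ^ 2 := by
    have : 0 ≤ a * r * l ^ 2 := by positivity
    nlinarith
  have d4 : γ * r * l ^ 2 ≤ γ * l ^ 2 := by
    have : 0 ≤ γ * (1 - r) * l ^ 2 := mul_nonneg (mul_nonneg hγ (by linarith)) (sq_nonneg l)
    nlinarith
  rw [← hL]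
  nlinarith

end Pool.Agent.Lib.MP_2842de_pr
end

-- part Pool.Agent.Lib.MP_2842de_pr.Semi
section

/-! The matrix semigroup as a Poisson mixture, contraction of oscillations and mixing times. -/

namespace Pool.Agent.Lib.MP_2842de_pr

open Finset Matrix

section Semi
variable {S : Type*} [Fintype S] [DecidableEq S]

/-- The semigroup generated by a matrix. -/
noncomputable def Pm (L : Matrix S S ℝ) (t : ℝ) : Matrix S S ℝ := NormedSpace.exp (t • L)

/-- Poisson weights. -/
noncomputable def poi (μ : ℝ) (k : ℕ) : ℝ := Real.exp (-μ) * μ ^ k / (k.factorial : ℝ)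

lemma hasSum_of_eq {f g : ℕ → ℝ} {a b : ℝ} (h : HasSum f a) (h1 : ∀ k, g k = f k) (h2 : b = a) :
    HasSum g b := by
  have : g = f := funext h1
  rw [this, h2]; exact h

set_option backward.isDefEq.respectTransparency false in
lemma hasSum_exp_mat (A : Matrix S S ℝ) :
    HasSum (fun k : ℕ => ((k.factorial : ℝ)⁻¹) • A ^ k) (NormedSpace.exp A) :=
  open scoped Matrix.Norms.Operator in NormedSpace.exp_series_hasSum_exp' (𝕂 := ℝ) A

lemma hasSum_real_exp (μ : ℝ) :
    HasSum (fun k : ℕ => μ ^ k / (k.factorial : ℝ)) (Real.exp μ) := by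
  rw [Real.exp_eq_exp_ℝ]
  exact NormedSpace.expSeries_div_hasSum_exp μ

lemma hasSum_exp_entry (A : Matrix S S ℝ) (x y : S) :
    HasSum (fun k : ℕ => ((k.factorial : ℝ)⁻¹) * (A ^ k) x y) (NormedSpace.exp A x y) := by
  have h := hasSum_exp_mat A
  have h1 := Pi.hasSum.1 h x
  exact Pi.hasSum.1 h1 y

lemma exp_smul_one (c : ℝ) :
    NormedSpace.exp (c • (1 : Matrix S S ℝ)) = Real.exp c • (1 : Matrix S S ℝ) := by
  ext x y
  have h1 := hasSum_exp_entry (c • (1 : Matrix S S ℝ)) x y
  have h2 := (hasSum_real_exp c).mul_right ((1 : Matrix S S ℝ) x y)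
  refine h1.unique (hasSum_of_eq h2 (fun k => ?_) rfl)
  rw [smul_pow, one_pow, Matrix.smul_apply, smul_eq_mul]; ring

lemma hasSum_Pm (L : Matrix S S ℝ) {Λ : ℝ} (hΛ : Λ ≠ 0) (t : ℝ) (x y : S) :
    HasSum (fun k : ℕ => poi (Λ * t) k * ((1 + Λ⁻¹ • L) ^ k) x y) (Pm L t x y) := by
  have h1 := (hasSum_exp_entry ((Λ * t) • (1 + Λ⁻¹ • L)) x y).mul_left (Real.exp (-(Λ * t)))
  have e : (Λ * t) • (1 + Λ⁻¹ • L) = (Λ * t) • (1 : Matrix S S ℝ) + t • L := by
    rw [smul_add, smul_smul]
    congr 2
    field_simp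
  have hc : Commute ((Λ * t) • (1 : Matrix S S ℝ)) (t • L) :=
    ((Commute.one_left L).smul_left _).smul_right _
  have e2 : NormedSpace.exp ((Λ * t) • (1 + Λ⁻¹ • L)) = Real.exp (Λ * t) • Pm L t := by
    rw [e, Matrix.exp_add_of_commute _ _ hc, exp_smul_one, smul_mul_assoc, one_mul]; rfl
  rw [e2] at h1
  refine hasSum_of_eq h1 (fun k => ?_) ?_
  · rw [smul_pow, Matrix.smul_apply, smul_eq_mul, poi]; ring
  · rw [Matrix.smul_apply, smul_eq_mul, ← mul_assoc, ← Real.exp_add]; simp

lemma Pm_add (L : Matrix S S ℝ) (s t : ℝ) : Pm L (s + t) = Pm L s * Pm L t := by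
  unfold Pm
  rw [add_smul, Matrix.exp_add_of_commute _ _ (((Commute.refl L).smul_left s).smul_right t)]

lemma hasSum_poi_mul (μ c : ℝ) :
    HasSum (fun k : ℕ => poi μ k * c ^ k) (Real.exp (-μ + μ * c)) := by
  have := (hasSum_real_exp (μ * c)).mul_left (Real.exp (-μ))
  rw [← Real.exp_add] at this
  refine hasSum_of_eq this (fun k => ?_) rfl
  rw [poi, mul_pow]; ring

lemma hasSum_poi (μ : ℝ) : HasSum (poi μ) 1 := by
  have := hasSum_poi_mul μ 1
  simpa using this

lemma poi_nonneg {μ : ℝ} (h : 0 ≤ μ) (k : ℕ) : 0 ≤ poi μ k := by unfold poi; positivity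

lemma hasSum_poi_mean (μ : ℝ) : HasSum (fun k : ℕ => poi μ k * k) μ := by
  rw [← hasSum_nat_add_iff' 1]
  have := (hasSum_poi μ).mul_left μ
  simp only [mul_one, Finset.range_one, Finset.sum_singleton, Nat.cast_zero, mul_zero,
    sub_zero] at this ⊢
  refine hasSum_of_eq this (fun k => ?_) rfl
  unfold poi
  rw [Nat.factorial_succ]
  push_cast
  have : (k.factorial : ℝ) ≠ 0 := by positivity
  field_simp
  ring

variable {M : Type*} [Fintype M]

lemma hasSum_iter {L : Matrix S S ℝ} {r : M → ℝ} {act : M → S → S} {Λ : ℝ} (hΛ : Λ ≠ 0)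
    (hr : ∑ m, r m = Λ) (hL : ∀ (f : S → ℝ) x, (L *ᵥ f) x = ∑ m, r m * (f (act m x) - f x))
    (t : ℝ) (f : S → ℝ) (x : S) :
    HasSum (fun k : ℕ => poi (Λ * t) k * iter (fun m => r m / Λ) act k f x) ((Pm L t *ᵥ f) x) := by
  have hK : ∀ g : S → ℝ, (1 + Λ⁻¹ • L) *ᵥ g = step (fun m => r m / Λ) act g := by
    intro g
    funext z
    rw [step_eq_gen r Λ hΛ hr, Matrix.add_mulVec, Matrix.one_mulVec, Matrix.smul_mulVec,
      Pi.add_apply, Pi.smul_apply, hL, smul_eq_mul]
    ring
  have hP : ∀ k : ℕ, ((1 + Λ⁻¹ • L) ^ k) *ᵥ f = iter (fun m => r m / Λ) act k f := by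
    intro k
    induction k with
    | zero => simp
    | succ k ih => rw [pow_succ', ← Matrix.mulVec_mulVec, ih, hK, iter_succ]
  have h := hasSum_sum (s := univ) (fun y _ => (hasSum_Pm L hΛ t x y).mul_right (f y))
  refine hasSum_of_eq h (fun k => ?_) rfl
  rw [← hP k]
  simp only [Matrix.mulVec, dotProduct, Finset.mul_sum]
  exact Finset.sum_congr rfl fun y _ => by ring

/-- The matrix contracts oscillations by the factor `c`. -/
def Contr (P : Matrix S S ℝ) (c : ℝ) : Prop :=
  ∀ (f : S → ℝ) (a b : ℝ), (∀ x, a ≤ f x ∧ f x ≤ b) → ∀ x y, (P *ᵥ f) x - (P *ᵥ f) y ≤ (b - a) * c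

omit [DecidableEq S] in
lemma Contr.mono {P : Matrix S S ℝ} {c c' : ℝ} (h : Contr P c) (hc : c ≤ c') : Contr P c' := by
  intro f a b hf x y
  refine (h f a b hf x y).trans (mul_le_mul_of_nonneg_left hc ?_)
  have := hf x; linarith

omit [DecidableEq S] in
lemma Contr.mul {P Q : Matrix S S ℝ} {c c' : ℝ} (h : Contr P c) (h' : Contr Q c') :
    Contr (P * Q) (c * c') := by
  intro f a b hf x y
  obtain ⟨z, -, hz⟩ := Finset.exists_min_image univ (Q *ᵥ f) ⟨x, Finset.mem_univ x⟩
  have := h (Q *ᵥ f) ((Q *ᵥ f) z) ((Q *ᵥ f) z + (b - a) * c')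
    (fun u => ⟨hz u (Finset.mem_univ u), by have := h' f a b hf u z; linarith⟩) x y
  rw [← Matrix.mulVec_mulVec]
  refine this.trans (le_of_eq (by ring))

lemma contr_iterate {L : Matrix S S ℝ} {t c : ℝ} (h0 : Contr (Pm L 0) 1) (h : Contr (Pm L t) c)
    (j : ℕ) : Contr (Pm L (j * t)) (c ^ j) := by
  induction j with
  | zero => simpa using h0
  | succ j ih =>
    have : ((j + 1 : ℕ) : ℝ) * t = j * t + t := by push_cast; ring
    rw [this, Pm_add, pow_succ]
    exact ih.mul h

omit [DecidableEq S] in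
lemma tv_le_of_contr {P : Matrix S S ℝ} {c : ℝ} (h : Contr P c) {π : S → ℝ} (h0 : ∀ x, 0 ≤ π x)
    (h1 : ∑ x, π x = 1) (hrow : ∀ x, ∑ y, P x y = 1)
    (hst : ∀ f : S → ℝ, ∑ x, π x * (P *ᵥ f) x = ∑ x, π x * f x) (x : S) :
    (∑ y, |P x y - π y|) / 2 ≤ c := by
  classical
  let f : S → ℝ := fun y => if π y ≤ P x y then 1 else 0
  have hf : ∀ y, (0 : ℝ) ≤ f y ∧ f y ≤ 1 := fun y => by
    simp only [f]; split_ifs <;> simp
  have e1 : ∑ y, |P x y - π y| = 2 * ((P *ᵥ f) x - ∑ y, π y * f y) - (∑ y, P x y - ∑ y, π y) := by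
    simp only [Matrix.mulVec, dotProduct, ← Finset.sum_sub_distrib, Finset.mul_sum]
    refine Finset.sum_congr rfl fun y _ => ?_
    simp only [f]
    split_ifs with hy
    · rw [abs_of_nonneg (by linarith)]; ring
    · rw [abs_of_neg (by linarith)]; ring
  have e2 : (P *ᵥ f) x - ∑ y, π y * f y = ∑ z, π z * ((P *ᵥ f) x - (P *ᵥ f) z) := by
    simp only [mul_sub, Finset.sum_sub_distrib, ← Finset.sum_mul, h1, hst, one_mul]
  have e3 : ∑ z, π z * ((P *ᵥ f) x - (P *ᵥ f) z) ≤ ∑ z, π z * c :=
    Finset.sum_le_sum fun z _ => mul_le_mul_of_nonneg_left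
      (by have := h f 0 1 hf x z; linarith) (h0 z)
  rw [← Finset.sum_mul, h1] at e3
  rw [e1, e2, hrow, h1]
  linarith

omit [DecidableEq S] in
lemma contr_of_tv {P : Matrix S S ℝ} {ε : ℝ} {π : S → ℝ} (hrow : ∀ x, ∑ y, P x y = 1)
    (h : ∀ x, (∑ y, |P x y - π y|) / 2 ≤ ε) : Contr P (2 * ε) := by
  intro f a b hf x y
  have hab : 0 ≤ b - a := by have := hf x; linarith
  have e1 : (P *ᵥ f) x - (P *ᵥ f) y = ∑ z, (P x z - P y z) * (f z - (a + b) / 2) := by
    simp only [Matrix.mulVec, dotProduct, mul_sub, sub_mul, Finset.sum_sub_distrib,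
      ← Finset.sum_mul, hrow]
    ring
  have e2 : ∑ z, (P x z - P y z) * (f z - (a + b) / 2)
      ≤ ∑ z, (|P x z - π z| + |P y z - π z|) * ((b - a) / 2) := by
    refine Finset.sum_le_sum fun z _ => (le_abs_self _).trans ?_
    rw [abs_mul]
    refine mul_le_mul ?_ ?_ (abs_nonneg _) (by positivity)
    · have := abs_sub_le (P x z) (π z) (P y z)
      rwa [abs_sub_comm (π z)] at this
    · have := hf z
      rw [abs_le]; constructor <;> linarith
  rw [← Finset.sum_mul, Finset.sum_add_distrib] at e2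
  have e3 := h x
  have e4 := h y
  rw [e1]
  refine e2.trans ?_
  nlinarith

end Semi

/-- Diffusive mixing time and absence of cutoff from two-sided contraction estimates. -/
theorem mixing_of_contr {S : ℕ → Type} [∀ N, Fintype (S N)] [∀ N, DecidableEq (S N)]
    (L : (N : ℕ) → Matrix (S N) (S N) ℝ) (π : (N : ℕ) → S N → ℝ) (tmix : ℕ → ℝ → ℝ)
    (h0 : ∀ N x, 0 ≤ π N x) (h1 : ∀ N, ∑ x, π N x = 1)
    (htm : ∀ N ε, tmix N ε =
      sInf {t : ℝ | 0 ≤ t ∧ ∀ x : S N, (∑ y, |Pm (L N) t x y - π N y|) / 2 ≤ ε})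
    (hbase : ∀ᶠ N in Filter.atTop, ∀ t : ℝ, 0 ≤ t → Contr (Pm (L N) t) 1 ∧
      (∀ x, ∑ y, Pm (L N) t x y = 1) ∧
      ∀ f : S N → ℝ, ∑ x, π N x * (Pm (L N) t *ᵥ f) x = ∑ x, π N x * f x)
    (hU : ∀ τ : ℝ, 0 < τ → ∃ ε : ℝ, 0 < ε ∧ ∀ᶠ N : ℕ in Filter.atTop,
      Contr (Pm (L N) (τ * (N : ℝ) ^ 2)) (1 - ε))
    (hLw : ∃ τ ε : ℝ, 0 < τ ∧ 0 < ε ∧ ∀ᶠ N : ℕ in Filter.atTop,
      ∀ c, Contr (Pm (L N) (τ * (N : ℝ) ^ 2)) c → ε ≤ c) :
    (∃ c C : ℝ, 0 < c ∧ 0 < C ∧ ∀ᶠ N : ℕ in Filter.atTop,
      c * (N : ℝ) ^ 2 ≤ tmix N (1 / 4) ∧ tmix N (1 / 4) ≤ C * (N : ℝ) ^ 2) ∧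
    ¬ (∀ ε : ℝ, 0 < ε → ε < 1 →
      Filter.Tendsto (fun N : ℕ => tmix N ε / tmix N (1 - ε)) Filter.atTop (nhds 1)) := by
  obtain ⟨τ₀, ε₀, hτ₀, hε₀, hL⟩ := hLw
  obtain ⟨ε₁, hε₁, hU1⟩ := hU 1 one_pos
  obtain ⟨j, hj⟩ := exists_pow_lt_of_lt_one hε₀ (show (1 / 2 : ℝ) < 1 by norm_num)
  have hj' : (1 / 2 : ℝ) ^ (j + 1) < ε₀ := by
    rw [pow_succ]; have : 0 < (1 / 2 : ℝ) ^ j := by positivity
    linarith
  set c : ℝ := τ₀ / (j + 1 : ℕ) with hc
  have hc0 : 0 < c := by positivity
  have hm0 : 0 ≤ 1 - min ε₁ (1 / 2) := by have := min_le_right ε₁ (1 / 2); linarith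
  have hm1 : 1 - min ε₁ (1 / 2) < 1 := by
    have : 0 < min ε₁ (1 / 2) := lt_min hε₁ (by norm_num)
    linarith
  have hmem : ∀ᶠ N : ℕ in Filter.atTop, ∀ t ε : ℝ, 0 ≤ t → Contr (Pm (L N) t) ε →
      t ∈ {t : ℝ | 0 ≤ t ∧ ∀ x : S N, (∑ y, |Pm (L N) t x y - π N y|) / 2 ≤ ε} := by
    filter_upwards [hbase] with N hb t ε ht h
    exact ⟨ht, tv_le_of_contr h (h0 N) (h1 N) (hb t ht).2.1 (hb t ht).2.2⟩
  have hup : ∀ᶠ N : ℕ in Filter.atTop, ∀ t ε : ℝ, 0 ≤ t → Contr (Pm (L N) t) ε →
      tmix N ε ≤ t := by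
    filter_upwards [hmem] with N hb t ε ht h
    rw [htm]
    exact csInf_le ⟨0, fun u hu => hu.1⟩ (hb t ε ht h)
  have hgeo : ∀ ε : ℝ, 0 < ε → ∃ i : ℕ, ∀ᶠ N : ℕ in Filter.atTop,
      Contr (Pm (L N) (i * (1 * (N : ℝ) ^ 2))) ε := by
    intro ε hε
    obtain ⟨i, hi⟩ := exists_pow_lt_of_lt_one hε hm1
    refine ⟨i, ?_⟩
    filter_upwards [hbase, hU1] with N hb hu
    have := contr_iterate (hb 0 le_rfl).1
      (hu.mono (show 1 - ε₁ ≤ 1 - min ε₁ (1 / 2) by have := min_le_left ε₁ (1 / 2); linarith)) i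
    exact this.mono hi.le
  have hlow : ∀ ε : ℝ, 0 < ε → ε ≤ 1 / 4 → ∀ᶠ N : ℕ in Filter.atTop,
      c * (N : ℝ) ^ 2 ≤ tmix N ε := by
    intro ε hε hε4
    obtain ⟨i, hi⟩ := hgeo ε hε
    filter_upwards [hi, hmem, hbase, hL] with N hi hm hb hl
    rw [htm]
    refine le_csInf ⟨_, hm _ _ (by positivity) hi⟩ ?_
    rintro t ⟨ht, htv⟩
    by_contra hlt
    push Not at hlt
    have a1 : Contr (Pm (L N) t) (1 / 2) :=
      (contr_of_tv (hb t ht).2.1 htv).mono (by linarith)
    have a2 := contr_iterate (hb 0 le_rfl).1 a1 (j + 1)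
    have a3 : 0 ≤ τ₀ * (N : ℝ) ^ 2 - ((j + 1 : ℕ) : ℝ) * t := by
      have b0 : (0 : ℝ) < (j + 1 : ℕ) := by positivity
      have b1 : τ₀ * (N : ℝ) ^ 2 = ((j + 1 : ℕ) : ℝ) * (c * (N : ℝ) ^ 2) := by
        rw [hc]; field_simp
      rw [b1]
      have := mul_le_mul_of_nonneg_left hlt.le b0.le
      linarith
    have a4 := a2.mul (hb _ a3).1
    rw [← Pm_add, add_sub_cancel, mul_one] at a4
    have := hl _ a4
    linarith
  constructor
  · obtain ⟨i, hi⟩ := hgeo (1 / 4) (by norm_num)
    refine ⟨c, i + 1, hc0, by positivity, ?_⟩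
    filter_upwards [hlow (1 / 4) (by norm_num) le_rfl, hi, hup] with N a1 a2 a3
    refine ⟨a1, (a3 _ _ (by positivity) a2).trans ?_⟩
    have : 0 ≤ (N : ℝ) ^ 2 := by positivity
    nlinarith
  · intro hcut
    obtain ⟨ε₂, hε₂, hU2⟩ := hU (c / 4) (by positivity)
    set ε := min ε₂ (1 / 4) with hε
    have e0 : 0 < ε := lt_min hε₂ (by norm_num)
    have e1 : ε ≤ 1 / 4 := min_le_right _ _
    have e2 : ε ≤ ε₂ := min_le_left _ _
    have ht := hcut ε e0 (by linarith)
    have hev := (ht.eventually (Ioo_mem_nhds (show (1 / 2 : ℝ) < 1 by norm_num)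
      (show (1 : ℝ) < 2 by norm_num)))
    have : ∀ᶠ N : ℕ in Filter.atTop, False := by
      filter_upwards [hev, hlow ε e0 e1, hU2, hup, Filter.eventually_ge_atTop 1]
        with N a1 a2 a3 a4 a5
      have b1 := a4 _ (1 - ε) (by positivity) (a3.mono (by linarith))
      have b2 : (0 : ℝ) < (N : ℝ) ^ 2 := by
        have : (1 : ℝ) ≤ N := by exact_mod_cast a5
        positivity
      have b3 : 0 < c * (N : ℝ) ^ 2 := by positivity
      obtain ⟨a6, a7⟩ := a1
      rcases le_or_gt (tmix N (1 - ε)) 0 with g | g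
      · have : tmix N ε / tmix N (1 - ε) ≤ 0 := div_nonpos_of_nonneg_of_nonpos (by linarith) g
        linarith
      · rw [div_lt_iff₀ g] at a7
        linarith
    exact (Filter.eventually_false_iff_eq_bot.1 this ▸ Filter.atTop_neBot (α := ℕ)).ne rfl

end Pool.Agent.Lib.MP_2842de_pr
end
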