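import Mathlib
import Pool.Agent.Lib.MP_2842de_pr.Semi

-- part Pool.Agent.Lib.MP_2842de_pr.Block
section

/-! Domination of the middle configuration by a blocking product law. -/

namespace Pool.Agent.Lib.MP_2842de_pr

open Finset Function

variable {n : ℕ}

/-- Density profile of the blocking law. -/
noncomputable def pb (q : ℝ) (m : ℤ) : ℝ :=
  if 0 ≤ m then 1 / (1 + q ^ m.toNat) else q ^ (-m).toNat / (1 + q ^ (-m).toNat)

lemma pb_nonneg {q : ℝ} (hq : 0 ≤ q) (m : ℤ) : 0 ≤ pb q m := by
  unfold pb; split_ifs <;> positivity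

lemma pb_le_one {q : ℝ} (hq : 0 ≤ q) (m : ℤ) : pb q m ≤ 1 := by
  unfold pb
  split_ifs
  · rw [div_le_one (by positivity)]; have : 0 ≤ q ^ m.toNat := by positivity
    linarith
  · rw [div_le_one (by positivity)]; linarith

lemma cur_pb {q : ℝ} (hq : 0 ≤ q) (m : ℤ) : cur q (pb q m) (pb q (m + 1)) = 0 := by
  unfold pb cur
  by_cases h : 0 ≤ m
  · have h1 : 0 ≤ m + 1 := by omega
    have h2 : (m + 1).toNat = m.toNat + 1 := by omega
    simp only [h, h1, if_true, h2, pow_succ]
    have : 0 < 1 + q ^ m.toNat := by positivity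
    have : 0 < 1 + q ^ m.toNat * q := by positivity
    field_simp; ring
  · by_cases h1 : 0 ≤ m + 1
    · have h2 : (m + 1).toNat = 0 := by omega
      have h3 : (-m).toNat = 1 := by omega
      simp only [h, h1, if_true, if_false, h2, h3, pow_zero, pow_one]
      have : 0 < 1 + q := by positivity
      field_simp; ring
    · have h2 : (-m).toNat = (-(m + 1)).toNat + 1 := by omega
      simp only [h, h1, if_false, h2, pow_succ]
      have : 0 < 1 + q ^ (-(m + 1)).toNat := by positivity
      have : 0 < 1 + q ^ (-(m + 1)).toNat * q := by positivity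
      field_simp; ring

lemma pb_le_pow {q : ℝ} (hq : 0 ≤ q) (hq1 : q ≤ 1) {m : ℤ} {j : ℕ} (hj : 0 < j)
    (h : m ≤ -(j : ℤ)) : pb q m ≤ q ^ j := by
  unfold pb
  have h0 : ¬ 0 ≤ m := by omega
  simp only [h0, if_false]
  have h1 : q ^ (-m).toNat ≤ q ^ j := pow_le_pow_of_le_one hq hq1 (by omega)
  have h2 : 0 ≤ q ^ (-m).toNat := by positivity
  rw [div_le_iff₀ (by positivity)]
  have h3 : 0 ≤ q ^ j * q ^ (-m).toNat := by positivity
  nlinarith

lemma one_sub_pb_le_pow {q : ℝ} (hq : 0 ≤ q) (hq1 : q ≤ 1) {m : ℤ} {j : ℕ}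
    (h : (j : ℤ) ≤ m) : 1 - pb q m ≤ q ^ j := by
  unfold pb
  have h0 : 0 ≤ m := by omega
  simp only [h0, if_true]
  have h1 : q ^ m.toNat ≤ q ^ j := pow_le_pow_of_le_one hq hq1 (by omega)
  have h2 : 0 ≤ q ^ m.toNat := by positivity
  have h3 : 1 - q ^ m.toNat ≤ 1 / (1 + q ^ m.toNat) := by
    rw [le_div_iff₀ (by positivity)]; nlinarith
  linarith

/-- Action on the upper system: the idle move fills the first site. -/
def actZ : Mv n → St n → St n
  | none, s => actS (some (Sum.inr false, true)) s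
  | some m, s => actS (some m) s

/-- Action on the pair of lower and upper systems. -/
def actB (m : Mv n) (b : St n × St n) : St n × St n := (actS m b.1, actZ m b.2)

/-- Action on pairs of configurations. -/
def actP (m : Mv n) (p : Cfg n × Cfg n) : Cfg n × Cfg n := (actC m p.1, actC m p.2)

/-- Density of one site given the lower and upper occupation and the index. -/
noncomputable def site (q : ℝ) (a z : Bool) (m : ℤ) : ℝ := if a then 1 else if z then pb q m else 0

/-- The conditional density profile of the middle system. -/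
noncomputable def prob (q : ℝ) (K : ℤ) (b : St n × St n) (i : Fin (n + 1)) : ℝ :=
  site q (b.1.2 i) (b.2.2 i) (K + ht b.1 (i.val + 1) - ht b.2 (i.val + 1))

lemma prob_mem {q : ℝ} (hq : 0 ≤ q) (K : ℤ) (b : St n × St n) (i : Fin (n + 1)) :
    0 ≤ prob q K b i ∧ prob q K b i ≤ 1 := by
  unfold prob site
  split_ifs
  · simp
  · exact ⟨pb_nonneg hq _, pb_le_one hq _⟩
  · simp

lemma actB_valid (m : Mv n) (b : St n × St n) (h : b.1.2 ≤ b.2.2) :
    (actB m b).1.2 ≤ (actB m b).2.2 := by
  rcases m with _ | m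
  · intro j
    change b.1.2 j ≤ update b.2.2 0 true j
    by_cases hj : j = 0
    · subst hj; simp
    · simp only [ne_eq, hj, not_false_eq_true, update_of_ne]; exact h j
  · exact actC_mono (some m) h

lemma Ex_bulk_eq {r r' : Fin (n + 1) → ℝ} (i : Fin n) (u : Bool) (g : Cfg n → ℝ)
    (hoff : ∀ k, k ≠ i.castSucc → k ≠ i.succ → r' k = r k)
    (h1 : r' i.castSucc * r' i.succ = r i.castSucc * r i.succ)
    (h2 : (1 - r' i.castSucc) * (1 - r' i.succ) = (1 - r i.castSucc) * (1 - r i.succ))
    (h3 : (if u then r' i.castSucc * (1 - r' i.succ) else (1 - r' i.castSucc) * r' i.succ) = 0) :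
    Ex r (fun η => g (bulk i u η)) = Ex r' g := by
  rw [Ex_split2 r i.castSucc i.succ (fun η => g (bulk i u η)), Ex_split2 r' i.castSucc i.succ g]
  simp only [G2_bulk, G2_congr (castSucc_ne_succ i) hoff]
  cases u
  · simp only [Bool.false_eq_true, if_false, Bool.or_self, Bool.and_self, Bool.or_false,
      Bool.and_false, Bool.or_true, Bool.and_true] at h3 ⊢
    linear_combination (-(G2 r i.castSucc i.succ g true true)
      + G2 r i.castSucc i.succ g true false) * h1
      + (-(G2 r i.castSucc i.succ g false false) + G2 r i.castSucc i.succ g true false) * h2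
      + (-(G2 r i.castSucc i.succ g false true) + G2 r i.castSucc i.succ g true false) * h3
  · simp only [if_true, Bool.or_self, Bool.and_self, Bool.or_false,
      Bool.and_false, Bool.or_true, Bool.and_true] at h3 ⊢
    linear_combination (-(G2 r i.castSucc i.succ g true true)
      + G2 r i.castSucc i.succ g false true) * h1
      + (-(G2 r i.castSucc i.succ g false false) + G2 r i.castSucc i.succ g false true) * h2
      + (-(G2 r i.castSucc i.succ g true false) + G2 r i.castSucc i.succ g false true) * h3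

lemma prob_bulk_off (q : ℝ) (K : ℤ) (b : St n × St n) (i : Fin n) (u : Bool) (k : Fin (n + 1))
    (h1 : k ≠ i.castSucc) (h2 : k ≠ i.succ) :
    prob q K (actB (some (Sum.inl i, u)) b) k = prob q K b k := by
  have hk : k.val + 1 ≠ i.val + 1 := fun e => h1 (Fin.ext (by simpa using e))
  unfold prob actB
  simp only [actZ, ht_bulk, hk, if_false]
  simp only [actS, actC, bulk_other i u _ h1 h2]

lemma prob_cs (q : ℝ) (K : ℤ) (b : St n × St n) (i : Fin n) :
    prob q K b i.castSucc = site q (b.1.2 i.castSucc) (b.2.2 i.castSucc)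
      (K + ht b.1 i.val - ht b.2 i.val - b2z (b.1.2 i.castSucc) + b2z (b.2.2 i.castSucc)) := by
  unfold prob
  rw [ht_succ, ht_succ]
  congr 1
  simp only [Fin.val_castSucc]; ring

lemma prob_sc (q : ℝ) (K : ℤ) (b : St n × St n) (i : Fin n) :
    prob q K b i.succ = site q (b.1.2 i.succ) (b.2.2 i.succ)
      (K + ht b.1 i.val - ht b.2 i.val - b2z (b.1.2 i.castSucc) + b2z (b.2.2 i.castSucc)
        - b2z (b.1.2 i.succ) + b2z (b.2.2 i.succ)) := by
  unfold prob
  have a1 := ht_succ b.1 i.castSucc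
  have a2 := ht_succ b.2 i.castSucc
  simp only [Fin.val_castSucc] at a1 a2
  rw [ht_succ, ht_succ]
  congr 1
  simp only [Fin.val_succ, a1, a2]; ring

lemma ht_bulk_same (i : Fin n) (u : Bool) (s : St n) :
    ht (actS (some (Sum.inl i, u)) s) i.val = ht s i.val := by
  rw [ht_bulk]; simp

lemma ble : ∀ {a b : Bool}, a ≤ b → a = true → b = true := by decide

lemma block_bulk {q : ℝ} (hq : 0 ≤ q) (K : ℤ) (b : St n × St n) (hb : b.1.2 ≤ b.2.2) (i : Fin n)
    (f : Cfg n × Cfg n → ℝ) :
    Ex (prob q K b) (fun η => f (bulk i true b.1.2, bulk i true η))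
      + q * Ex (prob q K b) (fun η => f (bulk i false b.1.2, bulk i false η))
    = Ex (prob q K (actB (some (Sum.inl i, true)) b)) (fun η => f (bulk i true b.1.2, η))
      + q * Ex (prob q K (actB (some (Sum.inl i, false)) b))
          (fun η => f (bulk i false b.1.2, η)) := by
  have p0 := prob_cs q K b i
  have p1 := prob_sc q K b i
  have r0 := fun u => prob_cs q K (actB (some (Sum.inl i, u)) b) i
  have r1 := fun u => prob_sc q K (actB (some (Sum.inl i, u)) b) i
  simp only [actB, actZ, ht_bulk_same] at r0 r1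
  simp only [actS, actC, bulk_castSucc, bulk_succ] at r0 r1
  have hb0 := ble (hb i.castSucc)
  have hb1 := ble (hb i.succ)
  set d := K + ht b.1 i.val - ht b.2 i.val with hd
  by_cases hdd : b.1.2 i.castSucc = false ∧ b.1.2 i.succ = false ∧ b.2.2 i.castSucc = true ∧
      b.2.2 i.succ = true
  · obtain ⟨h1, h2, h3, h4⟩ := hdd
    have ha : ∀ u, bulk i u b.1.2 = b.1.2 := by
      intro u; funext j
      by_cases j2 : j = i.succ
      · subst j2; rw [bulk_succ, h1, h2]; cases u <;> rfl
      · by_cases j1 : j = i.castSucc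
        · subst j1; rw [bulk_castSucc, h1, h2]; cases u <;> rfl
        · exact bulk_other i u _ j1 j2
    have hp : ∀ u, prob q K (actB (some (Sum.inl i, u)) b) = prob q K b := by
      intro u; funext j
      by_cases j2 : j = i.succ
      · subst j2
        have := r1 u
        simp only [actB, actZ, actS, actC]
        rw [this, p1, h1, h2, h3, h4]; cases u <;> rfl
      · by_cases j1 : j = i.castSucc
        · subst j1
          have := r0 u
          simp only [actB, actZ, actS, actC]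
          rw [this, p0, h1, h2, h3, h4]; cases u <;> rfl
        · exact prob_bulk_off q K b i u j j1 j2
    rw [hp, hp, ha, ha]
    have key := Ex_bulk (prob q K b) q i (fun η => f (b.1.2, η))
    have hc : cur q (prob q K b i.castSucc) (prob q K b i.succ) = 0 := by
      rw [p0, p1, h1, h2, h3, h4]
      have := cur_pb hq (d + 1)
      simpa [site, b2z] using this
    rw [hc] at key
    linarith
  · have hu : ∀ u, Ex (prob q K b) (fun η => f (bulk i u b.1.2, bulk i u η))
        = Ex (prob q K (actB (some (Sum.inl i, u)) b)) (fun η => f (bulk i u b.1.2, η)) := by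
      intro u
      have s0 := r0 u
      have s1 := r1 u
      apply Ex_bulk_eq i u (fun η => f (bulk i u b.1.2, η)) (prob_bulk_off q K b i u)
      all_goals
        simp only [actB, actZ, actS, actC]
        rw [s0, s1]
        try rw [p0, p1]
        revert hdd hb0 hb1
        generalize b.1.2 i.castSucc = a0
        generalize b.1.2 i.succ = a1
        generalize b.2.2 i.castSucc = z0
        generalize b.2.2 i.succ = z1
        intro hdd hb0 hb1
        cases u <;> cases a0 <;> cases a1 <;> cases z0 <;> cases z1 <;>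
          simp [site, b2z] at hdd hb0 hb1 ⊢
    rw [hu, hu]

lemma D1_nonneg {r : Fin (n + 1) → ℝ} (hr : ∀ i, 0 ≤ r i ∧ r i ≤ 1) {g : Cfg n → ℝ}
    (hg : ∀ η η', η ≤ η' → g η ≤ g η') (i : Fin (n + 1)) : 0 ≤ D1 r i g := by
  unfold D1 G1
  have := Ex_mono hr (f := fun η => g (update η i false)) (g := fun η => g (update η i true))
    (fun η => hg _ _ (update_le_update_iff.2 ⟨by simp, fun _ _ => le_rfl⟩))
  linarith

lemma Ex_set (r r' : Fin (n + 1) → ℝ) (i : Fin (n + 1)) (u : Bool) (g : Cfg n → ℝ)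
    (hoff : ∀ k, k ≠ i → r' k = r k) (h : r' i = if u then 1 else 0) :
    Ex r (fun η => g (update η i u)) = Ex r' g := by
  rw [Ex_split r' i, G1_congr hoff, G1_congr hoff, h]
  cases u <;> simp [G1]

lemma block_none {q : ℝ} (hq : 0 ≤ q) (K : ℤ) (b : St n × St n) (g : Cfg n → ℝ)
    (hg : ∀ η η', η ≤ η' → g η ≤ g η') :
    Ex (prob q K b) g ≤ Ex (prob q K (actB none b)) g := by
  have hoff : prob q K (actB none b) = update (prob q K b) 0 (prob q K (actB none b) 0) := by
    funext k
    by_cases hk : k = 0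
    · subst hk; simp
    · rw [update_of_ne hk]
      unfold prob actB
      simp only [actZ, ht_left, Nat.add_one_ne_zero, if_false]
      simp [actS, actC, dL, hk]
  have h0 : prob q K b 0 ≤ prob q K (actB none b) 0 := by
    unfold prob actB
    simp only [actZ, ht_left, Nat.add_one_ne_zero, if_false]
    simp only [actS, actC, dL, update_self, add_zero, site]
    split_ifs
    · exact le_rfl
    · exact le_rfl
    · exact pb_nonneg hq _
  rw [hoff, Ex_update]
  have := mul_nonneg (sub_nonneg.2 h0) (D1_nonneg (prob_mem hq K b) hg 0)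
  linarith

lemma block_left (q : ℝ) (K : ℤ) (b : St n × St n) (u : Bool) (g : Cfg n → ℝ) :
    Ex (prob q K b) (fun η => g (update η 0 u))
      = Ex (prob q K (actB (some (Sum.inr false, u)) b)) g := by
  apply Ex_set
  · intro k hk
    unfold prob actB
    simp only [actZ, ht_left, Nat.add_one_ne_zero, if_false]
    simp [actS, actC, hk]
  · unfold prob actB
    cases u <;> simp [actZ, actS, actC, site]

lemma block_right (q : ℝ) (K : ℤ) (b : St n × St n) (u : Bool) (g : Cfg n → ℝ) :
    Ex (prob q K b) (fun η => g (update η (Fin.last n) (!u)))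
      = Ex (prob q K (actB (some (Sum.inr true, u)) b)) g := by
  apply Ex_set
  · intro k hk
    have hk' : ¬ n < k.val + 1 := by
      have h1 : k.val ≠ n := fun e => hk (Fin.ext (by simpa using e))
      have := k.isLt
      omega
    unfold prob actB
    simp only [actZ, ht_right, hk', if_false]
    simp [actS, actC, hk]
  · unfold prob actB
    cases u <;> simp [actZ, actS, actC, site]

/-- Average of a pair function over the middle system. -/
noncomputable def Phi (q : ℝ) (K : ℤ) (f : Cfg n × Cfg n → ℝ) (b : St n × St n) : ℝ :=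
  Ex (prob q K b) (fun η => f (b.1.2, η))

lemma Phi_step {x q α β γ δ : ℝ} (hx : 0 ≤ x) (hq : 0 ≤ q) (ht : 0 < tot n x q α β γ δ) (K : ℤ)
    (f : Cfg n × Cfg n → ℝ) (hf : ∀ a η η', η ≤ η' → f (a, η) ≤ f (a, η'))
    (b : St n × St n) (hb : b.1.2 ≤ b.2.2) :
    Phi q K (step (wt n x q α β γ δ) actP f) b ≤ step (wt n x q α β γ δ) actB (Phi q K f) b := by
  unfold Phi step
  rw [Ex_sum]
  simp only [Ex_mul]
  rw [sum_Mv, sum_Mv]
  have h0 : wt n x q α β γ δ none * Ex (prob q K b) (fun η => f (actP none (b.1.2, η)))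
      ≤ wt n x q α β γ δ none *
        Ex (prob q K (actB none b)) (fun η => f ((actB none b).1.2, η)) := by
    refine mul_le_mul_of_nonneg_left ?_ (div_nonneg hx ht.le)
    exact block_none hq K b (fun η => f (b.1.2, η)) (hf _)
  have hL : ∀ u, Ex (prob q K b) (fun η => f (actP (some (Sum.inr false, u)) (b.1.2, η)))
      = Ex (prob q K (actB (some (Sum.inr false, u)) b))
          (fun η => f ((actB (some (Sum.inr false, u)) b).1.2, η)) :=
    fun u => block_left q K b u (fun η => f (update b.1.2 0 u, η))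
  have hR : ∀ u, Ex (prob q K b) (fun η => f (actP (some (Sum.inr true, u)) (b.1.2, η)))
      = Ex (prob q K (actB (some (Sum.inr true, u)) b))
          (fun η => f ((actB (some (Sum.inr true, u)) b).1.2, η)) :=
    fun u => block_right q K b u (fun η => f (update b.1.2 (Fin.last n) (!u), η))
  have hB : ∀ i : Fin n,
      wt n x q α β γ δ (some (Sum.inl i, true)) *
          Ex (prob q K b) (fun η => f (actP (some (Sum.inl i, true)) (b.1.2, η)))
        + wt n x q α β γ δ (some (Sum.inl i, false)) *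
          Ex (prob q K b) (fun η => f (actP (some (Sum.inl i, false)) (b.1.2, η)))
      = wt n x q α β γ δ (some (Sum.inl i, true)) *
          Ex (prob q K (actB (some (Sum.inl i, true)) b))
            (fun η => f ((actB (some (Sum.inl i, true)) b).1.2, η))
        + wt n x q α β γ δ (some (Sum.inl i, false)) *
          Ex (prob q K (actB (some (Sum.inl i, false)) b))
            (fun η => f ((actB (some (Sum.inl i, false)) b).1.2, η)) := by
    intro i
    have := block_bulk hq K b hb i f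
    simp only [wt, rate]
    change 1 / _ * Ex (prob q K b) (fun η => f (bulk i true b.1.2, bulk i true η))
      + q / _ * Ex (prob q K b) (fun η => f (bulk i false b.1.2, bulk i false η))
      = 1 / _ * Ex (prob q K (actB (some (Sum.inl i, true)) b)) (fun η => f (bulk i true b.1.2, η))
      + q / _ * Ex (prob q K (actB (some (Sum.inl i, false)) b))
          (fun η => f (bulk i false b.1.2, η))
    linear_combination (1 / tot n x q α β γ δ) * this
  simp only [hL, hR, hB]
  linarith

lemma Phi_iter {x q α β γ δ : ℝ} (hx : 0 ≤ x) (hq : 0 ≤ q) (hα : 0 ≤ α) (hβ : 0 ≤ β)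
    (hγ : 0 ≤ γ) (hδ : 0 ≤ δ) (ht : 0 < tot n x q α β γ δ) (K : ℤ)
    (f : Cfg n × Cfg n → ℝ) (hf : ∀ a η η', η ≤ η' → f (a, η) ≤ f (a, η')) (k : ℕ) :
    ∀ b : St n × St n, b.1.2 ≤ b.2.2 →
      Phi q K (iter (wt n x q α β γ δ) actP k f) b
        ≤ iter (wt n x q α β γ δ) actB k (Phi q K f) b := by
  have hw := wt_nonneg (n := n) hx hq hα hβ hγ hδ
  induction k with
  | zero => intro b _; exact le_rfl
  | succ k ih =>
    intro b hb
    rw [iter_succ, iter_succ]
    refine (Phi_step hx hq ht K _ ?_ b hb).trans ?_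
    · intro a η η' h
      refine iter_rel hw (fun p p' : Cfg n × Cfg n => p.1 = p'.1 ∧ p.2 ≤ p'.2) ?_ ?_ k
        (a, η) (a, η') ⟨rfl, h⟩
      · rintro m s s' ⟨h1, h2⟩
        exact ⟨by simp [actP, h1], actC_mono m h2⟩
      · rintro ⟨s1, s2⟩ ⟨s1', s2'⟩ ⟨h1, h2⟩
        simp only at h1 h2
        subst h1
        exact hf _ _ _ h2
    · exact step_mono_on hw (fun b : St n × St n => b.1.2 ≤ b.2.2) actB_valid ih b hb

open Classical in
/-- Indicator that the second configuration is not below the first one. -/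
noncomputable def bad (p : Cfg n × Cfg n) : ℝ := if p.2 ≤ p.1 then 0 else 1

lemma bad_nonneg (p : Cfg n × Cfg n) : 0 ≤ bad p := by unfold bad; split_ifs <;> simp

lemma bad_le_one (p : Cfg n × Cfg n) : bad p ≤ 1 := by unfold bad; split_ifs <;> simp

lemma bad_mono (a η η' : Cfg n) (h : η ≤ η') : bad (a, η) ≤ bad (a, η') := by
  unfold bad
  by_cases h2 : η' ≤ a
  · simp [h2, h.trans h2]
  · simp only [h2, if_false]; split_ifs <;> simp

/-- Indicator that the lower system has let in far fewer particles than the upper one. -/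
def good (b : St n × St n) : ℝ := if b.1.1 - b.2.1 ≤ -3 * ((n + 1 : ℕ) : ℤ) then 1 else 0

lemma ht_diff_le (s s' : St n) (x : ℕ) : ht s x - ht s' x ≤ s.1 - s'.1 + (n + 1 : ℕ) := by
  have h1 := ht_le s x
  have h2 := le_ht s' x
  omega

lemma Phi_bad {q : ℝ} (hq : 0 ≤ q) (hq1 : q ≤ 1) (b : St n × St n) :
    Phi q ((n + 1 : ℕ) : ℤ) bad b ≤ 1 - good b + (n + 1) * q ^ (n + 1) := by
  have hr := prob_mem hq ((n + 1 : ℕ) : ℤ) b
  have hpos : 0 ≤ ((n : ℝ) + 1) * q ^ (n + 1) := by positivity
  unfold good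
  split_ifs with h
  · have h1 : ∀ η : Cfg n, bad (b.1.2, η)
        ≤ ∑ i : Fin (n + 1), (if b.1.2 i then 0 else 1) * (if η i then (1 : ℝ) else 0) := by
      intro η
      have hnn : ∀ i : Fin (n + 1),
          (0 : ℝ) ≤ (if b.1.2 i then 0 else 1) * (if η i then (1 : ℝ) else 0) := by
        intro i; split_ifs <;> simp
      unfold bad
      split_ifs with h2
      · exact Finset.sum_nonneg fun i _ => hnn i
      · obtain ⟨i, hi⟩ : ∃ i, ¬ η i ≤ b.1.2 i := by
          by_contra hc
          push Not at hc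
          exact h2 hc
        have e1 : η i = true := by
          cases h3 : η i
          · rw [h3] at hi; exact absurd (Bool.false_le _) hi
          · rfl
        have e2 : b.1.2 i = false := by
          cases h3 : b.1.2 i
          · rfl
          · rw [h3] at hi; exact absurd (Bool.le_true _) hi
        have := Finset.single_le_sum (fun i _ => hnn i) (Finset.mem_univ i)
        simpa [e1, e2] using this
    have h2 := Ex_mono hr h1
    rw [Ex_sum] at h2
    simp only [Ex_mul, Ex_site] at h2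
    have h3 : ∑ i : Fin (n + 1), (if b.1.2 i then 0 else 1) * prob q ((n + 1 : ℕ) : ℤ) b i
        ≤ ∑ _i : Fin (n + 1), q ^ (n + 1) := by
      refine Finset.sum_le_sum fun i _ => ?_
      unfold prob site
      have hp : 0 ≤ q ^ (n + 1) := by positivity
      split_ifs
      · simpa using hp
      · rw [one_mul]
        refine pb_le_pow hq hq1 (Nat.succ_pos n) ?_
        have := ht_diff_le b.1 b.2 (i.val + 1)
        omega
      · simpa using hp
    simp only [Finset.sum_const, Finset.card_univ, Fintype.card_fin, nsmul_eq_mul] at h3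
    unfold Phi
    push_cast at h3 h2 ⊢
    linarith
  · have := Ex_mono hr (f := fun η => bad (b.1.2, η)) (g := fun _ => 1) fun η => bad_le_one _
    rw [Ex_const] at this
    unfold Phi
    linarith

lemma ht_empty (x : ℕ) : ht ((0, fun _ => false) : St n) x = 0 := by simp [ht, b2z]

lemma ht_full (i : Fin (n + 1)) : ht ((0, fun _ => true) : St n) (i.val + 1) ≤ 0 := ht_le _ _

lemma Phi_start {q : ℝ} (hq : 0 ≤ q) (hq1 : q ≤ 1) (f : Cfg n × Cfg n → ℝ) (h0 : ∀ p, 0 ≤ f p)
    (h1 : ∀ p, f p ≤ 1) :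
    f (fun _ => false, fun _ => true)
      ≤ Phi q ((n + 1 : ℕ) : ℤ) f ((0, fun _ => false), (0, fun _ => true))
        + (n + 1) * q ^ (n + 1) := by
  set b : St n × St n := ((0, fun _ => false), (0, fun _ => true)) with hb
  have hr := prob_mem hq ((n + 1 : ℕ) : ℤ) b
  have h2 : ∀ η : Cfg n, f (fun _ => false, fun _ => true)
      ≤ f (fun _ => false, η) + ∑ i : Fin (n + 1), (if η i then (0 : ℝ) else 1) := by
    intro η
    have hnn : ∀ i : Fin (n + 1), (0 : ℝ) ≤ (if η i then (0 : ℝ) else 1) := by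
      intro i; split_ifs <;> simp
    by_cases h : η = fun _ => true
    · subst h; simp
    · obtain ⟨i, hi⟩ : ∃ i, η i = false := by
        by_contra hc
        push Not at hc
        exact h (funext fun i => by simpa using hc i)
      have := Finset.single_le_sum (fun i _ => hnn i) (Finset.mem_univ i)
      simp only [hi, Bool.false_eq_true, if_false] at this
      linarith [h0 (fun _ => false, η), h1 (fun _ => false, fun _ => true)]
  have h3 := Ex_mono hr h2
  rw [Ex_const, Ex_add, Ex_sum] at h3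
  simp only [Ex_site'] at h3
  have h4 : ∑ i : Fin (n + 1), (1 - prob q ((n + 1 : ℕ) : ℤ) b i)
      ≤ ∑ _i : Fin (n + 1), q ^ (n + 1) := by
    refine Finset.sum_le_sum fun i _ => ?_
    have e : prob q ((n + 1 : ℕ) : ℤ) b i
        = pb q (((n + 1 : ℕ) : ℤ) + ht b.1 (i.val + 1) - ht b.2 (i.val + 1)) := by
      simp [prob, site, hb]
    rw [e]
    refine one_sub_pb_le_pow hq hq1 ?_
    have a1 : ht b.1 (i.val + 1) = 0 := ht_empty _
    have a2 : ht b.2 (i.val + 1) ≤ 0 := ht_full i
    omega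
  simp only [Finset.sum_const, Finset.card_univ, Fintype.card_fin, nsmul_eq_mul] at h4
  unfold Phi
  push_cast at h3 h4 ⊢
  linarith

/-- The extremal configurations have merged unless the background event fails. -/
lemma bad_le {x q α β γ δ : ℝ} (hx : 0 ≤ x) (hq : 0 ≤ q) (hq1 : q ≤ 1) (hα : 0 ≤ α) (hβ : 0 ≤ β)
    (hγ : 0 ≤ γ) (hδ : 0 ≤ δ) (ht : 0 < tot n x q α β γ δ) (k : ℕ) :
    iter (wt n x q α β γ δ) actP k bad (fun _ => false, fun _ => true)
      ≤ 1 - iter (wt n x q α β γ δ) actB k good ((0, fun _ => false), (0, fun _ => true))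
        + 2 * ((n + 1) * q ^ (n + 1)) := by
  have hw := wt_nonneg (n := n) hx hq hα hβ hγ hδ
  have h1 := sum_wt ht.ne'
  have a1 := Phi_start hq hq1 (iter (wt n x q α β γ δ) actP k bad)
    (iter_nonneg hw bad_nonneg k) (iter_le_const hw h1 bad_le_one k)
  have a2 := Phi_iter hx hq hα hβ hγ hδ ht ((n + 1 : ℕ) : ℤ) bad bad_mono k
    ((0, fun _ => false), (0, fun _ => true)) (fun _ => Bool.false_le _)
  have a3 := iter_mono (act := actB) hw (Phi_bad (n := n) hq hq1) k
    ((0, fun _ => false), (0, fun _ => true))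
  rw [iter_add, iter_sub, iter_const h1, iter_const h1] at a3
  linarith

end Pool.Agent.Lib.MP_2842de_pr
end

-- part Pool.Agent.Lib.MP_2842de_pr.Upper
section

/-! Merging of the extremal configurations on the diffusive time scale. -/

namespace Pool.Agent.Lib.MP_2842de_pr

open Finset Function

variable {n : ℕ}

/-- Parameters on the coexistence line, written with the left reservoir density `ρ`. -/
structure Coex (q α β γ δ ρ : ℝ) : Prop where
  hq : 0 ≤ q
  hq1 : q < 1
  hα : 0 < α
  hβ : 0 < β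
  hγ : 0 ≤ γ
  hδ : 0 ≤ δ
  hρ : 0 < ρ
  hρ1 : ρ < 1 / 2
  hL : α * (1 - ρ) - γ * ρ = cur q ρ ρ
  hR : β * (1 - ρ) - δ * ρ = cur q ρ ρ

lemma cur_self (q r : ℝ) : cur q r r = (1 - q) * r * (1 - r) := by unfold cur; ring

/-- The extra entrance rate of the upper system. -/
noncomputable def xtra (q α γ ρ : ℝ) : ℝ := (cur q ρ ρ + γ * (1 - ρ)) / ρ - α

lemma Coex.cur_pos {q α β γ δ ρ : ℝ} (H : Coex q α β γ δ ρ) : 0 < cur q ρ ρ := by
  rw [cur_self]
  have := H.hq1; have := H.hρ; have := H.hρ1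
  have h1 : 0 < 1 - q := by linarith
  have h2 : 0 < 1 - ρ := by linarith
  positivity

lemma Coex.xtra_pos {q α β γ δ ρ : ℝ} (H : Coex q α β γ δ ρ) : 0 < xtra q α γ ρ := by
  unfold xtra
  rw [sub_pos, lt_div_iff₀ H.hρ, ← H.hL]
  have := H.hα; have := H.hρ; have := H.hρ1; have := H.hγ
  nlinarith

lemma step_actZ {x q a β γ δ : ℝ} (f : St n → ℝ) (s : St n) :
    step (wt n x q a β γ δ) actZ f s = step (wt n 0 q (x + a) β γ δ) actS f s := by
  have e : tot n 0 q (x + a) β γ δ = tot n x q a β γ δ := by unfold tot; ring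
  unfold step
  rw [sum_Mv, sum_Mv]
  simp only [wt, rate, actZ, e]
  ring

lemma one_sub_good_le (b : St n × St n) {l : ℝ} (hl : 0 ≤ l) (a : ℝ) :
    1 - good b ≤ Real.exp (-(l * a)) * Real.exp (l * (b.1.1 : ℝ))
      + Real.exp (l * (a + 3 * (n + 1))) * Real.exp (-l * (b.2.1 : ℝ)) := by
  rw [← Real.exp_add, ← Real.exp_add]
  have p1 := Real.exp_pos (-(l * a) + l * (b.1.1 : ℝ))
  have p2 := Real.exp_pos (l * (a + 3 * (n + 1)) + -l * (b.2.1 : ℝ))
  unfold good
  split_ifs with h
  · linarith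
  · have h2 : (-3 * ((n : ℝ) + 1)) < (b.1.1 : ℝ) - b.2.1 := by
      have : -3 * ((n + 1 : ℕ) : ℤ) < b.1.1 - b.2.1 := lt_of_not_ge h
      exact_mod_cast this
    by_cases h3 : a ≤ (b.1.1 : ℝ)
    · have : 0 ≤ -(l * a) + l * (b.1.1 : ℝ) := by nlinarith
      have := Real.one_le_exp this
      linarith
    · have : 0 ≤ l * (a + 3 * (n + 1)) + -l * (b.2.1 : ℝ) := by nlinarith
      have := Real.one_le_exp this
      linarith

/-- Under the tilted rates the background event is likely. -/
lemma good_tilted {q α β γ δ ρ : ℝ} (H : Coex q α β γ δ ρ) {h a' : ℝ} (h0 : 0 ≤ h) (h1 : h ≤ ρ)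
    (ha0 : 0 ≤ a') (ha1 : a' ≤ α) (ha : a' * (1 - (ρ - h)) - γ * (ρ - h) = cur q (ρ - h) (ρ - h))
    (k : ℕ) {τ₂ : ℝ} (hT : (k : ℝ) / tot n (xtra q α γ ρ) q α β γ δ ≤ τ₂ * (n + 1) ^ 2)
    (hG : 9 + 2 * (xtra q α γ ρ + α + γ) * τ₂ ≤
      (1 - q) * (1 - 2 * ρ) * h * ((k : ℝ) / tot n (xtra q α γ ρ) q α β γ δ) / (n + 1)) :
    1 / 2 ≤ iter (wt n (xtra q α γ ρ + (α - a')) q a' β γ δ) actB k good
      ((0, fun _ => false), (0, fun _ => true)) := by
  have hx := H.xtra_pos
  have hq := H.hq; have hq1 := H.hq1; have hα := H.hα; have hβ := H.hβ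
  have hγ := H.hγ; have hδ := H.hδ; have hρ := H.hρ; have hρ1 := H.hρ1
  set x := xtra q α γ ρ with hxdef
  set Λ := tot n x q α β γ δ with hΛ
  have hΛpos : 0 < Λ := by rw [hΛ]; unfold tot; positivity
  have e1 : tot n (x + (α - a')) q a' β γ δ = Λ := by rw [hΛ]; unfold tot; ring
  have e2 : tot n 0 q (x + (α - a') + a') β γ δ = Λ := by rw [hΛ]; unfold tot; ring
  have hx' : 0 ≤ x + (α - a') := by linarith
  have hw := wt_nonneg (n := n) hx' hq ha0 hβ.le hγ hδ
  have hw1 : ∑ m, wt n (x + (α - a')) q a' β γ δ m = 1 := sum_wt (by rw [e1]; exact hΛpos.ne')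
  set N : ℝ := (n : ℝ) + 1 with hN
  have hN1 : 1 ≤ N := by rw [hN]; have : (0 : ℝ) ≤ n := Nat.cast_nonneg n; linarith
  have hNpos : 0 < N := by linarith
  set T : ℝ := (k : ℝ) / Λ with hTdef
  have hT0 : 0 ≤ T := by positivity
  have hl0 : (0 : ℝ) ≤ 1 / N := by positivity
  have hl1 : |1 / N| ≤ 1 := by rw [abs_of_nonneg hl0, div_le_one hNpos]; exact hN1
  have hRlow : β * (ρ - h) - δ * (1 - (ρ - h)) ≤ cur q (ρ - h) (ρ - h) := by
    have hR := H.hR
    rw [cur_self] at hR ⊢
    have s1 : 0 < 1 - ρ := by linarith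
    refine le_of_mul_le_mul_right ?_ s1
    have s2 : β * (ρ - h) * (1 - ρ) = ((1 - q) * ρ * (1 - ρ) + δ * ρ) * (ρ - h) := by
      linear_combination (ρ - h) * hR
    have s3 : 0 ≤ δ * (1 - 2 * ρ + h) := mul_nonneg hδ (by linarith)
    have s4 : 0 ≤ (1 - q) * (ρ - h) * (1 - ρ) * (1 - 2 * ρ + h) := by
      have : 0 ≤ 1 - q := by linarith
      have : 0 ≤ ρ - h := by linarith
      have : 0 ≤ 1 - 2 * ρ + h := by linarith
      positivity
    nlinarith
  have B1 := expo_any (n := n) (l := 1 / N) hx' hq ha0 hβ.le hγ hδ (by rw [e1]; exact hΛpos)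
    (by linarith : 0 ≤ ρ - h) (by linarith) ha hl1 (Or.inl ⟨hl0, hRlow⟩) k (fun _ => false)
  have hxa : (x + (α - a') + a') * (1 - (1 - ρ)) - γ * (1 - ρ) = cur q (1 - ρ) (1 - ρ) := by
    have : x + (α - a') + a' = (cur q ρ ρ + γ * (1 - ρ)) / ρ := by rw [hxdef]; unfold xtra; ring
    rw [this, cur_self, cur_self]; field_simp; ring
  have B2 := expo_any (n := n) (l := -(1 / N)) le_rfl hq (by linarith : 0 ≤ x + (α - a') + a')
    hβ.le hγ hδ (by rw [e2]; exact hΛpos) (by linarith : 0 ≤ 1 - ρ) (by linarith) hxa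
    (by rwa [abs_neg]) (Or.inr ⟨by linarith, by
      have := H.hR; rw [cur_self] at this ⊢; linarith⟩) k (fun _ => true)
  rw [e1] at B1
  rw [e2] at B2
  set J := cur q ρ ρ with hJ
  set J' := cur q (ρ - h) (ρ - h) with hJ'
  have hJJ : cur q (1 - ρ) (1 - ρ) = J := by rw [hJ, cur_self, cur_self]; ring
  rw [hJJ] at B2
  set a : ℝ := (J' * T + J * T - 3 * N) / 2 with hadef
  have M := iter_mono (act := actB) hw (fun b => one_sub_good_le (n := n) b hl0 a) k
    ((0, fun _ => false), (0, fun _ => true))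
  rw [iter_sub, iter_const hw1, iter_add, iter_mul, iter_mul] at M
  have P1 := iter_proj (w := wt n (x + (α - a')) q a' β γ δ) (act := actB) (act' := actS)
    (fun b : St n × St n => b.1) (fun m s => rfl)
    (fun s => Real.exp (1 / N * (s.1 : ℝ))) k ((0, fun _ => false), (0, fun _ => true))
  have P2 := iter_proj_of_step (w := wt n (x + (α - a')) q a' β γ δ) (act := actB)
    (w' := wt n 0 q (x + (α - a') + a') β γ δ) (act' := actS)
    (fun b : St n × St n => b.2) (fun f s => step_actZ f s.2)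
    (fun s => Real.exp (-(1 / N) * (s.1 : ℝ))) k ((0, fun _ => false), (0, fun _ => true))
  simp only at P1 P2
  rw [P1, P2] at M
  have hgap : (1 - q) * (1 - 2 * ρ) * h ≤ J - J' := by
    rw [hJ, hJ', cur_self, cur_self]
    have : 0 ≤ (1 - q) * h ^ 2 := mul_nonneg (by linarith) (sq_nonneg h)
    have e : (1 - q) * ρ * (1 - ρ) - (1 - q) * (ρ - h) * (1 - (ρ - h))
        = (1 - q) * (1 - 2 * ρ) * h + (1 - q) * h ^ 2 := by ring
    rw [e]
    exact le_add_of_nonneg_right this
  have hG2 : 9 + 2 * (x + α + γ) * τ₂ ≤ (J - J') * T / N :=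
    hG.trans (div_le_div_of_nonneg_right (mul_le_mul_of_nonneg_right hgap hT0) hNpos.le)
  have hτ : T / N ^ 2 ≤ τ₂ := by rw [div_le_iff₀ (by positivity)]; exact hT
  have hτ0 : 0 ≤ T / N ^ 2 := by positivity
  have hexp : Real.exp (-2) ≤ 1 / 4 := by
    have : (4 : ℝ) ≤ Real.exp 2 := by
      have h2 := Real.add_one_le_exp 1
      have : Real.exp 2 = Real.exp 1 * Real.exp 1 := by rw [← Real.exp_add]; norm_num
      nlinarith
    rw [Real.exp_neg, inv_eq_one_div]
    exact one_div_le_one_div_of_le (by norm_num) this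
  have X1 : Real.exp (-(1 / N * a)) * Real.exp (|1 / N| * N + (J' * (1 / N) + (a' + γ) * (1 / N) ^ 2)
      * k / Λ) ≤ 1 / 4 := by
    rw [← Real.exp_add]
    refine le_trans (Real.exp_le_exp.2 ?_) hexp
    have : -(1 / N * a) + (|1 / N| * N + (J' * (1 / N) + (a' + γ) * (1 / N) ^ 2) * k / Λ)
        = 5 / 2 + (a' + γ) * (T / N ^ 2) - (J - J') * T / N / 2 := by
      rw [abs_of_nonneg hl0, hadef, hTdef]; field_simp; ring
    rw [this]
    have : (a' + γ) * (T / N ^ 2) ≤ (x + α + γ) * τ₂ :=
      mul_le_mul (by linarith) hτ hτ0 (by linarith)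
    linarith
  have X2 : Real.exp (1 / N * (a + 3 * N)) * Real.exp (|-(1 / N)| * N
      + (J * -(1 / N) + (x + (α - a') + a' + γ) * (-(1 / N)) ^ 2) * k / Λ) ≤ 1 / 4 := by
    rw [← Real.exp_add]
    refine le_trans (Real.exp_le_exp.2 ?_) hexp
    have : 1 / N * (a + 3 * N) + (|-(1 / N)| * N
        + (J * -(1 / N) + (x + (α - a') + a' + γ) * (-(1 / N)) ^ 2) * k / Λ)
        = 5 / 2 + (x + α + γ) * (T / N ^ 2) - (J - J') * T / N / 2 := by
      rw [abs_neg, abs_of_nonneg hl0, hadef, hTdef]; field_simp; ring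
    rw [this]
    have : (x + α + γ) * (T / N ^ 2) ≤ (x + α + γ) * τ₂ :=
      mul_le_mul_of_nonneg_left hτ (by linarith)
    linarith
  have Y1 := mul_le_mul_of_nonneg_left B1 (Real.exp_pos (-(1 / N * a))).le
  have Y2 := mul_le_mul_of_nonneg_left B2 (Real.exp_pos (1 / N * (a + 3 * N))).le
  linarith

/-- Likelihood ratio of the tilted rates. -/
noncomputable def lik (x α d : ℝ) : Mv n → ℝ
  | none => (x + d) / x
  | some (Sum.inr false, true) => (α - d) / α
  | _ => 1

lemma wt_tilt {x q α β γ δ d : ℝ} (hx : 0 < x) (hα : 0 < α) :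
    wt n (x + d) q (α - d) β γ δ = fun m => wt n x q α β γ δ m * lik x α d m := by
  have e : tot n (x + d) q (α - d) β γ δ = tot n x q α β γ δ := by unfold tot; ring
  funext m
  unfold wt
  rw [e]
  rcases m with _ | ⟨i | b, u⟩
  · simp only [rate, lik]; field_simp
  · cases u <;> simp [rate, lik]
  · cases b <;> cases u <;> simp only [rate, lik, mul_one]
    field_simp

lemma sum_lik {x q α β γ δ d : ℝ} (hx : 0 < x) (hα : 0 < α) (ht : 0 < tot n x q α β γ δ) :
    ∑ m : Mv n, wt n x q α β γ δ m * lik x α d m ^ 2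
      = 1 + d ^ 2 * (1 / α + 1 / x) / tot n x q α β γ δ := by
  have h1 := sum_wt ht.ne'
  rw [sum_Mv] at h1 ⊢
  simp only [lik, one_pow, mul_one]
  have e1 : wt n x q α β γ δ none * ((x + d) / x) ^ 2
      = wt n x q α β γ δ none + (2 * d + d ^ 2 / x) / tot n x q α β γ δ := by
    simp only [wt, rate]; field_simp; ring
  have e2 : wt n x q α β γ δ (some (Sum.inr false, true)) * ((α - d) / α) ^ 2
      = wt n x q α β γ δ (some (Sum.inr false, true))
        + (-2 * d + d ^ 2 / α) / tot n x q α β γ δ := by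
    simp only [wt, rate]; field_simp; ring
  rw [e1, e2]
  linear_combination h1

lemma good_sq (b : St n × St n) : good b ^ 2 = good b := by unfold good; split_ifs <;> simp

/-- The background event has probability bounded below on the diffusive scale. -/
lemma good_lower {q α β γ δ ρ : ℝ} (H : Coex q α β γ δ ρ) {τ₁ τ₂ : ℝ} (h1 : 0 < τ₁)
    (h2 : 0 < τ₂) : ∃ ε : ℝ, 0 < ε ∧ ∀ᶠ n : ℕ in Filter.atTop, ∀ k : ℕ,
      τ₁ * (n + 1) ^ 2 ≤ (k : ℝ) / tot n (xtra q α γ ρ) q α β γ δ →
      (k : ℝ) / tot n (xtra q α γ ρ) q α β γ δ ≤ τ₂ * (n + 1) ^ 2 →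
      ε ≤ iter (wt n (xtra q α γ ρ) q α β γ δ) actB k good
        ((0, fun _ => false), (0, fun _ => true)) := by
  have hx := H.xtra_pos
  have hq := H.hq; have hq1 := H.hq1; have hα := H.hα; have hβ := H.hβ
  have hγ := H.hγ; have hδ := H.hδ; have hρ := H.hρ; have hρ1 := H.hρ1
  set x := xtra q α γ ρ with hxdef
  have hc : 0 < (1 - q) * (1 - 2 * ρ) := mul_pos (by linarith) (by linarith)
  set κ : ℝ := (9 + 2 * (x + α + γ) * τ₂) / ((1 - q) * (1 - 2 * ρ) * τ₁) with hκ
  have hκ0 : 0 < κ := by positivity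
  set E : ℝ := ((1 + 4 * γ) * κ) ^ 2 * (1 / α + 1 / x) * τ₂ with hE
  refine ⟨Real.exp (-E) / 4, by positivity, ?_⟩
  filter_upwards [Filter.eventually_ge_atTop ⌈κ / ρ⌉₊] with n hn k hk1 hk2
  set N : ℝ := (n : ℝ) + 1 with hN
  have hNpos : 0 < N := by positivity
  set Λ := tot n x q α β γ δ with hΛ
  have hΛpos : 0 < Λ := by rw [hΛ]; unfold tot; positivity
  set h : ℝ := κ / N with hh
  have hh0 : 0 ≤ h := by positivity
  have hh1 : h ≤ ρ := by
    rw [hh, div_le_iff₀ hNpos]
    have : κ / ρ ≤ n := (Nat.le_ceil _).trans (by exact_mod_cast hn)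
    rw [div_le_iff₀ hρ] at this
    nlinarith
  have hs : 0 < 1 - (ρ - h) := by linarith
  set a' : ℝ := (cur q (ρ - h) (ρ - h) + γ * (ρ - h)) / (1 - (ρ - h)) with ha'
  have ha : a' * (1 - (ρ - h)) - γ * (ρ - h) = cur q (ρ - h) (ρ - h) := by
    rw [ha']; field_simp; ring
  have hd : α - a' = (1 - q) * h + γ * h / ((1 - ρ) * (1 - (ρ - h))) := by
    have hL := H.hL
    have s1 : 0 < 1 - ρ := by linarith
    have : α = (1 - q) * ρ + γ * ρ / (1 - ρ) := by
      rw [cur_self] at hL
      field_simp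
      linear_combination hL
    rw [this, ha', cur_self]
    field_simp
    ring
  have hd0 : 0 ≤ α - a' := by
    rw [hd]
    have : 0 < 1 - q := by linarith
    have : 0 < 1 - ρ := by linarith
    positivity
  have hd1 : α - a' ≤ (1 + 4 * γ) * h := by
    rw [hd]
    have s1 : 1 / 4 ≤ (1 - ρ) * (1 - (ρ - h)) := by nlinarith
    have s2 : γ * h / ((1 - ρ) * (1 - (ρ - h))) ≤ γ * h / (1 / 4) :=
      div_le_div_of_nonneg_left (by positivity) (by norm_num) s1
    have s3 : 0 ≤ q * h := by positivity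
    nlinarith
  have ha0 : 0 ≤ a' := by
    rw [ha', cur_self]
    have : 0 < 1 - q := by linarith
    have : 0 ≤ ρ - h := by linarith
    positivity
  have hG : 9 + 2 * (x + α + γ) * τ₂ ≤ (1 - q) * (1 - 2 * ρ) * h * ((k : ℝ) / Λ) / N := by
    have e : 9 + 2 * (x + α + γ) * τ₂ = (1 - q) * (1 - 2 * ρ) * h * (τ₁ * N ^ 2) / N := by
      have hc' := hc.ne'
      have : (1 - q) * (1 - 2 * ρ) * h * (τ₁ * N ^ 2) / N = ((1 - q) * (1 - 2 * ρ) * τ₁) * κ := by
        rw [hh]; field_simp
      rw [this, hκ, mul_div_cancel₀]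
      positivity
    rw [e]
    exact div_le_div_of_nonneg_right (mul_le_mul_of_nonneg_left hk1 (by positivity)) hNpos.le
  have G := good_tilted (n := n) H hh0 hh1 ha0 (by linarith) ha k hk2 hG
  have e3 : a' = α - (α - a') := by ring
  have hw := wt_nonneg (n := n) hx.le hq hα.le hβ.le hγ hδ
  have CS := iter_tilt (act := actB) hw (lik x α (α - a')) good k
    ((0, fun _ => false), (0, fun _ => true))
  rw [← wt_tilt hx hα, ← e3, sum_lik hx hα hΛpos] at CS
  simp only [good_sq] at CS
  set p := iter (wt n x q α β γ δ) actB k good ((0, fun _ => false), (0, fun _ => true)) with hp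
  have hp0 : 0 ≤ p := iter_nonneg hw (fun b => by unfold good; split_ifs <;> simp) k _
  have hχ : (1 + (α - a') ^ 2 * (1 / α + 1 / x) / Λ) ^ k ≤ Real.exp E := by
    have s1 : 1 + (α - a') ^ 2 * (1 / α + 1 / x) / Λ
        ≤ Real.exp ((α - a') ^ 2 * (1 / α + 1 / x) / Λ) := by
      linarith [Real.add_one_le_exp ((α - a') ^ 2 * (1 / α + 1 / x) / Λ)]
    refine (pow_le_pow_left₀ (by positivity) s1 k).trans ?_
    rw [← Real.exp_nat_mul]
    refine Real.exp_le_exp.2 ?_
    have s2 : (α - a') ^ 2 ≤ ((1 + 4 * γ) * h) ^ 2 := pow_le_pow_left₀ hd0 hd1 2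
    calc (k : ℝ) * ((α - a') ^ 2 * (1 / α + 1 / x) / Λ)
        = (α - a') ^ 2 * (1 / α + 1 / x) * ((k : ℝ) / Λ) := by ring
      _ ≤ ((1 + 4 * γ) * h) ^ 2 * (1 / α + 1 / x) * (τ₂ * N ^ 2) := by gcongr
      _ = E := by rw [hE, hh]; field_simp
  have s4 : (1 / 2 : ℝ) ^ 2 ≤ Real.exp E * p :=
    ((pow_le_pow_left₀ (by norm_num) G 2).trans CS).trans (mul_le_mul_of_nonneg_right hχ hp0)
  rw [Real.exp_neg, div_le_iff₀ (by norm_num), inv_le_iff_one_le_mul₀ (Real.exp_pos E)]
  nlinarith

/-- Oscillations are contracted by the probability that the extremal configurations differ. -/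
lemma osc_le_bad {w : Mv n → ℝ} (hw : ∀ m, 0 ≤ w m) {f : Cfg n → ℝ} {a b : ℝ}
    (hf : ∀ η, a ≤ f η ∧ f η ≤ b) (k : ℕ) (η η' : Cfg n) :
    iter w actC k f η - iter w actC k f η'
      ≤ (b - a) * iter w actP k bad (fun _ => false, fun _ => true) := by
  let act4 : Mv n → (Cfg n × Cfg n) × (Cfg n × Cfg n) → (Cfg n × Cfg n) × (Cfg n × Cfg n) :=
    fun m s => (actP m s.1, actP m s.2)
  have M := iter_mono_on (act := act4) hw
    (fun s => s.1.1 ≤ s.2.1 ∧ s.2.1 ≤ s.1.2 ∧ s.1.1 ≤ s.2.2 ∧ s.2.2 ≤ s.1.2)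
    (fun m s h => ⟨actC_mono m h.1, actC_mono m h.2.1, actC_mono m h.2.2.1, actC_mono m h.2.2.2⟩)
    (f := fun s => f s.2.1 - f s.2.2) (g := fun s => (b - a) * bad s.1)
    (fun s h => by
      unfold bad
      split_ifs with h2
      · have e : s.2.1 = s.2.2 :=
          le_antisymm (h.2.1.trans (h2.trans h.2.2.1)) (h.2.2.2.trans (h2.trans h.1))
        simp [e]
      · have := (hf s.2.1).2; have := (hf s.2.2).1; linarith) k
    ((fun _ => false, fun _ => true), (η, η'))
    ⟨fun _ => Bool.false_le _, fun _ => Bool.le_true _, fun _ => Bool.false_le _,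
      fun _ => Bool.le_true _⟩
  rw [iter_sub, iter_mul] at M
  have P1 := iter_proj (w := w) (act := act4) (act' := actC) (fun s => s.2.1) (fun m s => rfl) f k
    ((fun _ => false, fun _ => true), (η, η'))
  have P2 := iter_proj (w := w) (act := act4) (act' := actC) (fun s => s.2.2) (fun m s => rfl) f k
    ((fun _ => false, fun _ => true), (η, η'))
  have P3 := iter_proj (w := w) (act := act4) (act' := actP) (fun s => s.1) (fun m s => rfl) bad k
    ((fun _ => false, fun _ => true), (η, η'))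
  simp only at P1 P2 P3
  rwa [P1, P2, P3] at M

/-- Discrete-time contraction on the diffusive scale. -/
lemma upper_discrete {q α β γ δ ρ : ℝ} (H : Coex q α β γ δ ρ) {τ₁ τ₂ : ℝ} (h1 : 0 < τ₁)
    (h2 : 0 < τ₂) : ∃ ε : ℝ, 0 < ε ∧ ∀ᶠ n : ℕ in Filter.atTop, ∀ k : ℕ,
      τ₁ * (n + 1) ^ 2 ≤ (k : ℝ) / tot n (xtra q α γ ρ) q α β γ δ →
      (k : ℝ) / tot n (xtra q α γ ρ) q α β γ δ ≤ τ₂ * (n + 1) ^ 2 →
      ∀ (f : Cfg n → ℝ) (a b : ℝ), (∀ η, a ≤ f η ∧ f η ≤ b) → ∀ η η' : Cfg n,
        iter (wt n (xtra q α γ ρ) q α β γ δ) actC k f η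
          - iter (wt n (xtra q α γ ρ) q α β γ δ) actC k f η' ≤ (b - a) * (1 - ε) := by
  obtain ⟨ε, hε, hev⟩ := good_lower H h1 h2
  refine ⟨ε / 2, by positivity, ?_⟩
  have hlim : Filter.Tendsto (fun n : ℕ => ((n : ℝ) + 1) * q ^ (n + 1)) Filter.atTop (nhds 0) := by
    have := tendsto_self_mul_const_pow_of_lt_one H.hq H.hq1
    have h3 := this.comp (Filter.tendsto_add_atTop_nat 1)
    refine h3.congr fun n => ?_
    simp
  filter_upwards [hev, hlim.eventually (gt_mem_nhds (show (0 : ℝ) < ε / 4 by positivity))]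
    with n hn hn2 k hk1 hk2 f a b hf η η'
  have hx := H.xtra_pos
  have hq := H.hq; have hα := H.hα; have hβ := H.hβ; have hγ := H.hγ; have hδ := H.hδ
  have hw := wt_nonneg (n := n) hx.le hq hα.le hβ.le hγ hδ
  have ht : 0 < tot n (xtra q α γ ρ) q α β γ δ := by unfold tot; positivity
  have B := bad_le hx.le hq H.hq1.le hα.le hβ.le hγ hδ ht k
  have G := hn k hk1 hk2
  refine (osc_le_bad hw hf k η η').trans (mul_le_mul_of_nonneg_left (by linarith) ?_)
  have := hf η; linarith

end Pool.Agent.Lib.MP_2842de_pr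
end
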