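import Mathlib
import Pool.Agent.Lib.MP_2842de_pr.Upper
import Pool.Agent.Lib.MP_2842de_pr.Semi

-- part Pool.Agent.Lib.MP_2842de_pr.Shock
section

/-! Multi-shock product laws and a Lyapunov function for the shock positions. -/

namespace Pool.Agent.Lib.MP_2842de_pr

open Finset Function

/-- Data of a ladder of `k` equally spaced densities between `ρ` and `1 - ρ`. -/
structure Lad (q α β γ δ ρ : ℝ) (k : ℕ) (s : ℝ) : Prop extends Coex q α β γ δ ρ where
  hs : 0 < s
  hk : k * s = 1 - 2 * ρ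
  hsJ : s ≤ cur q ρ ρ

/-- Admissible level profiles on the sites `0, …, n`. -/
def Adm (n k : ℕ) (σ : ℕ → ℕ) : Prop :=
  (∀ j, j < n → σ (j + 1) = σ j ∨ σ (j + 1) = σ j + 1) ∧ σ n = k

/-- Density of a level. -/
def lev (ρ s : ℝ) (a : ℕ) : ℝ := ρ + s * a

/-- Effective current over bond `b`. -/
noncomputable def cb (q α γ ρ s : ℝ) (σ : ℕ → ℕ) : ℕ → ℝ
  | 0 => max (α * (1 - lev ρ s (σ 0)) - γ * lev ρ s (σ 0)) 0
  | b + 1 => if σ (b + 1) = σ b then cur q (lev ρ s (σ b)) (lev ρ s (σ b)) else 0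

/-- Effective rate of change of the density of site `j`. -/
noncomputable def kap (n : ℕ) (q α γ ρ s : ℝ) (σ : ℕ → ℕ) (j : ℕ) : ℝ :=
  if j < n then cb q α γ ρ s σ j - cb q α γ ρ s σ (j + 1) else 0

/-- The profile after the move at site `j`. -/
noncomputable def mv (n : ℕ) (q α γ ρ s : ℝ) (σ : ℕ → ℕ) (j : ℕ) : ℕ → ℕ :=
  if 0 < kap n q α γ ρ s σ j then update σ j (σ j + 1)
  else if kap n q α γ ρ s σ j < 0 then update σ j (σ j - 1) else σ

variable {n k : ℕ} {q α β γ δ ρ s : ℝ} {σ : ℕ → ℕ}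

lemma Adm.mono (h : Adm n k σ) {i j : ℕ} (hij : i ≤ j) (hj : j ≤ n) : σ i ≤ σ j := by
  induction j with
  | zero => have : i = 0 := by omega
            subst this; exact le_rfl
  | succ j ih =>
    rcases Nat.eq_or_lt_of_le hij with e | e
    · subst e; exact le_rfl
    · have := ih (by omega) (by omega)
      rcases h.1 j (by omega) with e2 | e2 <;> omega

lemma Adm.le (h : Adm n k σ) {i : ℕ} (hi : i ≤ n) : σ i ≤ k := by
  have := h.mono hi le_rfl; rw [h.2] at this; exact this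

lemma Lad.lev_ge (L : Lad q α β γ δ ρ k s) (a : ℕ) : ρ ≤ lev ρ s a := by
  unfold lev; have := L.hs; have : 0 ≤ s * a := by positivity
  linarith

lemma Lad.lev_le (L : Lad q α β γ δ ρ k s) {a : ℕ} (ha : a ≤ k) : lev ρ s a ≤ 1 - ρ := by
  unfold lev
  have h1 : (a : ℝ) ≤ k := by exact_mod_cast ha
  have := mul_le_mul_of_nonneg_left h1 L.hs.le
  have := L.hk
  linarith

lemma Lad.lev_top (L : Lad q α β γ δ ρ k s) : lev ρ s k = 1 - ρ := by
  unfold lev; have := L.hk; linarith

lemma Lad.cur_lev (L : Lad q α β γ δ ρ k s) (a : ℕ) :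
    cur q (lev ρ s a) (lev ρ s a) = cur q ρ ρ + (1 - q) * (s * a) * (s * (k - a)) := by
  rw [cur_self, cur_self]
  unfold lev
  have := L.hk
  linear_combination (-(1 - q) * (s * a)) * this

lemma Lad.cur_lev_ge (L : Lad q α β γ δ ρ k s) {a : ℕ} (ha : a ≤ k) :
    cur q ρ ρ ≤ cur q (lev ρ s a) (lev ρ s a) := by
  rw [L.cur_lev]
  have h1 : (0 : ℝ) ≤ k - a := by have : (a : ℝ) ≤ k := by exact_mod_cast ha
                                  linarith
  have h2 : 0 ≤ 1 - q := by have := L.hq1; linarith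
  have := L.hs
  have : 0 ≤ (1 - q) * (s * a) * (s * (k - a)) := by positivity
  linarith

lemma Lad.cur_lev_le (L : Lad q α β γ δ ρ k s) {a : ℕ} (ha : a ≤ k) :
    cur q (lev ρ s a) (lev ρ s a) ≤ 1 := by
  rw [cur_self]
  have h1 := L.lev_ge a
  have h2 := L.lev_le ha
  have := L.hρ; have := L.hq; have := L.hq1
  have h3 : lev ρ s a * (1 - lev ρ s a) ≤ 1 := by nlinarith
  have h4 : 0 ≤ lev ρ s a * (1 - lev ρ s a) := mul_nonneg (by linarith) (by linarith)
  nlinarith

lemma Lad.cur_shock (L : Lad q α β γ δ ρ k s) {a : ℕ} (ha : a ≤ k) :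
    0 ≤ cur q (lev ρ s a) (lev ρ s (a + 1)) := by
  have h0 := L.cur_lev_ge ha
  have h1 := L.lev_ge a
  have h2 := L.lev_le ha
  have e : cur q (lev ρ s a) (lev ρ s (a + 1))
      = cur q (lev ρ s a) (lev ρ s a) - s * (lev ρ s a + q * (1 - lev ρ s a)) := by
    unfold cur lev; push_cast; ring
  have := L.hρ; have := L.hq; have := L.hq1; have := L.hs; have := L.hsJ
  have h3 : lev ρ s a + q * (1 - lev ρ s a) ≤ 1 := by nlinarith
  have h4 : s * (lev ρ s a + q * (1 - lev ρ s a)) ≤ s := by nlinarith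
  linarith

lemma Lad.c0_le (L : Lad q α β γ δ ρ k s) (a : ℕ) :
    α * (1 - lev ρ s a) - γ * lev ρ s a ≤ cur q ρ ρ := by
  rw [← L.hL]
  have := L.lev_ge a
  have := L.hα; have := L.hγ
  nlinarith

lemma Lad.cb_zero_le (L : Lad q α β γ δ ρ k s) (σ : ℕ → ℕ) : cb q α γ ρ s σ 0 ≤ cur q ρ ρ :=
  max_le (L.c0_le _) L.toCoex.cur_pos.le

lemma cb_zero_nonneg (q α γ ρ s : ℝ) (σ : ℕ → ℕ) : 0 ≤ cb q α γ ρ s σ 0 := le_max_right _ _

lemma Lad.cb_zero_eq (L : Lad q α β γ δ ρ k s) (h : σ 0 = 0) : cb q α γ ρ s σ 0 = cur q ρ ρ := by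
  have := L.hL
  have h2 := L.toCoex.cur_pos
  simp only [cb, h, lev, Nat.cast_zero, mul_zero, add_zero, this]
  exact max_eq_left h2.le

lemma Lad.kap_pos (L : Lad q α β γ δ ρ k s) (h : Adm n k σ) {j : ℕ}
    (hj : 0 < kap n q α γ ρ s σ j) :
    j < n ∧ σ (j + 1) = σ j + 1 ∧ ∀ i, j = i + 1 → σ j = σ i := by
  unfold kap at hj
  by_cases hn : j < n
  · simp only [hn, if_true] at hj
    have hJ := L.cur_lev_ge (h.le hn.le)
    have hp := L.toCoex.cur_pos
    rcases j with _ | i
    · refine ⟨hn, ?_, fun i hi => absurd hi (by omega)⟩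
      rcases h.1 0 hn with e | e
      · have := L.cb_zero_le σ
        simp only [cb, e, if_true] at hj this
        linarith
      · exact e
    · by_cases e1 : σ (i + 1) = σ i
      · refine ⟨hn, ?_, fun i' hi => by have : i = i' := by omega
                                        subst this; exact e1⟩
        rcases h.1 (i + 1) hn with e | e
        · simp only [cb, e, e1, if_true] at hj
          linarith
        · exact e
      · simp only [cb, e1, if_false] at hj
        split_ifs at hj <;> linarith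
  · simp [hn] at hj

lemma Lad.kap_neg (L : Lad q α β γ δ ρ k s) (h : Adm n k σ) {j : ℕ}
    (hj : kap n q α γ ρ s σ j < 0) :
    j < n ∧ σ (j + 1) = σ j ∧ 1 ≤ σ j ∧ ∀ i, j = i + 1 → σ j = σ i + 1 := by
  unfold kap at hj
  by_cases hn : j < n
  · simp only [hn, if_true] at hj
    have hp := L.toCoex.cur_pos
    rcases j with _ | i
    · by_cases e : σ (0 + 1) = σ 0
      · refine ⟨hn, e, ?_, fun i hi => absurd hi (by omega)⟩
        by_contra hc
        have h0 : σ 0 = 0 := by omega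
        rw [L.cb_zero_eq h0] at hj
        simp only [cb, e, if_true, h0, lev, Nat.cast_zero, mul_zero, add_zero] at hj
        linarith
      · have := cb_zero_nonneg q α γ ρ s σ
        rw [show cb q α γ ρ s σ (0 + 1) = 0 by simp only [cb, e, if_false]] at hj
        linarith
    · have hJ := L.cur_lev_ge (h.le (by omega : i ≤ n))
      by_cases e2 : σ (i + 1 + 1) = σ (i + 1)
      · rcases h.1 i (by omega) with e | e
        · simp only [cb, e, e2, if_true] at hj
          linarith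
        · exact ⟨hn, e2, by omega, fun i' hi => by have : i = i' := by omega
                                                   subst this; exact e⟩
      · simp only [cb, e2, if_false] at hj
        split_ifs at hj <;> linarith
  · simp [hn] at hj

lemma Lad.mv_adm (L : Lad q α β γ δ ρ k s) (h : Adm n k σ) (j : ℕ) :
    Adm n k (mv n q α γ ρ s σ j) := by
  unfold mv
  split_ifs with h1 h2
  · obtain ⟨a1, a2, a3⟩ := L.kap_pos h h1
    refine ⟨fun i hi => ?_, by rw [update_of_ne (by omega)]; exact h.2⟩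
    by_cases e1 : i = j
    · subst e1; left; rw [update_of_ne (by omega), update_self]; exact a2
    · by_cases e2 : i + 1 = j
      · right; rw [e2, update_self, update_of_ne e1, a3 i e2.symm]
      · rw [update_of_ne e1, update_of_ne e2]; exact h.1 i hi
  · obtain ⟨a1, a2, a3, a4⟩ := L.kap_neg h h2
    refine ⟨fun i hi => ?_, by rw [update_of_ne (by omega)]; exact h.2⟩
    by_cases e1 : i = j
    · subst e1; right; rw [update_of_ne (by omega), update_self]; omega
    · by_cases e2 : i + 1 = j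
      · left; rw [e2, update_self, update_of_ne e1, a4 i e2.symm]; omega
      · rw [update_of_ne e1, update_of_ne e2]; exact h.1 i hi
  · exact h

lemma mv_of_ne (n : ℕ) (q α γ ρ s : ℝ) (σ : ℕ → ℕ) {i j : ℕ} (h : i ≠ j) :
    mv n q α γ ρ s σ j i = σ i := by
  unfold mv; split_ifs <;> simp [h]

/-- The move changes the level by one in the direction of `kap`. -/
lemma Lad.mv_self (L : Lad q α β γ δ ρ k s) (h : Adm n k σ) (j : ℕ) :
    |kap n q α γ ρ s σ j| * ((mv n q α γ ρ s σ j j : ℝ) - σ j) = kap n q α γ ρ s σ j ∧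
      ((mv n q α γ ρ s σ j j : ℝ) - σ j) ^ 2 ≤ 1 := by
  unfold mv
  split_ifs with h1 h2
  · simp [abs_of_pos h1]
  · obtain ⟨-, -, a3, -⟩ := L.kap_neg h h2
    simp [abs_of_neg h2, Nat.cast_sub a3]
  · have : kap n q α γ ρ s σ j = 0 := le_antisymm (not_lt.1 h1) (not_lt.1 h2)
    simp [this]

lemma sum_mv (n : ℕ) (q α γ ρ s : ℝ) (σ : ℕ → ℕ) (F : ℕ → ℕ → ℝ) {j : ℕ} (hj : j < n + 1) :
    ∑ i ∈ range (n + 1), F i (mv n q α γ ρ s σ j i)
      = ∑ i ∈ range (n + 1), F i (σ i) + (F j (mv n q α γ ρ s σ j j) - F j (σ j)) := by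
  have : ∀ i ∈ range (n + 1), F i (mv n q α γ ρ s σ j i)
      = F i (σ i) + if i = j then F j (mv n q α γ ρ s σ j j) - F j (σ j) else 0 := by
    intro i _
    by_cases e : i = j
    · subst e; simp
    · simp [e, mv_of_ne n q α γ ρ s σ e]
  rw [Finset.sum_congr rfl this, Finset.sum_add_distrib, Finset.sum_ite_eq']
  simp [hj]

lemma sum_kap (n : ℕ) (q α γ ρ s : ℝ) (σ : ℕ → ℕ) :
    ∑ j ∈ range (n + 1), kap n q α γ ρ s σ j = cb q α γ ρ s σ 0 - cb q α γ ρ s σ n := by
  rw [Finset.sum_range_succ, ← Finset.sum_range_sub']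
  have : ∀ j ∈ range n, kap n q α γ ρ s σ j = cb q α γ ρ s σ j - cb q α γ ρ s σ (j + 1) := by
    intro j hj; simp [kap, Finset.mem_range.1 hj]
  rw [Finset.sum_congr rfl this]
  simp [kap]

lemma abel_aux (c : ℕ → ℝ) (n : ℕ) : ∑ j ∈ range n, (2 * (j : ℝ) + 1) * (c j - c (j + 1))
    = c 0 + 2 * ∑ b ∈ range n, c (b + 1) - (2 * n + 1) * c n := by
  induction n with
  | zero => simp
  | succ n ih => rw [Finset.sum_range_succ, Finset.sum_range_succ, ih]; push_cast; ring

lemma sum_kap_wt (n : ℕ) (q α γ ρ s : ℝ) (σ : ℕ → ℕ) :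
    ∑ j ∈ range (n + 1), (2 * (j : ℝ) + 1) * kap n q α γ ρ s σ j
      = cb q α γ ρ s σ 0 + 2 * ∑ b ∈ range n, cb q α γ ρ s σ (b + 1)
        - (2 * n + 1) * cb q α γ ρ s σ n := by
  rw [Finset.sum_range_succ, ← abel_aux]
  have : ∀ j ∈ range n, (2 * (j : ℝ) + 1) * kap n q α γ ρ s σ j
      = (2 * (j : ℝ) + 1) * (cb q α γ ρ s σ j - cb q α γ ρ s σ (j + 1)) := by
    intro j hj; simp [kap, Finset.mem_range.1 hj]
  rw [Finset.sum_congr rfl this]
  simp [kap]

lemma Adm.sum_sh (h : Adm n k σ) {m : ℕ} (hm : m ≤ n) :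
    ∑ j ∈ range m, ((σ (j + 1) : ℝ) - σ j) ≤ k := by
  rw [Finset.sum_range_sub (fun j => (σ j : ℝ))]
  have h1 : (σ m : ℝ) ≤ k := by exact_mod_cast h.le hm
  have h2 : (0 : ℝ) ≤ σ 0 := Nat.cast_nonneg _
  linarith

lemma Lad.sum_abs_kap (L : Lad q α β γ δ ρ k s) (h : Adm n k σ) :
    ∑ j ∈ range (n + 1), |kap n q α γ ρ s σ j| ≤ 1 + 2 * k := by
  have hp := L.toCoex.cur_pos
  have A : ∀ j, j < n → |cur q (lev ρ s (σ j)) (lev ρ s (σ j)) - cb q α γ ρ s σ (j + 1)|
      ≤ (σ (j + 1) : ℝ) - σ j := by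
    intro j hj
    have a1 := L.cur_lev_ge (h.le hj.le)
    have a2 := L.cur_lev_le (h.le hj.le)
    rcases h.1 j hj with e | e
    · simp [cb, e]
    · simp only [cb, e, Nat.add_eq_left, one_ne_zero, if_false, sub_zero]
      rw [abs_of_nonneg (by linarith)]; push_cast; linarith
  have B : ∀ j, j < n →
      |cb q α γ ρ s σ (j + 1) - cur q (lev ρ s (σ (j + 1))) (lev ρ s (σ (j + 1)))|
      ≤ (σ (j + 1) : ℝ) - σ j := by
    intro j hj
    have a1 := L.cur_lev_ge (h.le (by omega : j + 1 ≤ n))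
    have a2 := L.cur_lev_le (h.le (by omega : j + 1 ≤ n))
    rcases h.1 j hj with e | e
    · simp [cb, e]
    · have e' : ¬ σ (j + 1) = σ j := by omega
      simp only [cb, e', if_false, zero_sub, abs_neg]
      rw [abs_of_nonneg (by linarith)]
      have : (σ (j + 1) : ℝ) = σ j + 1 := by exact_mod_cast e
      linarith
  have C : |cb q α γ ρ s σ 0 - cur q (lev ρ s (σ 0)) (lev ρ s (σ 0))| ≤ 1 := by
    have a1 := L.cur_lev_ge (h.le (Nat.zero_le n))
    have a2 := L.cur_lev_le (h.le (Nat.zero_le n))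
    have a3 := L.cb_zero_le σ
    have a4 := cb_zero_nonneg q α γ ρ s σ
    rw [abs_le]; constructor <;> linarith
  have D : ∀ j ∈ range n, |kap n q α γ ρ s σ j|
      ≤ |cb q α γ ρ s σ j - cur q (lev ρ s (σ j)) (lev ρ s (σ j))| + ((σ (j + 1) : ℝ) - σ j) := by
    intro j hj
    have hj' := Finset.mem_range.1 hj
    simp only [kap, hj', if_true]
    have := abs_sub_le (cb q α γ ρ s σ j) (cur q (lev ρ s (σ j)) (lev ρ s (σ j)))
      (cb q α γ ρ s σ (j + 1))
    linarith [A j hj']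
  have E : ∑ j ∈ range (n + 1), |cb q α γ ρ s σ j - cur q (lev ρ s (σ j)) (lev ρ s (σ j))|
      ≤ 1 + k := by
    rw [Finset.sum_range_succ']
    have := Finset.sum_le_sum fun j hj => B j (Finset.mem_range.1 hj)
    linarith [h.sum_sh le_rfl]
  rw [Finset.sum_range_succ] at E ⊢
  have F := Finset.sum_le_sum D
  rw [Finset.sum_add_distrib] at F
  have G : |kap n q α γ ρ s σ n| = 0 := by simp [kap]
  have := abs_nonneg (cb q α γ ρ s σ n - cur q (lev ρ s (σ n)) (lev ρ s (σ n)))
  linarith [h.sum_sh le_rfl]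

/-- Mass deficit of a profile. -/
noncomputable def Ym (n k : ℕ) (s : ℝ) (σ : ℕ → ℕ) : ℝ :=
  ∑ j ∈ range (n + 1), s * ((k : ℝ) - σ j)

/-- Spread of the shock positions. -/
noncomputable def Vm (n k : ℕ) (s : ℝ) (σ : ℕ → ℕ) : ℝ :=
  ∑ j ∈ range (n + 1), (2 * (j : ℝ) + 1) * (s * ((k : ℝ) - σ j)) - Ym n k s σ ^ 2 / (k * s)

lemma sq_sum_le (y : ℕ → ℝ) (D : ℝ) (m : ℕ) (h : ∀ j, j < m → 0 ≤ y j ∧ y j ≤ D) :
    (∑ j ∈ range m, y j ≤ m * D) ∧
      (∑ j ∈ range m, y j) ^ 2 ≤ D * ∑ j ∈ range m, (2 * (j : ℝ) + 1) * y j := by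
  induction m with
  | zero => simp
  | succ m ih =>
    obtain ⟨a1, a2⟩ := ih fun j hj => h j (by omega)
    obtain ⟨b1, b2⟩ := h m (by omega)
    rw [Finset.sum_range_succ, Finset.sum_range_succ]
    push_cast
    constructor
    · linarith
    · have c1 := mul_le_mul_of_nonneg_left a1 b1
      have c2 := mul_le_mul_of_nonneg_left b2 b1
      nlinarith

lemma Lad.ks_pos (L : Lad q α β γ δ ρ k s) : 0 < (k : ℝ) * s := by
  rw [L.hk]; have := L.hρ1; linarith

lemma Lad.y_mem (L : Lad q α β γ δ ρ k s) (h : Adm n k σ) {j : ℕ} (hj : j ≤ n) :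
    0 ≤ s * ((k : ℝ) - σ j) ∧ s * ((k : ℝ) - σ j) ≤ k * s := by
  have h1 : (σ j : ℝ) ≤ k := by exact_mod_cast h.le hj
  have h2 : (0 : ℝ) ≤ σ j := Nat.cast_nonneg _
  have := L.hs
  constructor <;> nlinarith

lemma Lad.Vm_nonneg (L : Lad q α β γ δ ρ k s) (h : Adm n k σ) : 0 ≤ Vm n k s σ := by
  have := (sq_sum_le (fun j => s * ((k : ℝ) - σ j)) (k * s) (n + 1)
    (fun j hj => L.y_mem h (by omega))).2
  unfold Vm Ym
  rw [sub_nonneg, div_le_iff₀ L.ks_pos]
  linarith

lemma Adm.Ym_eq (h : Adm n k σ) : Ym n k s σ = ∑ j ∈ range n, s * ((k : ℝ) - σ j) := by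
  unfold Ym; rw [Finset.sum_range_succ, h.2]; simp

lemma Lad.Ym_mem (L : Lad q α β γ δ ρ k s) (h : Adm n k σ) :
    0 ≤ Ym n k s σ ∧ Ym n k s σ ≤ n * (k * s) := by
  rw [h.Ym_eq]
  exact ⟨Finset.sum_nonneg fun j hj => (L.y_mem h (Finset.mem_range.1 hj).le).1,
    (sq_sum_le (fun j => s * ((k : ℝ) - σ j)) (k * s) n (fun j hj => L.y_mem h hj.le)).1⟩

lemma Ym_mv (k : ℕ) {j : ℕ} (hj : j < n + 1) : Ym n k s (mv n q α γ ρ s σ j)
    = Ym n k s σ - s * ((mv n q α γ ρ s σ j j : ℝ) - σ j) := by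
  unfold Ym
  rw [sum_mv n q α γ ρ s σ (fun _ a => s * ((k : ℝ) - a)) hj]; ring

lemma Lad.Vm_mv (L : Lad q α β γ δ ρ k s) {j : ℕ} (hj : j < n + 1) :
    Vm n k s (mv n q α γ ρ s σ j) - Vm n k s σ
      ≤ (2 * Ym n k s σ / (k * s) - (2 * j + 1)) * (s * ((mv n q α γ ρ s σ j j : ℝ) - σ j)) := by
  unfold Vm
  rw [sum_mv n q α γ ρ s σ (fun i a => (2 * (i : ℝ) + 1) * (s * ((k : ℝ) - a))) hj, Ym_mv k hj]
  set t := s * ((mv n q α γ ρ s σ j j : ℝ) - σ j) with ht
  have hp := L.ks_pos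
  have : 0 ≤ t ^ 2 / (k * s) := by positivity
  have e : (Ym n k s σ - t) ^ 2 / (k * s)
      = Ym n k s σ ^ 2 / (k * s) - 2 * Ym n k s σ / (k * s) * t + t ^ 2 / (k * s) := by ring
  rw [e]
  have e2 : (2 * (j : ℝ) + 1) * (s * ((k : ℝ) - mv n q α γ ρ s σ j j))
      - (2 * (j : ℝ) + 1) * (s * ((k : ℝ) - σ j)) = -(2 * j + 1) * t := by rw [ht]; ring
  linarith

lemma Lad.cb_last_le (L : Lad q α β γ δ ρ k s) (h : Adm n k σ) :
    cb q α γ ρ s σ n ≤ cur q ρ ρ := by
  rcases n with _ | m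
  · exact L.cb_zero_le σ
  · simp only [cb]
    split_ifs with e
    · rw [← e, h.2, L.lev_top, cur_self, cur_self]; exact le_of_eq (by ring)
    · exact L.toCoex.cur_pos.le

/-- Drift of the spread. -/
lemma Lad.drift_V (L : Lad q α β γ δ ρ k s) (h : Adm n k σ) :
    ∑ j ∈ range (n + 1), |kap n q α γ ρ s σ j| / s * (Vm n k s (mv n q α γ ρ s σ j) - Vm n k s σ)
      ≤ 1 + 4 * k - (if σ 0 = 0 then 0 else 2 * (1 - q) * s * Ym n k s σ) := by
  have hs := L.hs
  have hp := L.ks_pos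
  have hJ := L.toCoex.cur_pos
  have hJ1 : cur q ρ ρ ≤ 1 := by
    have := L.cur_lev_le (Nat.zero_le k); simpa [lev] using this
  have A : ∀ j ∈ range (n + 1),
      |kap n q α γ ρ s σ j| / s * (Vm n k s (mv n q α γ ρ s σ j) - Vm n k s σ)
      ≤ 2 * Ym n k s σ / (k * s) * kap n q α γ ρ s σ j
        - (2 * (j : ℝ) + 1) * kap n q α γ ρ s σ j := by
    intro j hj
    have a1 := mul_le_mul_of_nonneg_left (L.Vm_mv (σ := σ) (Finset.mem_range.1 hj))
      (show 0 ≤ |kap n q α γ ρ s σ j| / s by positivity)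
    refine a1.trans (le_of_eq ?_)
    have a2 := (L.mv_self h j).1
    calc _ = (2 * Ym n k s σ / (k * s) - (2 * j + 1))
          * (|kap n q α γ ρ s σ j| * ((mv n q α γ ρ s σ j j : ℝ) - σ j)) := by field_simp
      _ = _ := by rw [a2]; ring
  refine (Finset.sum_le_sum A).trans ?_
  rw [Finset.sum_sub_distrib, ← Finset.mul_sum, sum_kap, sum_kap_wt]
  obtain ⟨y0, y1⟩ := L.Ym_mem h
  have x0 : 0 ≤ Ym n k s σ / (k * s) := by positivity
  have x1 : Ym n k s σ / (k * s) ≤ n := by rw [div_le_iff₀ hp]; exact y1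
  have c0 := L.cb_zero_le σ
  have c1 := cb_zero_nonneg q α γ ρ s σ
  have c2 := L.cb_last_le h
  have B : 2 * Ym n k s σ / (k * s) * (cb q α γ ρ s σ 0 - cb q α γ ρ s σ n) - cb q α γ ρ s σ 0
      + (2 * n + 1) * cb q α γ ρ s σ n ≤ (2 * n + 1) * cur q ρ ρ := by
    have e : 2 * Ym n k s σ / (k * s) = 2 * (Ym n k s σ / (k * s)) := by ring
    rw [e]
    have d1 := mul_le_mul_of_nonneg_left c0 x0
    have d2 := mul_le_mul_of_nonneg_left c2
      (show 0 ≤ 2 * (n : ℝ) + 1 - 2 * (Ym n k s σ / (k * s)) by linarith)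
    nlinarith
  have C : ∀ b ∈ range n, cur q ρ ρ - cb q α γ ρ s σ (b + 1)
      ≤ 2 * ((σ (b + 1) : ℝ) - σ b)
        - (if σ 0 = 0 then 0 else (1 - q) * s * (s * ((k : ℝ) - σ b))) := by
    intro b hb
    have hb' := Finset.mem_range.1 hb
    obtain ⟨z0, z1⟩ := L.y_mem h hb'.le
    have q0 := L.hq; have q1 := L.hq1
    rcases h.1 b hb' with e | e
    · simp only [cb, e, if_true, sub_self, mul_zero, zero_sub]
      split_ifs with e0
      · have := L.cur_lev_ge (h.le hb'.le); linarith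
      · rw [L.cur_lev]
        have g1 : (1 : ℝ) ≤ σ b := by
          have := h.mono (Nat.zero_le b) hb'.le
          exact_mod_cast (by omega : 1 ≤ σ b)
        have g2 : 0 ≤ (1 - q) * s * (s * ((k : ℝ) - σ b)) * (σ b - 1) :=
          mul_nonneg (mul_nonneg (mul_nonneg (by linarith) hs.le) z0) (by linarith)
        nlinarith
    · have e' : ¬ σ (b + 1) = σ b := by omega
      have e2 : (σ (b + 1) : ℝ) = σ b + 1 := by exact_mod_cast e
      simp only [cb, e', if_false, sub_zero, e2]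
      split_ifs with e0
      · linarith
      · have g0 : (k : ℝ) * s ≤ 1 := by rw [L.hk]; have := L.hρ; linarith
        have g1 : (1 - q) * s ≤ 1 := by have := L.hsJ; nlinarith
        have g2 : (1 - q) * s * (s * ((k : ℝ) - σ b)) ≤ 1 * 1 :=
          mul_le_mul g1 (z1.trans g0) z0 zero_le_one
        linarith
  have D := Finset.sum_le_sum C
  rw [Finset.sum_sub_distrib, Finset.sum_sub_distrib, ← Finset.mul_sum] at D
  simp only [Finset.sum_const, Finset.card_range, nsmul_eq_mul] at D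
  have E := h.sum_sh le_rfl
  split_ifs with e0
  · simp only [e0, if_true, Finset.sum_const_zero] at D
    linarith
  · simp only [e0, if_false] at D
    rw [← Finset.mul_sum, ← h.Ym_eq] at D
    linarith

lemma phi_step (l y t : ℝ) (hl : 0 < l) :
    -(max (l - y) 0) ^ 2 / (2 * l) - max (l - y) 0 / l * t - t ^ 2 / (2 * l)
      ≤ -(max (l - (y - t)) 0) ^ 2 / (2 * l) := by
  have key : (max (l - (y - t)) 0) ^ 2 ≤ (max (l - y) 0 + t) ^ 2 ∨
      (max (l - (y - t)) 0 = 0) := by
    by_cases h : l - (y - t) ≤ 0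
    · right; exact max_eq_right h
    · left
      rw [max_eq_left (not_le.1 h).le]
      have := le_max_left (l - y) 0
      exact pow_le_pow_left₀ (not_le.1 h).le (by linarith) 2
  have e : -(max (l - y) 0) ^ 2 / (2 * l) - max (l - y) 0 / l * t - t ^ 2 / (2 * l)
      = -(max (l - y) 0 + t) ^ 2 / (2 * l) := by field_simp; ring
  rw [e]
  refine div_le_div_of_nonneg_right (neg_le_neg ?_) (by positivity)
  rcases key with h | h
  · exact h
  · rw [h]; simpa using sq_nonneg _

/-- Drift of the concave function of the mass deficit. -/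
lemma Lad.drift_phi (L : Lad q α β γ δ ρ k s) (h : Adm n k σ) {l : ℝ} (hl : 0 < l)
    (hln : l ≤ n * s) :
    (if σ 0 = 0 then 0 else (1 - Ym n k s σ / l) * (cur q ρ ρ - cb q α γ ρ s σ 0))
      - (1 + 2 * k) * s / (2 * l)
    ≤ ∑ j ∈ range (n + 1), |kap n q α γ ρ s σ j| / s *
        (-(max (l - Ym n k s (mv n q α γ ρ s σ j)) 0) ^ 2 / (2 * l)
          - -(max (l - Ym n k s σ) 0) ^ 2 / (2 * l)) := by
  have hs := L.hs
  set Y := Ym n k s σ with hY
  have A : ∀ j ∈ range (n + 1),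
      -(max (l - Y) 0 / l) * kap n q α γ ρ s σ j - s / (2 * l) * |kap n q α γ ρ s σ j|
      ≤ |kap n q α γ ρ s σ j| / s *
        (-(max (l - Ym n k s (mv n q α γ ρ s σ j)) 0) ^ 2 / (2 * l)
          - -(max (l - Y) 0) ^ 2 / (2 * l)) := by
    intro j hj
    rw [Ym_mv k (Finset.mem_range.1 hj)]
    obtain ⟨a2, a3⟩ := L.mv_self h j
    set e := (mv n q α γ ρ s σ j j : ℝ) - σ j with he
    have a1 := phi_step l Y (s * e) hl
    have a4 : (s * e) ^ 2 / (2 * l) ≤ s ^ 2 / (2 * l) := by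
      refine div_le_div_of_nonneg_right ?_ (by positivity)
      rw [mul_pow]; exact mul_le_of_le_one_right (sq_nonneg s) a3
    have a5 : -(max (l - Y) 0 / l * (s * e)) - s ^ 2 / (2 * l)
        ≤ -(max (l - (Y - s * e)) 0) ^ 2 / (2 * l) - -(max (l - Y) 0) ^ 2 / (2 * l) := by
      linarith
    refine le_trans (le_of_eq ?_) (mul_le_mul_of_nonneg_left a5 (by positivity))
    calc _ = -(max (l - Y) 0 / l) * (|kap n q α γ ρ s σ j| * e)
          - s / (2 * l) * |kap n q α γ ρ s σ j| := by rw [a2]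
      _ = _ := by field_simp
  refine le_trans ?_ (Finset.sum_le_sum A)
  rw [Finset.sum_sub_distrib, ← Finset.mul_sum, ← Finset.mul_sum, sum_kap]
  have B := mul_le_mul_of_nonneg_left (L.sum_abs_kap h) (show 0 ≤ s / (2 * l) by positivity)
  have C : max (l - Y) 0 / l * (cur q ρ ρ - cb q α γ ρ s σ n) = 0 := by
    rcases n with _ | m
    · simp at hln; linarith
    · simp only [cb]
      split_ifs with e
      · rw [← e, h.2, L.lev_top, cur_self, cur_self]; ring
      · have a1 : σ m + 1 = k := by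
          rcases h.1 m (by omega) with e2 | e2
          · exact absurd e2 e
          · rw [← e2, h.2]
        have a2 : ∑ _j ∈ range (m + 1), s ≤ Y := by
          rw [hY, h.Ym_eq]
          refine Finset.sum_le_sum fun j hj => ?_
          have b1 : σ j + 1 ≤ k := by
            have := h.mono (show j ≤ m by have := Finset.mem_range.1 hj; omega) (by omega)
            omega
          have b2 : (σ j : ℝ) + 1 ≤ k := by exact_mod_cast b1
          nlinarith
        simp only [Finset.sum_const, Finset.card_range, nsmul_eq_mul] at a2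
        rw [max_eq_right (by linarith)]; simp
  have D : (if σ 0 = 0 then 0 else (1 - Y / l) * (cur q ρ ρ - cb q α γ ρ s σ 0))
      ≤ max (l - Y) 0 / l * (cur q ρ ρ - cb q α γ ρ s σ 0) := by
    have c0 := sub_nonneg.2 (L.cb_zero_le σ)
    split_ifs
    · have := le_max_right (l - Y) 0
      positivity
    · refine mul_le_mul_of_nonneg_right ?_ c0
      rw [le_div_iff₀ hl]
      have := le_max_left (l - Y) 0
      have e : (1 - Y / l) * l = l - Y := by field_simp
      linarith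
  have e3 : (1 + 2 * (k : ℝ)) * s / (2 * l) = s / (2 * l) * (1 + 2 * k) := by ring
  linarith

/-- The Lyapunov function. -/
noncomputable def Fm (n k : ℕ) (q γ ρ s l : ℝ) (σ : ℕ → ℕ) : ℝ :=
  (cur q ρ ρ + γ) / cur q ρ ρ * (-(max (l - Ym n k s σ) 0) ^ 2 / (2 * l))
    - (cur q ρ ρ + γ) / (2 * (1 - q) * s * l) * Vm n k s σ

/-- The constant in the drift bound. -/
noncomputable def Cm (k : ℕ) (q γ ρ s : ℝ) : ℝ :=
  (cur q ρ ρ + γ) / cur q ρ ρ * ((1 + 2 * k) * s / 2)
    + (cur q ρ ρ + γ) / (2 * (1 - q) * s) * (1 + 4 * k)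

lemma Lad.Fm_nonpos (L : Lad q α β γ δ ρ k s) (h : Adm n k σ) {l : ℝ} (hl : 0 < l) :
    Fm n k q γ ρ s l σ ≤ 0 := by
  have hJ := L.toCoex.cur_pos
  have := L.hγ; have := L.hs
  have h1 : 0 < 1 - q := by have := L.hq1; linarith
  have hV := L.Vm_nonneg h
  unfold Fm
  have a1 : 0 ≤ (cur q ρ ρ + γ) / cur q ρ ρ * ((max (l - Ym n k s σ) 0) ^ 2 / (2 * l)) := by
    positivity
  have a2 : 0 ≤ (cur q ρ ρ + γ) / (2 * (1 - q) * s * l) * Vm n k s σ := by positivity
  rw [neg_div, mul_neg]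
  linarith

lemma Lad.drift_F (L : Lad q α β γ δ ρ k s) (h : Adm n k σ) {l : ℝ} (hl : 0 < l)
    (hln : l ≤ n * s) :
    cur q ρ ρ - Cm k q γ ρ s / l
      ≤ (α * (1 - lev ρ s (σ 0)) - γ * lev ρ s (σ 0))
        + ∑ j ∈ range (n + 1), |kap n q α γ ρ s σ j| / s *
          (Fm n k q γ ρ s l (mv n q α γ ρ s σ j) - Fm n k q γ ρ s l σ) := by
  have hJ := L.toCoex.cur_pos
  have hγ := L.hγ; have hs := L.hs
  have h1 : 0 < 1 - q := by have := L.hq1; linarith
  set J := cur q ρ ρ with hJdef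
  set A := (J + γ) / J with hA
  set κ := (J + γ) / (2 * (1 - q) * s * l) with hκ
  have A0 : 0 ≤ A := by positivity
  have κ0 : 0 ≤ κ := by positivity
  have P := mul_le_mul_of_nonneg_left (L.drift_phi h hl hln) A0
  have V := mul_le_mul_of_nonneg_left (L.drift_V h) κ0
  have e : ∑ j ∈ range (n + 1), |kap n q α γ ρ s σ j| / s *
          (Fm n k q γ ρ s l (mv n q α γ ρ s σ j) - Fm n k q γ ρ s l σ)
      = A * ∑ j ∈ range (n + 1), |kap n q α γ ρ s σ j| / s *
        (-(max (l - Ym n k s (mv n q α γ ρ s σ j)) 0) ^ 2 / (2 * l)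
          - -(max (l - Ym n k s σ) 0) ^ 2 / (2 * l))
        - κ * ∑ j ∈ range (n + 1), |kap n q α γ ρ s σ j| / s *
          (Vm n k s (mv n q α γ ρ s σ j) - Vm n k s σ) := by
    rw [Finset.mul_sum, Finset.mul_sum, ← Finset.sum_sub_distrib]
    refine Finset.sum_congr rfl fun j _ => ?_
    unfold Fm
    rw [← hJdef, ← hA, ← hκ]; ring
  rw [e]
  have eC : Cm k q γ ρ s / l = A * ((1 + 2 * k) * s / (2 * l)) + κ * (1 + 4 * k) := by
    unfold Cm; rw [← hJdef, hA, hκ]; field_simp
  rw [eC]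
  by_cases e0 : σ 0 = 0
  · simp only [e0, if_true] at P V
    have := L.hL
    simp only [e0, lev, Nat.cast_zero, mul_zero, add_zero]
    linarith
  · simp only [e0, if_false] at P V
    obtain ⟨y0, -⟩ := L.Ym_mem h
    set Y := Ym n k s σ with hY
    set c := α * (1 - lev ρ s (σ 0)) - γ * lev ρ s (σ 0) with hc
    have c0 : cb q α γ ρ s σ 0 = max c 0 := rfl
    have c1 : c ≤ J := L.c0_le _
    have c2 : -γ ≤ c := by
      have b1 := L.lev_le (h.le (Nat.zero_le n))
      have := L.hρ; have := L.hα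
      have b2 : 0 ≤ α * (1 - lev ρ s (σ 0)) := mul_nonneg (by linarith) (by linarith)
      have b3 : 0 ≤ γ * (1 - lev ρ s (σ 0)) := mul_nonneg hγ (by linarith)
      rw [hc]; linarith
    have AJ : A * J = J + γ := by rw [hA]; field_simp
    have A1 : 1 ≤ A := by rw [hA, le_div_iff₀ hJ]; linarith
    have d1 : J - c ≤ A * (J - max c 0) := by
      rcases le_total c 0 with g | g
      · rw [max_eq_right g, sub_zero, AJ]; linarith
      · rw [max_eq_left g]; nlinarith
    have d2 : A * (Y / l * (J - max c 0)) ≤ κ * (2 * (1 - q) * s * Y) := by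
      have g1 : κ * (2 * (1 - q) * s * Y) = A * (Y / l * J) := by
        rw [hκ, hA]; field_simp
      rw [g1]
      refine mul_le_mul_of_nonneg_left (mul_le_mul_of_nonneg_left ?_ (by positivity)) A0
      have := le_max_right c 0; linarith
    rw [c0] at P
    nlinarith

end Pool.Agent.Lib.MP_2842de_pr
end

-- part Pool.Agent.Lib.MP_2842de_pr.Lower
section

/-! Memory of the initial mass on the diffusive time scale. -/

namespace Pool.Agent.Lib.MP_2842de_pr

open Finset Function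

variable {n k : ℕ} {q α β γ δ ρ s : ℝ} {σ : ℕ → ℕ}

/-- Density profile of a level profile. -/
def prof (n : ℕ) (ρ s : ℝ) (σ : ℕ → ℕ) : Fin (n + 1) → ℝ := fun i => lev ρ s (σ i.val)

lemma Lad.prof_mem (L : Lad q α β γ δ ρ k s) (h : Adm n k σ) (i : Fin (n + 1)) :
    0 ≤ prof n ρ s σ i ∧ prof n ρ s σ i ≤ 1 := by
  have h1 := L.lev_ge (σ i.val)
  have h2 := L.lev_le (h.le (show i.val ≤ n by have := i.isLt; omega))
  have := L.hρ
  unfold prof
  constructor <;> linarith

lemma G1_shift (r : Fin (n + 1) → ℝ) {W : St n → ℝ} (c : ℤ)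
    (hW : ∀ η, W (c, η) = W (0, η) + c) (b : Bool) :
    G1 r 0 (fun η => W (c, η)) b = G1 r 0 (fun η => W (0, η)) b + c := by
  unfold G1
  simp only [hW]
  rw [Ex_add, Ex_const]

lemma Lad.gen_lower (L : Lad q α β γ δ ρ k s) (h : Adm n k σ) (x : ℝ) {W : St n → ℝ}
    (hW : ∀ s s', hle s s' → W s ≤ W s') (hsh : ∀ (c : ℤ) η, W (c, η) = W (0, η) + c) :
    (α * (1 - lev ρ s (σ 0)) - γ * lev ρ s (σ 0))
      + ∑ j : Fin (n + 1), kap n q α γ ρ s σ j.val * D1 (prof n ρ s σ) j (fun η => W (0, η))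
      ≤ Ex (prof n ρ s σ) (fun η => genS x q α β γ δ W (0, η)) := by
  have hr := L.prof_mem h
  rw [Ex_genS, G1_shift _ _ (hsh _), G1_shift _ (0 - 1) (hsh _)]
  set r := prof n ρ s σ with hrdef
  set D : Fin (n + 1) → ℝ := fun j => D1 r j (fun η => W (0, η)) with hD
  have D0 : ∀ j, D j ≤ 0 := fun j => D1_nonpos hr hW 0 j
  have A : ∀ i : Fin n, cb q α γ ρ s σ (i.val + 1) * (D i.succ - D i.castSucc)
      ≤ cur q (r i.castSucc) (r i.succ) *
          (G2 r i.castSucc i.succ (fun η => W (0, η)) false true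
            - G2 r i.castSucc i.succ (fun η => W (0, η)) true false) := by
    intro i
    have e1 : r i.castSucc = lev ρ s (σ i.val) := rfl
    have e2 : r i.succ = lev ρ s (σ (i.val + 1)) := rfl
    rcases h.1 i.val i.isLt with e | e
    · rw [G2_flat r i _ (by rw [e1, e2, e]), e1, e2]
      simp only [cb, e, if_true]
      exact le_rfl
    · have e' : ¬ σ (i.val + 1) = σ i.val := by omega
      simp only [cb, e', if_false, zero_mul]
      refine mul_nonneg ?_ (G2_move hr hW 0 i)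
      rw [e1, e2, e]
      exact L.cur_shock (h.le i.isLt.le)
  have B := Finset.sum_le_sum fun i (_ : i ∈ univ) => A i
  have S1 := Fin.sum_univ_succ (fun j : Fin (n + 1) => cb q α γ ρ s σ j.val * D j)
  have S2 := Fin.sum_univ_castSucc (fun j : Fin (n + 1) => cb q α γ ρ s σ j.val * D j)
  have S3 := Fin.sum_univ_castSucc (fun j : Fin (n + 1) => kap n q α γ ρ s σ j.val * D j)
  have S4 : ∑ i : Fin n, kap n q α γ ρ s σ i.castSucc.val * D i.castSucc
      = ∑ i : Fin n, cb q α γ ρ s σ i.castSucc.val * D i.castSucc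
        - ∑ i : Fin n, cb q α γ ρ s σ (i.val + 1) * D i.castSucc := by
    rw [← Finset.sum_sub_distrib]
    refine Finset.sum_congr rfl fun i _ => ?_
    simp only [kap, Fin.val_castSucc, i.isLt, if_true]; ring
  have S5 : kap n q α γ ρ s σ (Fin.last n).val = 0 := by simp [kap]
  simp only [mul_sub, Finset.sum_sub_distrib] at B
  simp only [Fin.val_succ, Fin.val_zero, Fin.val_last] at S1 S2
  rw [S4, S5] at S3
  have r0 : r 0 = lev ρ s (σ 0) := rfl
  have rl : r (Fin.last n) = 1 - ρ := by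
    change lev ρ s (σ n) = _
    rw [h.2, L.lev_top]
  have c0 : α * (1 - lev ρ s (σ 0)) - γ * lev ρ s (σ 0) ≤ cb q α γ ρ s σ 0 := le_max_left _ _
  have t0 := mul_le_mul_of_nonpos_right c0 (D0 0)
  have t1 := mul_le_mul_of_nonpos_right (L.cb_last_le h) (D0 (Fin.last n))
  have hR := L.hR
  have dd : D 0 = G1 r 0 (fun η => W (0, η)) true - G1 r 0 (fun η => W (0, η)) false := rfl
  change _ + ∑ j : Fin (n + 1), kap n q α γ ρ s σ j.val * D j ≤ _ - _ * D (Fin.last n)
  rw [S3, r0, rl]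
  simp only [mul_sub, Finset.sum_sub_distrib]
  rw [dd] at t0 S1
  rw [← hR] at t1
  push_cast
  linarith

lemma Lad.kap_D1 (L : Lad q α β γ δ ρ k s) (h : Adm n k σ) (g : Cfg n → ℝ) (j : Fin (n + 1)) :
    kap n q α γ ρ s σ j.val * D1 (prof n ρ s σ) j g
      = |kap n q α γ ρ s σ j.val| / s *
        (Ex (prof n ρ s (mv n q α γ ρ s σ j.val)) g - Ex (prof n ρ s σ) g) := by
  have e : prof n ρ s (mv n q α γ ρ s σ j.val)
      = update (prof n ρ s σ) j (lev ρ s (mv n q α γ ρ s σ j.val j.val)) := by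
    funext i
    by_cases hi : i = j
    · subst hi; simp [prof]
    · rw [update_of_ne hi]
      unfold prof
      rw [mv_of_ne _ _ _ _ _ _ _ (fun e => hi (Fin.ext e))]
  rw [e, Ex_update]
  have a := (L.mv_self h j.val).1
  have hs := L.hs
  calc _ = (|kap n q α γ ρ s σ j.val| * ((mv n q α γ ρ s σ j.val j.val : ℝ) - σ j.val))
        * D1 (prof n ρ s σ) j g := by rw [a]
    _ = _ := by unfold prof lev; field_simp; ring

lemma cnt_shift {w : Mv n → ℝ} (h1 : ∑ m, w m = 1) {f : St n → ℝ}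
    (hf : ∀ (h c : ℤ) η, f (h + c, η) = f (h, η) + c) (m : ℕ) (c : ℤ) (η : Cfg n) :
    iter w actS m f (c, η) = iter w actS m f (0, η) + c := by
  have := iter_shift w f c m (0, η)
  simp only [zero_add] at this
  rw [← this]
  have e : (fun s : St n => f (s.1 + c, s.2)) = fun s => f s + (fun _ => (c : ℝ)) s := by
    funext s; exact hf s.1 c s.2
  rw [e, iter_add, iter_const h1]

/-- Lower bound on the mean inflow started from a multi-shock law. -/
lemma Lad.inflow_lower (L : Lad q α β γ δ ρ k s) {x l : ℝ} (hx : 0 ≤ x) (hl : 0 < l)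
    (hln : l ≤ n * s) (hn : (1 + 2 * k) / s ≤ n) (m : ℕ) : ∀ σ, Adm n k σ →
      (cur q ρ ρ - Cm k q γ ρ s / l) * m / tot n x q α β γ δ + Fm n k q γ ρ s l σ
      ≤ Ex (prof n ρ s σ) (fun η => iter (wt n x q α β γ δ) actS m (fun s => (s.1 : ℝ)) (0, η)) := by
  have hq := L.hq; have hα := L.hα; have hβ := L.hβ; have hγ := L.hγ; have hδ := L.hδ
  have hs := L.hs
  have ht : 0 < tot n x q α β γ δ := by unfold tot; positivity
  have htn : (n : ℝ) ≤ tot n x q α β γ δ := by
    unfold tot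
    have : 0 ≤ (n : ℝ) * q := by positivity
    nlinarith
  have hw := wt_nonneg (n := n) hx hq hα.le hβ.le hγ hδ
  have h1 := sum_wt ht.ne'
  induction m with
  | zero =>
    intro σ h
    have := L.Fm_nonpos h hl
    simpa [Ex_const] using this
  | succ m ih =>
    intro σ h
    set W := iter (wt n x q α β γ δ) actS m (fun s => (s.1 : ℝ)) with hW
    set Λ := tot n x q α β γ δ with hΛ
    have hm : ∀ s s', hle s s' → W s ≤ W s' :=
      iter_rel hw hle actS_mono (fun s s' h => by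
        have := h 0
        rw [ht_zero, ht_zero] at this
        exact_mod_cast this) m
    have hsh : ∀ (c : ℤ) η, W (c, η) = W (0, η) + c :=
      cnt_shift h1 (fun h c η => by push_cast; ring) m
    have hstep : Ex (prof n ρ s σ)
        (fun η => iter (wt n x q α β γ δ) actS (m + 1) (fun s => (s.1 : ℝ)) (0, η))
        = Ex (prof n ρ s σ) (fun η => W (0, η))
          + Ex (prof n ρ s σ) (fun η => genS x q α β γ δ W (0, η)) / Λ := by
      rw [← Ex_div, ← Ex_add]
      congr 1; funext η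
      rw [iter_succ, step_genS ht.ne']
    rw [hstep]
    have G := L.gen_lower h x hm hsh
    simp only [L.kap_D1 h] at G
    rw [Fin.sum_univ_eq_sum_range (fun j => |kap n q α γ ρ s σ j| / s *
        (Ex (prof n ρ s (mv n q α γ ρ s σ j)) (fun η => W (0, η))
          - Ex (prof n ρ s σ) (fun η => W (0, η)))) (n + 1)] at G
    have F := L.drift_F h hl hln
    set g := (cur q ρ ρ - Cm k q γ ρ s / l) * m / Λ with hg
    set E := Ex (prof n ρ s σ) (fun η => W (0, η)) with hE
    have I0 : g + Fm n k q γ ρ s l σ ≤ E := ih σ h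
    have I1 : ∀ j ∈ range (n + 1), |kap n q α γ ρ s σ j| / s *
          (Fm n k q γ ρ s l (mv n q α γ ρ s σ j) - Fm n k q γ ρ s l σ)
        - |kap n q α γ ρ s σ j| / s * (E - (g + Fm n k q γ ρ s l σ))
        ≤ |kap n q α γ ρ s σ j| / s *
          (Ex (prof n ρ s (mv n q α γ ρ s σ j)) (fun η => W (0, η)) - E) := by
      intro j _
      rw [← mul_sub]
      refine mul_le_mul_of_nonneg_left ?_ (by positivity)
      have := ih _ (L.mv_adm h j)
      linarith
    have I2 := Finset.sum_le_sum I1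
    rw [Finset.sum_sub_distrib, ← Finset.sum_mul, ← Finset.sum_div] at I2
    have I3 : (∑ j ∈ range (n + 1), |kap n q α γ ρ s σ j|) / s ≤ Λ :=
      ((div_le_div_of_nonneg_right (L.sum_abs_kap h) hs.le).trans hn).trans htn
    have I4 := mul_le_mul_of_nonneg_right I3 (sub_nonneg.2 I0)
    have I5 : cur q ρ ρ - Cm k q γ ρ s / l - Λ * (E - (g + Fm n k q γ ρ s l σ))
        ≤ Ex (prof n ρ s σ) (fun η => genS x q α β γ δ W (0, η)) := by linarith
    have I6 := div_le_div_of_nonneg_right I5 ht.le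
    have e : (cur q ρ ρ - Cm k q γ ρ s / l - Λ * (E - (g + Fm n k q γ ρ s l σ))) / Λ
        = (cur q ρ ρ - Cm k q γ ρ s / l) / Λ - (E - (g + Fm n k q γ ρ s l σ)) := by
      field_simp
    have e2 : (cur q ρ ρ - Cm k q γ ρ s / l) * ((m + 1 : ℕ) : ℝ) / Λ
        = g + (cur q ρ ρ - Cm k q γ ρ s / l) / Λ := by rw [hg]; push_cast; ring
    rw [e2]
    linarith

/-- Number of particles. -/
def mass (η : Cfg n) : ℝ := ∑ i, if η i then (1 : ℝ) else 0

lemma mass_mem (η : Cfg n) : 0 ≤ mass η ∧ mass η ≤ n + 1 := by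
  unfold mass
  constructor
  · exact Finset.sum_nonneg fun i _ => by split_ifs <;> simp
  · have : ∑ i : Fin (n + 1), (if η i then (1 : ℝ) else 0) ≤ ∑ _i : Fin (n + 1), (1 : ℝ) :=
      Finset.sum_le_sum fun i _ => by split_ifs <;> simp
    simpa using this

lemma ht_top (s : St n) : (ht s (n + 1) : ℝ) = s.1 - mass s.2 := by
  unfold ht mass
  push_cast
  congr 1
  refine Finset.sum_congr rfl fun i _ => ?_
  simp only [i.isLt, if_true, b2z]
  split_ifs <;> simp

lemma Ex_mass (r : ℝ) : Ex (fun _ => r) (mass (n := n)) = r * (n + 1) := by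
  unfold mass
  rw [Ex_sum]
  simp only [Ex_site]
  simp; ring

/-- Upper bound on the mean outflow started from the high density. -/
lemma Coex.outflow_upper (H : Coex q α β γ δ ρ) {x : ℝ} (hx : 0 ≤ x) (m : ℕ) :
    Ex (fun _ => 1 - ρ)
        (fun η => iter (wt n x q α β γ δ) actS m (fun s => (ht s (n + 1) : ℝ)) (0, η))
      ≤ cur q ρ ρ * m / tot n x q α β γ δ - (1 - ρ) * (n + 1) := by
  have hq := H.hq; have hα := H.hα; have hβ := H.hβ; have hγ := H.hγ; have hδ := H.hδ
  have hρ := H.hρ; have hρ1 := H.hρ1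
  have ht0 : 0 < tot n x q α β γ δ := by unfold tot; positivity
  have hw := wt_nonneg (n := n) hx hq hα.le hβ.le hγ hδ
  have h1 := sum_wt ht0.ne'
  have hr : ∀ _i : Fin (n + 1), 0 ≤ 1 - ρ ∧ 1 - ρ ≤ 1 := fun _ => ⟨by linarith, by linarith⟩
  induction m with
  | zero =>
    simp only [iter_zero, ht_top]
    rw [Ex_sub, Ex_mass]
    simp [Ex_const]
  | succ m ih =>
    set W := iter (wt n x q α β γ δ) actS m (fun s => (ht s (n + 1) : ℝ)) with hW
    set Λ := tot n x q α β γ δ with hΛ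
    have hm : ∀ s s', hle s s' → W s ≤ W s' :=
      iter_rel hw hle actS_mono (fun s s' h => by exact_mod_cast h (n + 1)) m
    have hsh : ∀ (c : ℤ) η, W (c, η) = W (0, η) + c :=
      cnt_shift h1 (fun h c η => by rw [ht_shift]; push_cast; ring) m
    have hstep : Ex (fun _ => 1 - ρ)
        (fun η => iter (wt n x q α β γ δ) actS (m + 1) (fun s => (ht s (n + 1) : ℝ)) (0, η))
        = Ex (fun _ => 1 - ρ) (fun η => W (0, η))
          + Ex (fun _ => 1 - ρ) (fun η => genS x q α β γ δ W (0, η)) / Λ := by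
      rw [← Ex_div, ← Ex_add]
      congr 1; funext η
      rw [iter_succ, step_genS ht0.ne']
    rw [hstep]
    have G : Ex (fun _ => 1 - ρ) (fun η => genS x q α β γ δ W (0, η)) ≤ cur q ρ ρ := by
      have en := G1_enter hr hm 0
      rw [Ex_genS_flat, G1_shift _ (0 - 1) (hsh _)]
      rw [G1_shift _ (0 + 1) (hsh _)] at en ⊢
      have e1 : cur q (1 - ρ) (1 - ρ) = cur q ρ ρ := by rw [cur_self, cur_self]; ring
      have e2 : cur q ρ ρ - (β * (1 - ρ) - δ * (1 - (1 - ρ))) = 0 := by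
        have := H.hR; linarith
      rw [e1, e2]
      have e3 : α * ρ - γ * (1 - ρ) ≤ cur q ρ ρ := by
        rw [← H.hL]; nlinarith
      have := mul_le_mul_of_nonneg_right e3 (sub_nonneg.2 en)
      unfold D1
      push_cast at this ⊢
      linarith
    have := div_le_div_of_nonneg_right G ht0.le
    have e2 : cur q ρ ρ * ((m + 1 : ℕ) : ℝ) / Λ = cur q ρ ρ * m / Λ + cur q ρ ρ / Λ := by
      push_cast; ring
    rw [e2]
    linarith

lemma Lad.mass_lower (L : Lad q α β γ δ ρ k s) {x l : ℝ} (hx : 0 ≤ x) (hl : 0 < l)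
    (hln : l ≤ n * s) (hn : (1 + 2 * k) / s ≤ n) (m : ℕ) :
    (1 - ρ) * (n + 1) - Cm k q γ ρ s / l * (m / tot n x q α β γ δ)
        - (cur q ρ ρ + γ) / cur q ρ ρ * (l / 2)
      ≤ Ex (fun _ => 1 - ρ) (iter (wt n x q α β γ δ) actC m mass) := by
  have h : Adm n k (fun _ => k) := ⟨fun _ _ => Or.inl rfl, rfl⟩
  have A := L.inflow_lower hx hl hln hn m _ h
  have B := L.toCoex.outflow_upper (n := n) hx m
  have e1 : prof n ρ s (fun _ => k) = fun _ => 1 - ρ := by
    funext i; exact L.lev_top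
  have e2 : Fm n k q γ ρ s l (fun _ => k) = -((cur q ρ ρ + γ) / cur q ρ ρ * (l / 2)) := by
    simp only [Fm, Vm, Ym, sub_self, mul_zero, Finset.sum_const_zero, sub_zero,
      max_eq_left hl.le]
    field_simp
    ring
  rw [e1, e2] at A
  have e3 : iter (wt n x q α β γ δ) actC m mass = fun η =>
      iter (wt n x q α β γ δ) actS m (fun s => (s.1 : ℝ)) (0, η)
      - iter (wt n x q α β γ δ) actS m (fun s => (ht s (n + 1) : ℝ)) (0, η) := by
    funext η
    rw [← iter_sub]
    have := iter_proj (w := wt n x q α β γ δ) (act := actS) (act' := actC)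
      (fun s : St n => s.2) (fun m s => rfl) mass m (0, η)
    rw [← this]
    congr 1
    funext s
    rw [ht_top]; ring
  rw [e3, Ex_sub]
  have e4 : (cur q ρ ρ - Cm k q γ ρ s / l) * m / tot n x q α β γ δ
      = cur q ρ ρ * m / tot n x q α β γ δ - Cm k q γ ρ s / l * (m / tot n x q α β γ δ) := by ring
  linarith

/-- Particle-hole exchange combined with reflection. -/
def flip (η : Cfg n) : Cfg n := fun i => !η i.rev

lemma flip_flip (η : Cfg n) : flip (flip η) = η := by funext i; simp [flip]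

lemma flip_update (η : Cfg n) (i : Fin (n + 1)) (a : Bool) :
    flip (update η i a) = update (flip η) i.rev (!a) := by
  funext j
  by_cases hj : j = i.rev
  · subst hj; simp [flip]
  · have : j.rev ≠ i := fun e => hj (by rw [← e]; simp)
    simp [flip, hj, this]

lemma flip_bulk (i : Fin n) (u : Bool) (η : Cfg n) :
    flip (bulk i u η) = bulk i.rev u (flip η) := by
  unfold bulk
  rw [flip_update, flip_update, Fin.rev_succ, Fin.rev_castSucc,
    update_comm (castSucc_ne_succ i.rev).symm]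
  simp only [flip, Fin.rev_succ, Fin.rev_castSucc, Fin.rev_rev]
  cases u <;> cases η i.castSucc <;> cases η i.succ <;> rfl

lemma step_flip (x q α β γ δ : ℝ) (f : Cfg n → ℝ) (η : Cfg n) :
    step (wt n x q α β γ δ) actC (fun η => f (flip η)) η
      = step (wt n x q β α δ γ) actC f (flip η) := by
  have e : tot n x q β α δ γ = tot n x q α β γ δ := by unfold tot; ring
  unfold step
  rw [sum_Mv, sum_Mv]
  simp only [wt, rate, actC, e, flip_update, flip_bulk, Fin.rev_zero, Fin.rev_last, Bool.not_not]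
  rw [← Equiv.sum_comp Fin.revPerm (fun i : Fin n =>
    1 / tot n x q α β γ δ * f (bulk i true (flip η))
      + q / tot n x q α β γ δ * f (bulk i false (flip η)))]
  simp only [Fin.revPerm_apply]
  ring

lemma Ex_flip (r : ℝ) (g : Cfg n → ℝ) :
    Ex (fun _ => r) (fun η => g (flip η)) = Ex (fun _ => 1 - r) g := by
  unfold Ex
  rw [← Equiv.sum_comp (Function.Involutive.toPerm (flip (n := n)) flip_flip)
    (fun η => (∏ i, bern (1 - r) (η i)) * g η)]
  refine Finset.sum_congr rfl fun η _ => ?_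
  simp only [Function.Involutive.coe_toPerm]
  congr 1
  rw [← Equiv.prod_comp Fin.revPerm (fun i => bern r (η i))]
  refine Finset.prod_congr rfl fun i _ => ?_
  simp only [flip, Fin.revPerm_apply]
  cases η i.rev <;> simp [bern]

lemma mass_flip (η : Cfg n) : mass η = (n + 1) - mass (flip η) := by
  unfold mass
  rw [← Equiv.sum_comp Fin.revPerm (fun i => if η i then (1 : ℝ) else 0)]
  have : ((n : ℝ) + 1) = ∑ _i : Fin (n + 1), (1 : ℝ) := by simp
  rw [this, ← Finset.sum_sub_distrib]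
  refine Finset.sum_congr rfl fun i _ => ?_
  simp only [flip, Fin.revPerm_apply]
  by_cases h : η i.rev = true <;> simp [h]

lemma Coex.symm (H : Coex q α β γ δ ρ) : Coex q β α δ γ ρ :=
  ⟨H.hq, H.hq1, H.hβ, H.hα, H.hδ, H.hγ, H.hρ, H.hρ1, H.hR, H.hL⟩

lemma Lad.symm (L : Lad q α β γ δ ρ k s) : Lad q β α δ γ ρ k s :=
  ⟨L.toCoex.symm, L.hs, L.hk, L.hsJ⟩

lemma Coex.exists_lad (H : Coex q α β γ δ ρ) : ∃ k s, Lad q α β γ δ ρ k s := by
  have hJ := H.cur_pos
  have h1 : 0 < 1 - 2 * ρ := by have := H.hρ1; linarith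
  obtain ⟨k, hk⟩ := exists_nat_gt ((1 - 2 * ρ) / cur q ρ ρ)
  have hk0 : (0 : ℝ) < k := lt_trans (by positivity) hk
  refine ⟨k, (1 - 2 * ρ) / k, H, by positivity, by field_simp, ?_⟩
  rw [div_lt_iff₀ hJ] at hk
  rw [div_le_iff₀ hk0]
  linarith

/-- The two product starts keep different mean masses up to a time of order `n ^ 2`. -/
lemma lower_discrete (H : Coex q α β γ δ ρ) : ∃ c : ℝ, 0 < c ∧ ∀ᶠ n : ℕ in Filter.atTop,
    ∀ x : ℝ, 0 ≤ x → ∀ m : ℕ,
      (1 - 2 * ρ) * (n + 1) / 2 - (m / tot n x q α β γ δ) / (c * (n + 1))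
      ≤ Ex (fun _ => 1 - ρ) (iter (wt n x q α β γ δ) actC m mass)
        - Ex (fun _ => ρ) (iter (wt n x q α β γ δ) actC m mass) := by
  obtain ⟨k, s, L⟩ := H.exists_lad
  have hJ := H.cur_pos
  have hs := L.hs
  have hq := H.hq; have hα := H.hα; have hβ := H.hβ; have hγ := H.hγ; have hδ := H.hδ
  have h1 : 0 < 1 - 2 * ρ := by have := H.hρ1; linarith
  have hq1 : 0 < 1 - q := by have := H.hq1; linarith
  set A := (cur q ρ ρ + γ) / cur q ρ ρ + (cur q ρ ρ + δ) / cur q ρ ρ with hA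
  have A0 : 0 < A := by positivity
  set C := Cm k q γ ρ s + Cm k q δ ρ s with hC
  have C0 : 0 < C := by rw [hC]; unfold Cm; positivity
  set θ := min (s / 2) ((1 - 2 * ρ) / A) with hθ
  have θ0 : 0 < θ := lt_min (by positivity) (by positivity)
  have θ1 : θ ≤ s / 2 := min_le_left _ _
  have θ2 : θ ≤ (1 - 2 * ρ) / A := min_le_right _ _
  refine ⟨θ / C, by positivity, ?_⟩
  filter_upwards [Filter.eventually_ge_atTop ⌈(1 + 2 * k) / s⌉₊, Filter.eventually_ge_atTop 1]
    with n hn hn1 x hx m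
  have hn' : (1 + 2 * (k : ℝ)) / s ≤ n := (Nat.le_ceil _).trans (by exact_mod_cast hn)
  have hn1' : (1 : ℝ) ≤ n := by exact_mod_cast hn1
  have hl : 0 < θ * (n + 1) := by positivity
  have hln : θ * (n + 1) ≤ n * s := by nlinarith
  have ht0 : 0 < tot n x q α β γ δ := by unfold tot; positivity
  have B1 := L.mass_lower hx hl hln hn' m
  have B2 := L.symm.mass_lower hx hl hln hn' m
  have e : tot n x q β α δ γ = tot n x q α β γ δ := by unfold tot; ring
  rw [e] at B2
  have e2 : Ex (fun _ => ρ) (iter (wt n x q α β γ δ) actC m mass)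
      = (n + 1) - Ex (fun _ => 1 - ρ) (iter (wt n x q β α δ γ) actC m mass) := by
    rw [← Ex_flip ρ, ← Ex_const (ι := Fin (n + 1)) (fun _ => ρ) ((n : ℝ) + 1), ← Ex_sub]
    congr 1
    funext η
    rw [← iter_proj_of_step flip (step_flip x q α β γ δ) mass m η]
    have := iter_sub (w := wt n x q α β γ δ) (act := actC) (fun _ => (n : ℝ) + 1)
      (fun η => mass (flip η)) m η
    rw [iter_const (sum_wt ht0.ne')] at this
    rw [← this]
    congr 1
    funext η; exact mass_flip η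
  rw [e2]
  have e3 : (m / tot n x q α β γ δ) / (θ / C * (n + 1))
      = Cm k q γ ρ s / (θ * (n + 1)) * (m / tot n x q α β γ δ)
        + Cm k q δ ρ s / (θ * (n + 1)) * (m / tot n x q α β γ δ) := by
    have : (m / tot n x q α β γ δ) / (θ / C * (n + 1))
        = C / (θ * (n + 1)) * (m / tot n x q α β γ δ) := by field_simp
    rw [this, hC]; ring
  have e4 : A * (θ * (n + 1) / 2) ≤ (1 - 2 * ρ) * (n + 1) / 2 := by
    rw [le_div_iff₀ A0] at θ2
    have : 0 ≤ (n : ℝ) + 1 := by positivity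
    nlinarith
  rw [hA] at e4
  linarith

end Pool.Agent.Lib.MP_2842de_pr
end

-- part Pool.Agent.Lib.MP_2842de_pr.Final
section

/-! From the random-map chain to the continuous-time semigroup. -/

namespace Pool.Agent.Lib.MP_2842de_pr

open Finset Matrix Function

variable {n : ℕ} {q α β γ δ ρ : ℝ}

/-- The matrix `L` is the generator of the exclusion process. -/
def IsGen (q α β γ δ : ℝ) (L : Matrix (Cfg n) (Cfg n) ℝ) : Prop :=
  ∀ (x : ℝ) (f : Cfg n → ℝ) η, (L *ᵥ f) η = ∑ m, rate x q α β γ δ m * (f (actC m η) - f η)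

lemma IsGen.hasSum {L : Matrix (Cfg n) (Cfg n) ℝ} (hL : IsGen q α β γ δ L) {x : ℝ}
    (ht : 0 < tot n x q α β γ δ) (t : ℝ) (f : Cfg n → ℝ) (η : Cfg n) :
    HasSum (fun k : ℕ => poi (tot n x q α β γ δ * t) k * iter (wt n x q α β γ δ) actC k f η)
      ((Pm L t *ᵥ f) η) :=
  hasSum_iter ht.ne' (sum_rate x q α β γ δ) (hL x) t f η

lemma IsGen.base (H : Coex q α β γ δ ρ) {L : Matrix (Cfg n) (Cfg n) ℝ} (hL : IsGen q α β γ δ L)
    {π : Cfg n → ℝ} (hπ : ∀ y, ∑ x, π x * L x y = 0) (t : ℝ) (ht : 0 ≤ t) :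
    Contr (Pm L t) 1 ∧ (∀ x, ∑ y, Pm L t x y = 1) ∧
      ∀ f : Cfg n → ℝ, ∑ x, π x * (Pm L t *ᵥ f) x = ∑ x, π x * f x := by
  have hq := H.hq; have hα := H.hα; have hβ := H.hβ; have hγ := H.hγ; have hδ := H.hδ
  have h0 : 0 < tot n 0 q α β γ δ := by unfold tot; positivity
  have hw := wt_nonneg (n := n) le_rfl hq hα.le hβ.le hγ hδ
  have h1 := sum_wt h0.ne'
  have hμ : 0 ≤ tot n 0 q α β γ δ * t := by positivity
  refine ⟨fun f a b hf x y => ?_, fun x => ?_, fun f => ?_⟩
  · refine hasSum_le (fun k => ?_) ((hL.hasSum h0 t f x).sub (hL.hasSum h0 t f y))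
      ((hasSum_poi (tot n 0 q α β γ δ * t)).mul_left (b - a))
    have a1 := iter_le_const (act := actC) hw h1 (fun η => (hf η).2) k x
    have a2 := const_le_iter (act := actC) hw h1 (fun η => (hf η).1) k y
    have := poi_nonneg hμ k
    nlinarith
  · have a1 := hL.hasSum h0 t (fun _ => 1) x
    simp only [iter_const h1, mul_one] at a1
    have := a1.unique (hasSum_poi _)
    simpa [Matrix.mulVec, dotProduct] using this
  · have a1 : ∀ (k : ℕ) (f : Cfg n → ℝ),
        ∑ x, π x * iter (wt n 0 q α β γ δ) actC k f x = ∑ x, π x * f x := by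
      intro k
      induction k with
      | zero => intro f; rfl
      | succ k ih =>
        intro f
        rw [iter_succ', ih]
        have e : ∀ x, step (wt n 0 q α β γ δ) actC f x = f x + (L *ᵥ f) x / tot n 0 q α β γ δ := by
          intro x
          rw [hL 0]
          exact step_eq_gen (rate 0 q α β γ δ) _ h0.ne' (sum_rate 0 q α β γ δ) f x
        have e2 : ∑ x, π x * (L *ᵥ f) x = 0 := by
          simp only [Matrix.mulVec, dotProduct, Finset.mul_sum]
          rw [Finset.sum_comm]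
          refine Finset.sum_eq_zero fun y _ => ?_
          have := congrArg (· * f y) (hπ y)
          simp only [Finset.sum_mul, zero_mul] at this
          rw [← this]
          exact Finset.sum_congr rfl fun x _ => by ring
        simp only [e, mul_add, Finset.sum_add_distrib, ← mul_div_assoc, ← Finset.sum_div, e2]
        simp
    have a2 := hasSum_sum (s := univ) (fun x _ => (hL.hasSum h0 t f x).mul_left (π x))
    have a3 := (hasSum_poi (tot n 0 q α β γ δ * t)).mul_right (∑ x, π x * f x)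
    rw [one_mul] at a3
    refine a2.unique (hasSum_of_eq a3 (fun k => ?_) rfl)
    rw [← a1 k f, Finset.mul_sum]
    exact Finset.sum_congr rfl fun x _ => by ring

lemma upper_cont (H : Coex q α β γ δ ρ) {τ : ℝ} (hτ : 0 < τ) :
    ∃ ε : ℝ, 0 < ε ∧ ∀ᶠ n : ℕ in Filter.atTop, ∀ L : Matrix (Cfg n) (Cfg n) ℝ,
      IsGen q α β γ δ L → Contr (Pm L (τ * ((n : ℝ) + 1) ^ 2)) (1 - ε) := by
  obtain ⟨ε, hε, hev⟩ := upper_discrete H (show 0 < τ / 4 by positivity) hτ
  refine ⟨ε / 2, by positivity, ?_⟩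
  filter_upwards [hev, Filter.eventually_ge_atTop ⌈7 / τ⌉₊] with n hn hn2 L hL f a b hf x y
  have hq := H.hq; have hα := H.hα; have hβ := H.hβ; have hγ := H.hγ; have hδ := H.hδ
  have hx := H.xtra_pos
  set Λ := tot n (xtra q α γ ρ) q α β γ δ with hΛ
  have h0 : 0 < Λ := by rw [hΛ]; unfold tot; positivity
  have hΛn : (n : ℝ) ≤ Λ := by
    rw [hΛ]; unfold tot
    have : 0 ≤ (n : ℝ) * q := by positivity
    nlinarith
  have hw := wt_nonneg (n := n) hx.le hq hα.le hβ.le hγ hδ
  have h1 := sum_wt h0.ne'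
  set t := τ * ((n : ℝ) + 1) ^ 2 with ht
  set μ := Λ * t with hμ
  have hn0 : (0 : ℝ) ≤ n := Nat.cast_nonneg n
  have ht0 : 0 < t := by positivity
  have hμ7 : 7 ≤ μ := by
    have b1 : 7 / τ ≤ n := (Nat.le_ceil _).trans (by exact_mod_cast hn2)
    rw [div_le_iff₀ hτ] at b1
    have b2 : τ ≤ t := by rw [ht]; nlinarith [mul_nonneg hτ.le (mul_nonneg hn0 hn0)]
    have b3 : (n : ℝ) * τ ≤ Λ * t := mul_le_mul hΛn b2 hτ.le h0.le
    linarith
  set k₀ := ⌊μ / 2⌋₊ with hk₀
  have k1 : (k₀ : ℝ) ≤ μ / 2 := Nat.floor_le (by linarith)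
  have k2 : μ / 2 < k₀ + 1 := Nat.lt_floor_add_one _
  have k3 : τ / 4 * ((n : ℝ) + 1) ^ 2 ≤ (k₀ : ℝ) / Λ := by
    rw [le_div_iff₀ h0]
    have : τ / 4 * ((n : ℝ) + 1) ^ 2 * Λ = μ / 4 := by rw [hμ, ht]; ring
    linarith
  have k4 : (k₀ : ℝ) / Λ ≤ τ * ((n : ℝ) + 1) ^ 2 := by
    rw [div_le_iff₀ h0]
    have : τ * ((n : ℝ) + 1) ^ 2 * Λ = μ := by rw [hμ, ht]; ring
    linarith
  have hab : 0 ≤ b - a := by have := hf x; linarith
  have D : ∀ k : ℕ, iter (wt n (xtra q α γ ρ) q α β γ δ) actC k f x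
      - iter (wt n (xtra q α γ ρ) q α β γ δ) actC k f y
      ≤ (b - a) * (1 - ε) + (b - a) * ε * 2 ^ k₀ * (1 / 2) ^ k := by
    intro k
    by_cases hk : k₀ ≤ k
    · obtain ⟨j, rfl⟩ := Nat.exists_eq_add_of_le hk
      rw [iter_add_steps]
      have := hn k₀ k3 k4 (iter (wt n (xtra q α γ ρ) q α β γ δ) actC j f) a b
        (fun η => ⟨const_le_iter hw h1 (fun η => (hf η).1) j η,
          iter_le_const hw h1 (fun η => (hf η).2) j η⟩) x y
      have p : 0 ≤ (b - a) * ε * 2 ^ k₀ * (1 / 2) ^ (k₀ + j) := by positivity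
      linarith
    · have a1 := iter_le_const (act := actC) hw h1 (fun η => (hf η).2) k x
      have a2 := const_le_iter (act := actC) hw h1 (fun η => (hf η).1) k y
      have a3 : (1 : ℝ) ≤ 2 ^ k₀ * (1 / 2) ^ k := by
        rw [one_div, inv_pow, ← div_eq_mul_inv, le_div_iff₀ (by positivity), one_mul]
        exact pow_le_pow_right₀ (by norm_num) (by omega)
      have a4 := mul_le_mul_of_nonneg_left a3 (mul_nonneg hab hε.le)
      linarith
  have S := ((hasSum_poi μ).mul_left ((b - a) * (1 - ε))).add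
    ((hasSum_poi_mul μ (1 / 2)).mul_left ((b - a) * ε * 2 ^ k₀))
  have M := hasSum_le (fun k => by
      have := mul_le_mul_of_nonneg_left (D k) (poi_nonneg (by linarith : 0 ≤ μ) k)
      linarith) ((hL.hasSum h0 t f x).sub (hL.hasSum h0 t f y)) S
  have E : (2 : ℝ) ^ k₀ * Real.exp (-μ + μ * (1 / 2)) ≤ 1 / 2 := by
    have b1 : (2 : ℝ) ^ k₀ = Real.exp (k₀ * Real.log 2) := by
      rw [Real.exp_nat_mul, Real.exp_log (by norm_num)]
    rw [b1, ← Real.exp_add]
    have b2 := Real.log_two_lt_d9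
    have b3 : (k₀ : ℝ) * Real.log 2 ≤ μ / 2 * 0.7 :=
      mul_le_mul k1 (by linarith) (Real.log_nonneg (by norm_num)) (by linarith)
    have b4 : Real.exp (k₀ * Real.log 2 + (-μ + μ * (1 / 2))) ≤ Real.exp (-1) :=
      Real.exp_le_exp.2 (by linarith)
    refine b4.trans ?_
    rw [Real.exp_neg, inv_eq_one_div]
    exact one_div_le_one_div_of_le (by norm_num) (by linarith [Real.add_one_le_exp 1])
  have := mul_le_mul_of_nonneg_left E (mul_nonneg hab hε.le)
  nlinarith

lemma lower_cont (H : Coex q α β γ δ ρ) :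
    ∃ τ ε : ℝ, 0 < τ ∧ 0 < ε ∧ ∀ᶠ n : ℕ in Filter.atTop, ∀ L : Matrix (Cfg n) (Cfg n) ℝ,
      IsGen q α β γ δ L → ∀ c, Contr (Pm L (τ * ((n : ℝ) + 1) ^ 2)) c → ε ≤ c := by
  obtain ⟨c₀, hc₀, hev⟩ := lower_discrete H
  have hΔ : 0 < 1 - 2 * ρ := by have := H.hρ1; linarith
  refine ⟨c₀ * (1 - 2 * ρ) / 4, (1 - 2 * ρ) / 4, by positivity, by positivity, ?_⟩
  filter_upwards [hev] with n hn L hL c hc
  have hq := H.hq; have hα := H.hα; have hβ := H.hβ; have hγ := H.hγ; have hδ := H.hδ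
  have hρ := H.hρ
  set Λ := tot n 0 q α β γ δ with hΛ
  have h0 : 0 < Λ := by rw [hΛ]; unfold tot; positivity
  set t := c₀ * (1 - 2 * ρ) / 4 * ((n : ℝ) + 1) ^ 2 with ht
  have ht0 : 0 ≤ t := by positivity
  have hN : (0 : ℝ) < n + 1 := by positivity
  have A : ∀ r : ℝ, HasSum
      (fun k : ℕ => poi (Λ * t) k * Ex (fun _ => r) (iter (wt n 0 q α β γ δ) actC k mass))
      (Ex (fun _ => r) (Pm L t *ᵥ mass)) := by
    intro r
    have := hasSum_sum (s := univ)
      (fun η _ => (hL.hasSum h0 t mass η).mul_left (∏ i : Fin (n + 1), bern r (η i)))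
    refine hasSum_of_eq this (fun k => ?_) rfl
    unfold Ex
    rw [Finset.mul_sum]
    exact Finset.sum_congr rfl fun η _ => by ring
  have S := ((hasSum_poi (Λ * t)).mul_left ((1 - 2 * ρ) * (n + 1) / 2)).sub
    ((hasSum_poi_mean (Λ * t)).mul_left (1 / (Λ * (c₀ * (n + 1)))))
  have M := hasSum_le (fun k => by
      have := mul_le_mul_of_nonneg_left (hn 0 le_rfl k) (poi_nonneg (by positivity : 0 ≤ Λ * t) k)
      have e : (k : ℝ) / Λ / (c₀ * (n + 1)) = 1 / (Λ * (c₀ * (n + 1))) * k := by field_simp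
      rw [← hΛ, e] at this
      linarith) S ((A (1 - ρ)).sub (A ρ))
  have B : Ex (fun _ => 1 - ρ) (Pm L t *ᵥ mass) - Ex (fun _ => ρ) (Pm L t *ᵥ mass)
      ≤ (n + 1) * c := by
    have hb : ∀ _i : Fin (n + 1), 0 ≤ 1 - ρ ∧ 1 - ρ ≤ 1 := fun _ => ⟨by linarith, by linarith⟩
    have ha : ∀ _i : Fin (n + 1), 0 ≤ ρ ∧ ρ ≤ 1 := fun _ => ⟨by linarith, by linarith⟩
    have b1 : ∀ x, (Pm L t *ᵥ mass) x ≤ (n + 1) * c + Ex (fun _ => ρ) (Pm L t *ᵥ mass) := by
      intro x
      have := Ex_mono ha (f := fun _ => (Pm L t *ᵥ mass) x - (n + 1) * c) (g := Pm L t *ᵥ mass)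
        (fun y => by have := hc mass 0 (n + 1) mass_mem x y; linarith)
      rw [Ex_const] at this
      linarith
    have := Ex_mono hb b1
    rw [Ex_const] at this
    linarith
  have e : 1 / (Λ * (c₀ * (n + 1))) * (Λ * t) = (1 - 2 * ρ) * (n + 1) / 4 := by
    rw [ht]; field_simp
  rw [e] at M
  refine le_of_mul_le_mul_left ?_ hN
  linarith

lemma sum_adjacent (F : Fin (n + 1) → Fin (n + 1) → ℝ) :
    ∑ i : Fin (n + 1), ∑ j : Fin (n + 1), (if j.val = i.val + 1 then F i j else 0)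
      = ∑ i : Fin n, F i.castSucc i.succ := by
  rw [Fin.sum_univ_castSucc]
  have h1 : ∑ j : Fin (n + 1), (if j.val = (Fin.last n).val + 1 then F (Fin.last n) j else 0) = 0 := by
    refine Finset.sum_eq_zero fun j _ => ?_
    have := j.isLt
    rw [if_neg (by simp only [Fin.val_last]; omega)]
  rw [h1, add_zero]
  refine Finset.sum_congr rfl fun i _ => ?_
  have h2 : ∀ j : Fin (n + 1), (j.val = i.castSucc.val + 1) ↔ j = i.succ := by
    intro j; rw [Fin.ext_iff]; simp
  simp only [h2, Finset.sum_ite_eq', Finset.mem_univ, if_true]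

lemma isGen_of (R : Cfg n → Cfg n → ℝ)
    (hR : ∀ x y : Fin (n + 1) → Bool, R x y =
      (∑ i : Fin (n + 1), ∑ j : Fin (n + 1),
        if j.val = i.val + 1 ∧ y = Function.update (Function.update x i (x j)) j (x i) then
          (if x i = true ∧ x j = false then (1 : ℝ)
           else if x i = false ∧ x j = true then q else 0)
        else 0)
      + (∑ i : Fin (n + 1), if i.val = 0 then
          ((if x i = false ∧ y = Function.update x i true then α else 0)
            + (if x i = true ∧ y = Function.update x i false then γ else 0)) else 0)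
      + (∑ i : Fin (n + 1), if i.val + 1 = n + 1 then
          ((if x i = false ∧ y = Function.update x i true then δ else 0)
            + (if x i = true ∧ y = Function.update x i false then β else 0)) else 0)) :
    IsGen q α β γ δ (Matrix.of (fun x' y' : Fin (n + 1) → Bool =>
      R x' y' - if x' = y' then ∑ z : Fin (n + 1) → Bool, R x' z else 0)) := by
  intro x f η
  have e0 : (Matrix.of (fun x' y' : Fin (n + 1) → Bool =>
      R x' y' - if x' = y' then ∑ z : Fin (n + 1) → Bool, R x' z else 0) *ᵥ f) η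
      = ∑ y, R η y * (f y - f η) := by
    simp only [Matrix.mulVec, dotProduct, Matrix.of_apply, sub_mul, mul_sub,
      Finset.sum_sub_distrib, ite_mul, zero_mul, Finset.sum_ite_eq, Finset.mem_univ, if_true,
      Finset.sum_mul]
  have e1 : ∀ y, R η y = (∑ i : Fin n,
        if y = update (update η i.castSucc (η i.succ)) i.succ (η i.castSucc) then
          (if η i.castSucc = true ∧ η i.succ = false then (1 : ℝ)
           else if η i.castSucc = false ∧ η i.succ = true then q else 0) else 0)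
      + ((if η 0 = false ∧ y = update η 0 true then α else 0)
            + (if η 0 = true ∧ y = update η 0 false then γ else 0))
      + ((if η (Fin.last n) = false ∧ y = update η (Fin.last n) true then δ else 0)
            + (if η (Fin.last n) = true ∧ y = update η (Fin.last n) false then β else 0)) := by
    intro y
    rw [hR]
    simp only [ite_and (_ = _ + 1)]
    rw [sum_adjacent]
    have h1 : ∀ i : Fin (n + 1), (i.val = 0) ↔ i = 0 := by intro i; rw [Fin.ext_iff]; simp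
    have h2 : ∀ i : Fin (n + 1), (i.val + 1 = n + 1) ↔ i = Fin.last n := by
      intro i; rw [Fin.ext_iff]; simp
    simp only [h1, h2, Finset.sum_ite_eq', Finset.mem_univ, if_true]
  rw [e0, sum_Mv]
  simp only [e1, add_mul, Finset.sum_add_distrib, Finset.sum_mul, ite_and, ite_mul, zero_mul,
    rate, actC, sub_self, mul_zero, zero_add]
  rw [Finset.sum_comm]
  simp only [Finset.sum_ite_eq', Finset.mem_univ, if_true, Finset.sum_ite_irrel,
    Finset.sum_const_zero]
  have hb : ∀ i : Fin n,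
      (if η i.castSucc = true then
        if η i.succ = false then
          1 * (f (update (update η i.castSucc (η i.succ)) i.succ (η i.castSucc)) - f η)
        else if η i.castSucc = false then
          if η i.succ = true then
            q * (f (update (update η i.castSucc (η i.succ)) i.succ (η i.castSucc)) - f η) else 0
          else 0
      else if η i.castSucc = false then
          if η i.succ = true then
            q * (f (update (update η i.castSucc (η i.succ)) i.succ (η i.castSucc)) - f η) else 0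
          else 0)
      = 1 * (f (bulk i true η) - f η) + q * (f (bulk i false η) - f η) := by
    intro i
    have hs : update (update η i.castSucc (η i.castSucc)) i.succ (η i.succ) = η := by simp
    unfold bulk
    cases h1 : η i.castSucc <;> cases h2 : η i.succ <;> rw [h1, h2] at hs <;> simp [hs]
  have hl : ∀ (i : Fin (n + 1)) (a c : ℝ),
      ((if η i = false then a * (f (update η i true) - f η) else 0)
        + if η i = true then c * (f (update η i false) - f η) else 0)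
      = a * (f (update η i true) - f η) + c * (f (update η i false) - f η) := by
    intro i a c
    have hs : update η i (η i) = η := by simp
    cases h1 : η i <;> rw [h1] at hs <;> simp [hs]
  simp only [hb, hl, Finset.sum_add_distrib, Bool.not_true, Bool.not_false]
  ring

lemma kappa_eq {q a g C : ℝ} (ha : 0 < a) (hg : 0 ≤ g)
    (hC : C = (1 - q - a + g + Real.sqrt ((1 - q - a + g) ^ 2 + 4 * a * g)) / (2 * a))
    (h1 : 1 < C) : a * (1 - 1 / (1 + C)) - g * (1 / (1 + C)) = cur q (1 / (1 + C)) (1 / (1 + C)) := by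
  have hs := Real.sq_sqrt (show 0 ≤ (1 - q - a + g) ^ 2 + 4 * a * g by positivity)
  have e : Real.sqrt ((1 - q - a + g) ^ 2 + 4 * a * g) = 2 * a * C - (1 - q - a + g) := by
    rw [hC]; field_simp; ring
  rw [e] at hs
  have e2 : a * C ^ 2 - (1 - q - a + g) * C - g = 0 := by
    have : 4 * a * (a * C ^ 2 - (1 - q - a + g) * C - g) = 0 := by linear_combination hs
    rcases mul_eq_zero.1 this with h | h
    · linarith
    · exact h
  rw [cur_self]
  have : 0 < 1 + C := by linarith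
  field_simp
  linear_combination e2

lemma coex_of {q α β γ δ : ℝ} (hq : 0 ≤ q) (hq1 : q < 1) (hα : 0 < α) (hβ : 0 < β) (hγ : 0 ≤ γ)
    (hδ : 0 ≤ δ)
    (he : (1 - q - α + γ + Real.sqrt ((1 - q - α + γ) ^ 2 + 4 * α * γ)) / (2 * α)
      = (1 - q - β + δ + Real.sqrt ((1 - q - β + δ) ^ 2 + 4 * β * δ)) / (2 * β))
    (h1 : 1 < (1 - q - α + γ + Real.sqrt ((1 - q - α + γ) ^ 2 + 4 * α * γ)) / (2 * α)) :
    ∃ ρ, Coex q α β γ δ ρ := by
  set C := (1 - q - α + γ + Real.sqrt ((1 - q - α + γ) ^ 2 + 4 * α * γ)) / (2 * α) with hC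
  refine ⟨1 / (1 + C), hq, hq1, hα, hβ, hγ, hδ, by positivity, ?_, kappa_eq hα hγ hC h1,
    kappa_eq hβ hδ he h1⟩
  exact one_div_lt_one_div_of_lt (by norm_num) (by linarith)

lemma eventually_of_succ {p : ℕ → Prop} (h : ∀ᶠ n in Filter.atTop, p (n + 1)) :
    ∀ᶠ N in Filter.atTop, p N := by
  obtain ⟨a, ha⟩ := Filter.eventually_atTop.1 h
  refine Filter.eventually_atTop.2 ⟨a + 1, fun N hN => ?_⟩
  obtain ⟨m, rfl⟩ : ∃ m, N = m + 1 := ⟨N - 1, by omega⟩
  exact ha m (by omega)

end Pool.Agent.Lib.MP_2842de_pr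
end
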