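import Mathlib
import Pool.Agent.Lib.MP_2842de_pr.Final

/-! Stronger conclusions from the contraction estimates: all levels below one half, and unbounded
ratios of mixing times. -/

set_option autoImplicit false

namespace Pool.Agent.Lib.MP_2842de_pr

open Finset Matrix

lemma IsGen.diag {n : ℕ} {q α β γ δ ρ : ℝ} (H : Coex q α β γ δ ρ)
    {L : Matrix (Cfg n) (Cfg n) ℝ} (hL : IsGen q α β γ δ L) :
    ∃ Λ : ℝ, 0 < Λ ∧ ∀ t : ℝ, 0 ≤ t → ∀ x, Real.exp (-(Λ * t)) ≤ Pm L t x x := by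
  have hq := H.hq; have hα := H.hα; have hβ := H.hβ; have hγ := H.hγ; have hδ := H.hδ
  have h0 : 0 < tot n 0 q α β γ δ := by unfold tot; positivity
  have hw := wt_nonneg (n := n) le_rfl hq hα.le hβ.le hγ hδ
  refine ⟨_, h0, fun t ht x => ?_⟩
  have hμ : 0 ≤ tot n 0 q α β γ δ * t := by positivity
  have a1 := hL.hasSum h0 t (Pi.single x 1) x
  have a2 : ∀ s, (0 : ℝ) ≤ (Pi.single x 1 : Cfg n → ℝ) s := fun s => by
    rw [Pi.single_apply]; split_ifs <;> norm_num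
  have a3 := le_hasSum a1 0 (fun k _ => mul_nonneg (poi_nonneg hμ k) (iter_nonneg hw a2 k x))
  simpa [poi, Matrix.mulVec_single_one] using a3

theorem strong_of_contr {S : ℕ → Type} [∀ N, Fintype (S N)] [∀ N, DecidableEq (S N)]
    (L : (N : ℕ) → Matrix (S N) (S N) ℝ) (π : (N : ℕ) → S N → ℝ) (tmix : ℕ → ℝ → ℝ)
    (h0 : ∀ N x, 0 ≤ π N x) (h1 : ∀ N, ∑ x, π N x = 1)
    (htm : ∀ N ε, tmix N ε =
      sInf {t : ℝ | 0 ≤ t ∧ ∀ x : S N, (∑ y, |Pm (L N) t x y - π N y|) / 2 ≤ ε})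
    (hbase : ∀ᶠ N in Filter.atTop, ∀ t : ℝ, 0 ≤ t → Contr (Pm (L N) t) 1 ∧
      (∀ x, ∑ y, Pm (L N) t x y = 1) ∧
      ∀ f : S N → ℝ, ∑ x, π N x * (Pm (L N) t *ᵥ f) x = ∑ x, π N x * f x)
    (hdiag : ∀ᶠ N in Filter.atTop, ∃ Λ : ℝ, 0 < Λ ∧ ∀ t : ℝ, 0 ≤ t → ∀ x,
      Real.exp (-(Λ * t)) ≤ Pm (L N) t x x)
    (hcard : ∀ N, N ≤ Fintype.card (S N))
    (hU : ∀ τ : ℝ, 0 < τ → ∃ ε : ℝ, 0 < ε ∧ ∀ᶠ N : ℕ in Filter.atTop,
      Contr (Pm (L N) (τ * (N : ℝ) ^ 2)) (1 - ε))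
    (hLw : ∃ τ ε : ℝ, 0 < τ ∧ 0 < ε ∧ ∀ᶠ N : ℕ in Filter.atTop,
      ∀ c, Contr (Pm (L N) (τ * (N : ℝ) ^ 2)) c → ε ≤ c) :
    (∀ ε : ℝ, 0 < ε → ε < 1 / 2 → ∃ c C : ℝ, 0 < c ∧ c ≤ C ∧ ∀ᶠ N : ℕ in Filter.atTop,
      c * (N : ℝ) ^ 2 ≤ tmix N ε ∧ tmix N ε ≤ C * (N : ℝ) ^ 2) ∧
    (∀ K : ℝ, ∃ ε₀ : ℝ, 0 < ε₀ ∧ ε₀ < 1 / 2 ∧ ∀ ε : ℝ, 0 < ε → ε ≤ ε₀ →
      ∀ᶠ N : ℕ in Filter.atTop, 0 < tmix N (1 - ε) ∧ K ≤ tmix N ε / tmix N (1 - ε)) := by
  obtain ⟨τ₀, ε₀, hτ₀, hε₀, hL⟩ := hLw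
  obtain ⟨ε₁, hε₁, hU1⟩ := hU 1 one_pos
  have hm1 : 1 - min ε₁ (1 / 2) < 1 := by
    have : 0 < min ε₁ (1 / 2) := lt_min hε₁ (by norm_num)
    linarith
  have hmem : ∀ᶠ N : ℕ in Filter.atTop, ∀ t ε : ℝ, 0 ≤ t → Contr (Pm (L N) t) ε →
      t ∈ {t : ℝ | 0 ≤ t ∧ ∀ x : S N, (∑ y, |Pm (L N) t x y - π N y|) / 2 ≤ ε} := by
    filter_upwards [hbase] with N hb t ε ht h
    exact ⟨ht, tv_le_of_contr h (h0 N) (h1 N) (hb t ht).2.1 (hb t ht).2.2⟩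
  have hup : ∀ᶠ N : ℕ in Filter.atTop, ∀ t ε : ℝ, 0 ≤ t → Contr (Pm (L N) t) ε →
      tmix N ε ≤ t := by
    filter_upwards [hmem] with N hb t ε ht h
    rw [htm]
    exact csInf_le ⟨0, fun u hu => hu.1⟩ (hb t ε ht h)
  have hgeo : ∀ ε : ℝ, 0 < ε → ∃ i : ℕ, ∀ᶠ N : ℕ in Filter.atTop,
      Contr (Pm (L N) (i * (1 * (N : ℝ) ^ 2))) ε := by
    intro ε hε
    obtain ⟨i, hi⟩ := exists_pow_lt_of_lt_one hε hm1
    refine ⟨i, ?_⟩
    filter_upwards [hbase, hU1] with N hb hu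
    have := contr_iterate (hb 0 le_rfl).1
      (hu.mono (show 1 - ε₁ ≤ 1 - min ε₁ (1 / 2) by have := min_le_left ε₁ (1 / 2); linarith)) i
    exact this.mono hi.le
  have hlow : ∀ e : ℝ, e < 1 / 2 → ∃ c : ℝ, 0 < c ∧ ∀ ε : ℝ, 0 < ε → ε ≤ e →
      ∀ᶠ N : ℕ in Filter.atTop, c * (N : ℝ) ^ 2 ≤ tmix N ε := by
    intro e he
    obtain ⟨j, hj⟩ := exists_pow_lt_of_lt_one hε₀ (show 2 * e < 1 by linarith)
    refine ⟨τ₀ / (j + 1 : ℕ), by positivity, fun ε hε hεe => ?_⟩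
    obtain ⟨i, hi⟩ := hgeo ε hε
    filter_upwards [hi, hmem, hbase, hL] with N hi hm hb hl
    rw [htm]
    refine le_csInf ⟨_, hm _ _ (by positivity) hi⟩ ?_
    rintro t ⟨ht, htv⟩
    by_contra hlt
    push Not at hlt
    have a1 : Contr (Pm (L N) t) (2 * e) :=
      (contr_of_tv (hb t ht).2.1 htv).mono (by linarith)
    have a2 := contr_iterate (hb 0 le_rfl).1 a1 j
    have a3 : 0 ≤ τ₀ * (N : ℝ) ^ 2 - (j : ℝ) * t := by
      have b0 : (0 : ℝ) < (j + 1 : ℕ) := by positivity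
      have b1 : τ₀ * (N : ℝ) ^ 2 = ((j + 1 : ℕ) : ℝ) * (τ₀ / (j + 1 : ℕ) * (N : ℝ) ^ 2) := by
        field_simp
      rw [b1]
      have := mul_le_mul_of_nonneg_left hlt.le b0.le
      push_cast at this ⊢
      linarith
    have a4 := a2.mul (hb _ a3).1
    rw [← Pm_add, add_sub_cancel, mul_one] at a4
    have := hl _ a4
    linarith
  have hpos : ∀ ε : ℝ, 0 < ε → ε < 1 → ∀ᶠ N : ℕ in Filter.atTop, 0 < tmix N (1 - ε) := by
    intro ε hε hε1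
    obtain ⟨i, hi⟩ := hgeo (1 - ε) (by linarith)
    filter_upwards [hi, hmem, hbase, hdiag, Filter.eventually_ge_atTop ⌈2 / ε⌉₊,
      Filter.eventually_ge_atTop 1] with N hi hm hb hd hN hN1
    obtain ⟨Λ, hΛ, hd⟩ := hd
    have c1 : 2 / ε ≤ (Fintype.card (S N) : ℝ) :=
      (Nat.ceil_le.1 hN).trans (by exact_mod_cast hcard N)
    have c2 : ∃ x, π N x ≤ ε / 2 := by
      by_contra hc
      push Not at hc
      have hne : (univ : Finset (S N)).Nonempty := by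
        rw [← Finset.card_pos, Finset.card_univ]; have := hcard N; omega
      have := Finset.sum_lt_sum_of_nonempty hne (fun x _ => hc x)
      rw [h1, Finset.sum_const, Finset.card_univ, nsmul_eq_mul] at this
      rw [div_le_iff₀ hε] at c1
      linarith
    obtain ⟨x, hx⟩ := c2
    rw [htm]
    refine lt_of_lt_of_le (show 0 < ε / (2 * Λ) by positivity) ?_
    refine le_csInf ⟨_, hm _ _ (by positivity) hi⟩ ?_
    rintro t ⟨ht, htv⟩
    have d1 := htv x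
    have d2 : ∑ y, (Pm (L N) t x y - π N y) = 0 := by
      rw [Finset.sum_sub_distrib, (hb t ht).2.1, h1, sub_self]
    have d3 : 2 * (Pm (L N) t x x - π N x) ≤
        ∑ y, (|Pm (L N) t x y - π N y| + (Pm (L N) t x y - π N y)) := by
      refine le_trans ?_ (Finset.single_le_sum
        (f := fun y => |Pm (L N) t x y - π N y| + (Pm (L N) t x y - π N y))
        (fun y _ => by have := neg_abs_le (Pm (L N) t x y - π N y); linarith) (Finset.mem_univ x))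
      have := le_abs_self (Pm (L N) t x x - π N x)
      linarith
    rw [Finset.sum_add_distrib, d2, add_zero] at d3
    have d4 := hd t ht x
    have d5 := Real.add_one_le_exp (-(Λ * t))
    rw [div_le_iff₀ (by positivity)]
    linarith
  constructor
  · intro ε hε hε2
    obtain ⟨c, hc0, hc⟩ := hlow ε hε2
    obtain ⟨i, hi⟩ := hgeo ε hε
    refine ⟨c, c + i, hc0, by have : (0 : ℝ) ≤ i := by positivity
                              linarith, ?_⟩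
    filter_upwards [hc ε hε le_rfl, hi, hup] with N a1 a2 a3
    refine ⟨a1, (a3 _ _ (by positivity) a2).trans ?_⟩
    have : 0 ≤ c * (N : ℝ) ^ 2 := by positivity
    nlinarith
  · intro K
    obtain ⟨c, hc0, hc⟩ := hlow (1 / 4) (by norm_num)
    have hK : 0 < max K 1 := lt_of_lt_of_le one_pos (le_max_right _ _)
    obtain ⟨ε₂, hε₂, hU2⟩ := hU (c / max K 1) (by positivity)
    refine ⟨min ε₂ (1 / 4), lt_min hε₂ (by norm_num),
      lt_of_le_of_lt (min_le_right _ _) (by norm_num), fun ε hε hle => ?_⟩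
    have e1 : ε ≤ 1 / 4 := hle.trans (min_le_right _ _)
    have e2 : ε ≤ ε₂ := hle.trans (min_le_left _ _)
    filter_upwards [hc ε hε e1, hU2, hup, hpos ε hε (by linarith)] with N a2 a3 a4 a5
    refine ⟨a5, (le_max_left K 1).trans ?_⟩
    have b1 := a4 _ (1 - ε) (by positivity) (a3.mono (by linarith))
    rw [le_div_iff₀ a5]
    have b2 := mul_le_mul_of_nonneg_left b1 hK.le
    have b3 : max K 1 * (c / max K 1 * (N : ℝ) ^ 2) = c * (N : ℝ) ^ 2 := by field_simp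
    linarith

end Pool.Agent.Lib.MP_2842de_pr
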